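import Pool.Agent.H904L2.Defs

open Polynomial
open scoped Real

namespace H904L2
namespace Contour

/-- the integrand in the logarithmic coordinate -/
noncomputable def gf {ι : Type} [Fintype ι] (a : ι → ℂ) (p : ℂ[X]) (w : ℂ) : ℂ :=
  Fsq a (Complex.exp w) * p.eval (Complex.exp w)

theorem mem_slit (a w : ℂ) (ha : a ≠ 0)
    (h : ¬ (w.re ≤ Real.log ‖a‖ ∧ ∃ m : ℤ, w.im = a.arg + 2 * π * m)) :
    1 - a / Complex.exp w ∈ Complex.slitPlane := by
  by_contra hc
  apply h
  rw [Complex.mem_slitPlane_iff] at hc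
  push Not at hc
  obtain ⟨h1, h2⟩ := hc
  set u : ℂ := a / Complex.exp w with hu
  have hre : 1 ≤ u.re := by
    have : (1 - u).re = 1 - u.re := by simp
    linarith
  have him : u.im = 0 := by
    have : (1 - u).im = - u.im := by simp
    linarith
  have hur : u = (u.re : ℂ) := by
    apply Complex.ext <;> simp [him]
  have ha' : a = (u.re : ℂ) * Complex.exp w := by
    rw [← hur, hu, div_mul_cancel₀ _ (Complex.exp_ne_zero w)]
  have hnorm : ‖a‖ = u.re * Real.exp w.re := by
    conv_lhs => rw [ha']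
    rw [norm_mul, Complex.norm_exp, Complex.norm_real, Real.norm_eq_abs,
      abs_of_pos (by linarith)]
  constructor
  · have h3 : Real.exp w.re ≤ ‖a‖ := by
      rw [hnorm]
      have := Real.exp_pos w.re
      nlinarith
    rw [Real.le_log_iff_exp_le (norm_pos_iff.mpr ha)]
    exact h3
  · have e1 : (‖a‖ : ℂ) * Complex.exp (a.arg * Complex.I) = a := Complex.norm_mul_exp_arg_mul_I a
    have e2 : a = (‖a‖ : ℂ) * Complex.exp (w.im * Complex.I) := by
      conv_lhs => rw [ha']
      rw [hnorm]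
      push_cast
      rw [mul_assoc, ← Complex.exp_add]
      congr 2
      conv_lhs => rw [← Complex.re_add_im w]
    have hn0 : (‖a‖ : ℂ) ≠ 0 := by
      simpa using ha
    have e3 : Complex.exp (w.im * Complex.I) = Complex.exp (a.arg * Complex.I) := by
      apply mul_left_cancel₀ hn0
      rw [e1, ← e2]
    rw [Complex.exp_eq_exp_iff_exists_int] at e3
    obtain ⟨n, hn⟩ := e3
    refine ⟨n, ?_⟩
    have := congrArg Complex.im hn
    simp at this
    linarith

theorem gf_diff {ι : Type} [Fintype ι] (a : ι → ℂ) (ha : ∀ i, a i ≠ 0) (p : ℂ[X]) (w : ℂ)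
    (h : ∀ i, ¬ (w.re ≤ Real.log ‖a i‖ ∧ ∃ m : ℤ, w.im = (a i).arg + 2 * π * m)) :
    DifferentiableAt ℂ (gf a p) w := by
  unfold gf Fsq
  apply DifferentiableAt.mul
  · apply DifferentiableAt.fun_finsetProd
    intro i _
    have h1 : DifferentiableAt ℂ (fun w => 1 - a i / Complex.exp w) w := by
      apply DifferentiableAt.const_sub
      apply DifferentiableAt.div
      · exact differentiableAt_const _
      · exact Complex.differentiableAt_exp
      · exact Complex.exp_ne_zero w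
    exact h1.cpow (differentiableAt_const _) (mem_slit (a i) w (ha i) (h i))
  · exact (Polynomial.differentiable p).differentiableAt.comp w Complex.differentiableAt_exp

theorem gf_periodic {ι : Type} [Fintype ι] (a : ι → ℂ) (p : ℂ[X]) (w : ℂ) :
    gf a p (w + 2 * π * Complex.I) = gf a p w := by
  unfold gf
  rw [Complex.exp_periodic w]

theorem rect {ι : Type} [Fintype ι] (a : ι → ℂ) (ha : ∀ i, a i ≠ 0) (p : ℂ[X])
    (t H y0 y1 : ℝ) (hy : y0 ≤ y1)
    (h : ∀ i, (∃ y ∈ Set.Icc y0 y1, ∃ m : ℤ, y = (a i).arg + 2 * π * m) →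
      Real.log ‖a i‖ < t ∧ Real.log ‖a i‖ < H) :
    Complex.I * ∫ y in y0..y1, gf a p (H + y * Complex.I) =
      Complex.I * (∫ y in y0..y1, gf a p (t + y * Complex.I))
        - (∫ x in t..H, gf a p (x + y0 * Complex.I))
        + ∫ x in t..H, gf a p (x + y1 * Complex.I) := by
  have key := Complex.integral_boundary_rect_eq_zero_of_differentiableOn (gf a p)
    ((t : ℂ) + y0 * Complex.I) ((H : ℂ) + y1 * Complex.I) ?_
  · simp only [Complex.add_re, Complex.ofReal_re, Complex.mul_re, Complex.I_re, mul_zero,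
      Complex.ofReal_im, Complex.I_im, mul_one, sub_self, add_zero, Complex.add_im,
      Complex.mul_im, zero_add, smul_eq_mul] at key
    linear_combination key
  · intro w hw
    apply DifferentiableAt.differentiableWithinAt
    apply gf_diff a ha p w
    rw [Complex.mem_reProdIm] at hw
    simp only [Complex.add_re, Complex.ofReal_re, Complex.mul_re, Complex.I_re, mul_zero,
      Complex.ofReal_im, Complex.I_im, mul_one, sub_self, add_zero, Complex.add_im,
      Complex.mul_im, zero_add] at hw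
    obtain ⟨hw1, hw2⟩ := hw
    rw [Set.uIcc_of_le hy] at hw2
    rintro i ⟨hi1, hi2⟩
    obtain ⟨h1, h2⟩ := h i ⟨w.im, hw2, hi2⟩
    have h3 : min t H ≤ w.re := hw1.1
    have h4 : Real.log ‖a i‖ < min t H := lt_min h1 h2
    linarith

theorem horiz_integrable {ι : Type} [Fintype ι] (a : ι → ℂ) (ha : ∀ i, a i ≠ 0) (p : ℂ[X])
    (t H y : ℝ)
    (h : ∀ i, (∃ m : ℤ, y = (a i).arg + 2 * π * m) →
      Real.log ‖a i‖ < t ∧ Real.log ‖a i‖ < H) :
    IntervalIntegrable (fun x : ℝ => gf a p (x + y * Complex.I)) MeasureTheory.volume t H := by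
  apply ContinuousOn.intervalIntegrable
  intro x hx
  apply ContinuousAt.continuousWithinAt
  have h1 : ContinuousAt (gf a p) ((x : ℂ) + y * Complex.I) := by
    apply (gf_diff a ha p _ _).continuousAt
    rintro i ⟨hi1, hi2⟩
    simp at hi1 hi2
    obtain ⟨h1, h2⟩ := h i hi2
    have h3 : min t H ≤ x := hx.1
    have h4 : Real.log ‖a i‖ < min t H := lt_min h1 h2
    linarith
  have h2 : ContinuousAt (fun x : ℝ => (x : ℂ) + y * Complex.I) x := by fun_prop
  exact ContinuousAt.comp (f := fun x : ℝ => (x : ℂ) + y * Complex.I) h1 h2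

theorem Fsq_bound {ι : Type} [Fintype ι] (a : ι → ℂ) (T : ℝ) (z : ℂ)
    (hz : Real.exp (-T) ≤ ‖z‖) : ‖Fsq a z‖ ≤ ∏ i, (1 + ‖a i‖ * Real.exp T) := by
  unfold Fsq
  rw [norm_prod]
  apply Finset.prod_le_prod
  · intro i _; exact norm_nonneg _
  · intro i _
    have hzpos : 0 < ‖z‖ := lt_of_lt_of_le (Real.exp_pos _) hz
    have h1 : ‖1 - a i / z‖ ≤ 1 + ‖a i‖ * Real.exp T := by
      refine (norm_sub_le _ _).trans ?_
      rw [norm_one, norm_div]
      gcongr
      rw [div_le_iff₀ hzpos]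
      have : 1 ≤ Real.exp T * ‖z‖ := by
        calc (1:ℝ) = Real.exp T * Real.exp (-T) := by rw [← Real.exp_add]; simp
          _ ≤ _ := by gcongr
      nlinarith [norm_nonneg (a i)]
    have h2 : (1:ℝ) ≤ 1 + ‖a i‖ * Real.exp T := by
      have : 0 ≤ ‖a i‖ * Real.exp T := by positivity
      linarith
    by_cases h0 : 1 - a i / z = 0
    · rw [h0, Complex.zero_cpow (by norm_num)]
      simp only [norm_zero]
      linarith
    · have h3 : ‖(1 - a i / z) ^ (1 / 2 : ℂ)‖ = ‖1 - a i / z‖ ^ (1 / 2 : ℝ) := by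
        have : (1 / 2 : ℂ) = ((1 / 2 : ℝ) : ℂ) := by push_cast; rfl
        rw [this, Complex.norm_cpow_real]
      rw [h3]
      calc ‖1 - a i / z‖ ^ (1 / 2 : ℝ) ≤ (1 + ‖a i‖ * Real.exp T) ^ (1 / 2 : ℝ) := by
            apply Real.rpow_le_rpow (norm_nonneg _) h1 (by norm_num)
        _ ≤ (1 + ‖a i‖ * Real.exp T) ^ (1 : ℝ) := by
            apply Real.rpow_le_rpow_of_exponent_le h2 (by norm_num)
        _ = _ := Real.rpow_one _

/-- grid points -/
noncomputable def yg (M : ℕ) (k : ℕ) : ℝ := 2 * π * k / M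

/-- the indices whose direction meets the cell `k` -/
def cellS {ι : Type} (a : ι → ℂ) (M k : ℕ) : Set ι :=
  {i | ∃ y ∈ Set.Icc (yg M k) (yg M (k + 1)), ∃ m : ℤ, y = (a i).arg + 2 * π * m}

theorem yg_add (M : ℕ) (hM : 0 < M) (k n : ℕ) : yg M (k + M * n) = yg M k + 2 * π * n := by
  unfold yg
  have : (M : ℝ) ≠ 0 := by positivity
  push_cast
  field_simp

theorem yg_mono (M : ℕ) (k : ℕ) : yg M k ≤ yg M (k + 1) := by
  unfold yg
  apply div_le_div_of_nonneg_right _ (by positivity)
  push_cast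
  have := Real.pi_pos
  nlinarith

theorem yg_succ_sub (M : ℕ) (k : ℕ) : yg M (k + 1) - yg M k = 2 * π / M := by
  unfold yg
  push_cast
  ring

theorem cellS_add {ι : Type} (a : ι → ℂ) (M : ℕ) (hM : 0 < M) (k n : ℕ) :
    cellS a M (k + M * n) = cellS a M k := by
  ext i
  unfold cellS
  have e : k + M * n + 1 = (k + 1) + M * n := by ring
  rw [e, yg_add M hM, yg_add M hM]
  simp only [Set.mem_Icc]
  constructor
  · rintro ⟨y, ⟨h1, h2⟩, m, hm⟩
    refine ⟨y - 2 * π * n, ⟨by linarith, by linarith⟩, m - n, ?_⟩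
    push_cast
    rw [hm]; ring
  · rintro ⟨y, ⟨h1, h2⟩, m, hm⟩
    refine ⟨y + 2 * π * n, ⟨by linarith, by linarith⟩, m + n, ?_⟩
    push_cast
    rw [hm]; ring

theorem exists_level {ι : Type} [Fintype ι] (a : ι → ℂ) (T δ : ℝ) (S : Set ι) :
    ∃ t : ℝ, -T ≤ t ∧ (∀ i ∈ S, Real.log ‖a i‖ + δ ≤ t) ∧
      (t = -T ∨ ∃ i ∈ S, t = Real.log ‖a i‖ + δ) := by
  obtain ⟨t, ht, hmax⟩ := Set.exists_max_image
    (insert (-T) ((fun i => Real.log ‖a i‖ + δ) '' S)) id
    (((Set.toFinite S).image _).insert _) (Set.insert_nonempty _ _)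
  refine ⟨t, hmax _ (Set.mem_insert _ _), ?_, ?_⟩
  · intro i hi
    exact hmax _ (Set.mem_insert_of_mem _ ⟨i, hi, rfl⟩)
  · rcases ht with ht | ⟨i, hi, hti⟩
    · left; exact ht
    · right; exact ⟨i, hi, hti.symm⟩

theorem exists_levels {ι : Type} [Fintype ι] (a : ι → ℂ) (T δ : ℝ) (M : ℕ) (hM : 0 < M) :
    ∃ t : ℕ → ℝ, t M = t 0 ∧ ∀ k, -T ≤ t k ∧ (∀ i ∈ cellS a M k, Real.log ‖a i‖ + δ ≤ t k) ∧
      (t k = -T ∨ ∃ i ∈ cellS a M k, t k = Real.log ‖a i‖ + δ) := by
  choose t ht using fun k => exists_level a T δ (cellS a M k)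
  refine ⟨fun k => t (k % M), ?_, ?_⟩
  · simp
  · intro k
    have : cellS a M k = cellS a M (k % M) := by
      conv_lhs => rw [← Nat.mod_add_div k M]
      rw [cellS_add a M hM]
    rw [this]
    exact ht (k % M)

theorem mem_K {ι : Type} (a : ι → ℂ) (T δ : ℝ) (M : ℕ) (hMδ : 2 * π / M ≤ δ)
    (k : ℕ) (t x y : ℝ) (ht : t = -T ∨ ∃ i ∈ cellS a M k, t = Real.log ‖a i‖ + δ)
    (hx : -T ≤ x) (hxt : x ≤ t) (hy : y ∈ Set.Icc (yg M k) (yg M (k + 1))) :
    Complex.exp (x + y * Complex.I) ∈ Kset a T δ := by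
  rcases ht with ht | ⟨i, ⟨y', hy', m, hm⟩, hti⟩
  · refine ⟨x + y * Complex.I, rfl, ?_, Or.inl ?_⟩
    · simpa using hx
    · simp; linarith
  · refine ⟨(x : ℂ) + ((y - 2 * π * m : ℝ) : ℂ) * Complex.I, ?_, ?_, Or.inr ⟨i, ?_, ?_⟩⟩
    · rw [Complex.exp_eq_exp_iff_exists_int]
      refine ⟨-m, ?_⟩
      push_cast
      ring
    · simpa using hx
    · simp; linarith
    · have e : ((x : ℂ) + ((y - 2 * π * m : ℝ) : ℂ) * Complex.I).im = y - 2 * π * m := by simp
      rw [e]
      have h1 := yg_succ_sub M k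
      have h2 := hy.1
      have h3 := hy.2
      have h4 := hy'.1
      have h5 := hy'.2
      rw [abs_le]
      constructor <;> linarith

theorem gf_bound {ι : Type} [Fintype ι] (a : ι → ℂ) (T δ : ℝ) (p : ℂ[X]) (B : ℝ)
    (hB : ∀ z ∈ Kset a T δ, ‖p.eval z‖ ≤ B) (x y : ℝ) (hx : -T ≤ x)
    (hz : Complex.exp (x + y * Complex.I) ∈ Kset a T δ) :
    ‖gf a p (x + y * Complex.I)‖ ≤ (∏ i, (1 + ‖a i‖ * Real.exp T)) * B := by
  unfold gf
  rw [norm_mul]
  apply mul_le_mul
  · apply Fsq_bound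
    rw [Complex.norm_exp]
    simp
    linarith
  · exact hB _ hz
  · exact norm_nonneg _
  · apply Finset.prod_nonneg
    intro i _
    positivity

end Contour

open Contour in
theorem contour_bound {ι : Type} [Fintype ι] (a : ι → ℂ) (ha : ∀ i, a i ≠ 0) (T δ R : ℝ)
    (hδ : 0 < δ) (hR : ∀ i, ‖a i‖ < R) (hRT : Real.exp (-T) < R) :
    ∃ C : ℝ, 0 ≤ C ∧ ∀ p : ℂ[X], ∀ B : ℝ, (∀ z ∈ Kset a T δ, ‖p.eval z‖ ≤ B) →
      ‖Real.circleAverage (fun z => Fsq a z * p.eval z) 0 R‖ ≤ C * B := by
  have hRpos : 0 < R := lt_trans (Real.exp_pos _) hRT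
  obtain ⟨M, hM⟩ := exists_nat_gt (2 * π / δ)
  have hM0 : 0 < M := by
    have h1 : (0:ℝ) < M := lt_trans (by positivity) hM
    exact_mod_cast h1
  have hMR : (0:ℝ) < M := by exact_mod_cast hM0
  have hMδ : 2 * π / M ≤ δ := by
    rw [div_le_iff₀ hMR]
    rw [div_lt_iff₀ hδ] at hM
    linarith
  obtain ⟨t, htM, ht⟩ := exists_levels a T δ M hM0
  set CF : ℝ := ∏ i, (1 + ‖a i‖ * Real.exp T) with hCF
  have hCF0 : 0 ≤ CF := by
    apply Finset.prod_nonneg
    intro i _
    positivity
  set H : ℝ := Real.log R with hH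
  refine ⟨(2 * π)⁻¹ * (CF * ∑ k ∈ Finset.range M,
    ((yg M (k + 1) - yg M k) + |t (k + 1) - t k|)), ?_, ?_⟩
  · have : ∀ k, 0 ≤ yg M (k + 1) - yg M k := fun k => by linarith [yg_mono M k]
    apply mul_nonneg (by positivity)
    apply mul_nonneg hCF0
    apply Finset.sum_nonneg
    intro k _
    have := this k
    positivity
  intro p B hB
  have hlogH : ∀ i, Real.log ‖a i‖ < H := fun i =>
    Real.log_lt_log (norm_pos_iff.mpr (ha i)) (hR i)
  -- facts on cells
  have hcell : ∀ k, ∀ i, (∃ y ∈ Set.Icc (yg M k) (yg M (k + 1)),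
      ∃ m : ℤ, y = (a i).arg + 2 * π * m) → Real.log ‖a i‖ < t k ∧ Real.log ‖a i‖ < H := by
    intro k i hi
    have := (ht k).2.1 i hi
    exact ⟨by linarith, hlogH i⟩
  have hrect := fun k => rect a ha p (t k) H (yg M k) (yg M (k + 1)) (yg_mono M k) (hcell k)
  -- the circle average
  have havg : Real.circleAverage (fun z => Fsq a z * p.eval z) 0 R =
      (2 * π)⁻¹ • ∑ k ∈ Finset.range M,
        ∫ y in (yg M k)..(yg M (k + 1)), gf a p (H + y * Complex.I) := by
    rw [intervalIntegral.sum_integral_adjacent_intervals]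
    · unfold Real.circleAverage
      have e0 : yg M 0 = 0 := by simp [yg]
      have e1 : yg M M = 2 * π := by unfold yg; field_simp
      rw [e0, e1]
      congr 1
      apply intervalIntegral.integral_congr
      intro y _
      unfold gf
      have : circleMap 0 R y = Complex.exp (H + y * Complex.I) := by
        unfold circleMap
        rw [Complex.exp_add, hH, ← Complex.ofReal_exp, Real.exp_log hRpos]
        simp
      simp only [this]
    · intro k _
      apply ContinuousOn.intervalIntegrable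
      intro y hy
      apply ContinuousAt.continuousWithinAt
      have h1 : ContinuousAt (gf a p) ((H : ℂ) + y * Complex.I) := by
        apply (gf_diff a ha p _ _).continuousAt
        rintro i ⟨hi1, hi2⟩
        simp at hi1
        linarith [hlogH i]
      have h2 : ContinuousAt (fun y : ℝ => (H : ℂ) + y * Complex.I) y := by fun_prop
      exact ContinuousAt.comp (f := fun y : ℝ => (H : ℂ) + y * Complex.I) h1 h2
  set V : ℕ → ℂ := fun k => ∫ y in (yg M k)..(yg M (k + 1)), gf a p (H + y * Complex.I) with hV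
  set L : ℕ → ℂ := fun k => ∫ y in (yg M k)..(yg M (k + 1)), gf a p (t k + y * Complex.I) with hL
  set A : ℕ → ℂ := fun k => ∫ x in (t k)..H, gf a p (x + yg M k * Complex.I) with hA
  set D : ℕ → ℂ := fun k => ∫ x in (t k)..(t (k + 1)), gf a p (x + yg M (k + 1) * Complex.I)
    with hD
  have hB' : ∀ k, ∫ x in (t k)..H, gf a p (x + yg M (k + 1) * Complex.I) = A (k + 1) + D k := by
    intro k
    have i1 : IntervalIntegrable (fun x : ℝ => gf a p (x + yg M (k + 1) * Complex.I))
        MeasureTheory.volume (t k) H := by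
      apply horiz_integrable a ha
      intro i hi
      exact hcell k i ⟨_, ⟨yg_mono M k, le_refl _⟩, hi⟩
    have i2 : IntervalIntegrable (fun x : ℝ => gf a p (x + yg M (k + 1) * Complex.I))
        MeasureTheory.volume (t (k + 1)) H := by
      apply horiz_integrable a ha
      intro i hi
      exact hcell (k + 1) i ⟨_, ⟨le_refl _, yg_mono M (k + 1)⟩, hi⟩
    have := intervalIntegral.integral_interval_sub_interval_comm i1 i2
    have h3 := intervalIntegral.integral_add_adjacent_intervals (i1.trans i2.symm) i2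
    rw [← h3, add_comm]
  have hstep : ∀ k, Complex.I * V k = Complex.I * L k + (A (k + 1) - A k) + D k := by
    intro k
    have := hrect k
    rw [hB' k] at this
    simp only [hV, hL, hA] at this ⊢
    rw [this]
    ring
  have hAper : A M = A 0 := by
    simp only [hA]
    rw [htM]
    congr 1
    ext x
    have e0 : yg M 0 = 0 := by simp [yg]
    have e1 : yg M M = 2 * π := by unfold yg; field_simp
    rw [e0, e1]
    have := gf_periodic a p x
    simpa using this
  have hsum : Complex.I * ∑ k ∈ Finset.range M, V k =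
      Complex.I * (∑ k ∈ Finset.range M, L k) + ∑ k ∈ Finset.range M, D k := by
    rw [Finset.mul_sum, Finset.mul_sum]
    have : ∑ k ∈ Finset.range M, (A (k + 1) - A k) = 0 := by
      rw [Finset.sum_range_sub, hAper, sub_self]
    calc ∑ k ∈ Finset.range M, Complex.I * V k
        = ∑ k ∈ Finset.range M, (Complex.I * L k + (A (k + 1) - A k) + D k) :=
          Finset.sum_congr rfl fun k _ => hstep k
      _ = _ := by
          rw [Finset.sum_add_distrib, Finset.sum_add_distrib, this, add_zero]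
  have hLb : ∀ k, ‖L k‖ ≤ CF * B * (yg M (k + 1) - yg M k) := by
    intro k
    have := intervalIntegral.norm_integral_le_of_norm_le_const (a := yg M k) (b := yg M (k + 1))
      (C := CF * B) (f := fun y : ℝ => gf a p (t k + y * Complex.I)) ?_
    · rw [abs_of_nonneg (by linarith [yg_mono M k])] at this
      exact this
    · intro y hy
      rw [Set.uIoc_of_le (yg_mono M k)] at hy
      apply gf_bound a T δ p B hB _ _ (ht k).1
      exact mem_K a T δ M hMδ k (t k) (t k) y (ht k).2.2 (ht k).1 le_rfl ⟨hy.1.le, hy.2⟩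
  have hDb : ∀ k, ‖D k‖ ≤ CF * B * |t (k + 1) - t k| := by
    intro k
    apply intervalIntegral.norm_integral_le_of_norm_le_const
    intro x hx
    have hx1 : min (t k) (t (k + 1)) ≤ x := le_of_lt hx.1
    have hx2 : x ≤ max (t k) (t (k + 1)) := hx.2
    have hTx : -T ≤ x := le_trans (le_min (ht k).1 (ht (k + 1)).1) hx1
    apply gf_bound a T δ p B hB _ _ hTx
    rcases le_max_iff.mp hx2 with h | h
    · exact mem_K a T δ M hMδ k (t k) x _ (ht k).2.2 hTx h ⟨yg_mono M k, le_rfl⟩
    · exact mem_K a T δ M hMδ (k + 1) (t (k + 1)) x _ (ht (k + 1)).2.2 hTx h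
        ⟨le_rfl, yg_mono M (k + 1)⟩
  have hnorm : ‖∑ k ∈ Finset.range M, V k‖ ≤
      ∑ k ∈ Finset.range M, (CF * B * (yg M (k + 1) - yg M k) + CF * B * |t (k + 1) - t k|) := by
    have e : ‖∑ k ∈ Finset.range M, V k‖ = ‖Complex.I * ∑ k ∈ Finset.range M, V k‖ := by
      rw [norm_mul, Complex.norm_I, one_mul]
    rw [e, hsum]
    refine (norm_add_le _ _).trans ?_
    rw [norm_mul, Complex.norm_I, one_mul, Finset.sum_add_distrib]
    exact add_le_add (norm_sum_le_of_le _ fun k _ => hLb k) (norm_sum_le_of_le _ fun k _ => hDb k)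
  rw [havg, norm_smul, Real.norm_eq_abs, abs_of_pos (by positivity)]
  calc (2 * π)⁻¹ * ‖∑ k ∈ Finset.range M, V k‖
      ≤ (2 * π)⁻¹ * ∑ k ∈ Finset.range M,
        (CF * B * (yg M (k + 1) - yg M k) + CF * B * |t (k + 1) - t k|) := by gcongr
    _ = _ := by
        rw [Finset.mul_sum, Finset.mul_sum, Finset.mul_sum, Finset.sum_mul]
        apply Finset.sum_congr rfl
        intro k _
        ring

end H904L2
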