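import Pool.Agent.H904L2.Defs

set_option autoImplicit false

open Polynomial
open scoped Real

namespace H904L2

namespace DetBound

open Matrix Filter

/-- Fekete points -/
theorem exists_fekete (K : Set ℂ) (hK : IsCompact K) (hKi : K.Infinite) (N : ℕ) :
    ∃ ζ : Fin N → ℂ, (∀ i, ζ i ∈ K) ∧ (vandermonde ζ).det ≠ 0 ∧
      ∀ z : Fin N → ℂ, (∀ i, z i ∈ K) → ‖(vandermonde z).det‖ ≤ ‖(vandermonde ζ).det‖ := by
  have hc : IsCompact (Set.pi Set.univ fun _ : Fin N => K) := isCompact_univ_pi fun _ => hK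
  set e := hKi.natEmbedding with he
  set z0 : Fin N → ℂ := fun i => (e (i : ℕ) : ℂ) with hz0
  have hz0K : ∀ i, z0 i ∈ K := fun i => (e (i : ℕ)).2
  have hz0inj : Function.Injective z0 := by
    intro i j hij
    have := e.injective (Subtype.ext hij)
    exact Fin.ext this
  have hne : (Set.pi Set.univ fun _ : Fin N => K).Nonempty := ⟨z0, fun i _ => hz0K i⟩
  have hcont : Continuous fun z : Fin N → ℂ => ‖(vandermonde z).det‖ := by
    refine Continuous.norm (Continuous.matrix_det ?_)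
    refine continuous_matrix fun i j => ?_
    simp only [vandermonde_apply]
    exact (continuous_apply i).pow _
  obtain ⟨ζ, h1, h2⟩ := hc.exists_isMaxOn hne hcont.continuousOn
  have h3 : ∀ z : Fin N → ℂ, (∀ i, z i ∈ K) → ‖(vandermonde z).det‖ ≤ ‖(vandermonde ζ).det‖ :=
    fun z hz => h2 (fun i _ => hz i)
  refine ⟨ζ, fun i => h1 i (Set.mem_univ _), ?_, h3⟩
  intro h0
  have h4 := h3 z0 hz0K
  rw [h0, norm_zero] at h4
  have h5 : (vandermonde z0).det ≠ 0 := det_vandermonde_ne_zero_iff.2 hz0inj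
  exact h5 (norm_le_zero_iff.1 h4)

theorem updateRow_vandermonde {N : ℕ} (ζ : Fin N → ℂ) (k : Fin N) (z : ℂ) :
    (vandermonde ζ).updateRow k (fun i => z ^ (i : ℕ)) =
      vandermonde (Function.update ζ k z) := by
  ext i j
  rw [vandermonde_apply]
  by_cases h : i = k
  · subst h
    rw [updateRow_self, Function.update_self]
  · rw [updateRow_ne h, Function.update_of_ne h, vandermonde_apply]

theorem det_updateRow_eq {N : ℕ} (A : Matrix (Fin N) (Fin N) ℂ) (k : Fin N) (w : Fin N → ℂ) :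
    (A.updateRow k w).det = ∑ i, A.adjugate i k * w i := by
  rw [← cramer_transpose_apply, cramer_eq_adjugate_mulVec]
  change ∑ i, Aᵀ.adjugate k i * w i = _
  rw [← adjugate_transpose]
  rfl

/-- dual basis polynomials -/
noncomputable def lk {N : ℕ} (ζ : Fin N → ℂ) (k : Fin N) : ℂ[X] :=
  ∑ i : Fin N, C (((vandermonde ζ).det)⁻¹ * (vandermonde ζ).adjugate i k) * X ^ (i : ℕ)

theorem lk_eval {N : ℕ} (ζ : Fin N → ℂ) (k : Fin N) (z : ℂ) :
    (lk ζ k).eval z =
      ((vandermonde ζ).det)⁻¹ * (vandermonde (Function.update ζ k z)).det := by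
  rw [← updateRow_vandermonde, det_updateRow_eq, lk, eval_finsetSum, Finset.mul_sum]
  refine Finset.sum_congr rfl fun i _ => ?_
  rw [eval_mul, eval_C, eval_pow, eval_X]
  ring

theorem lk_sum {N : ℕ} (ζ : Fin N → ℂ) (h : (vandermonde ζ).det ≠ 0) (i : Fin N) :
    (X : ℂ[X]) ^ (i : ℕ) = ∑ k, C (vandermonde ζ k i) * lk ζ k := by
  unfold lk
  simp only [Finset.mul_sum]
  rw [Finset.sum_comm]
  have h1 : ∀ j : Fin N, ∑ k, C (vandermonde ζ k i) *
      (C (((vandermonde ζ).det)⁻¹ * (vandermonde ζ).adjugate j k) * (X : ℂ[X]) ^ (j : ℕ)) =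
      C (if j = i then 1 else 0) * X ^ (j : ℕ) := by
    intro j
    have h2 : ∑ k, (vandermonde ζ).adjugate j k * vandermonde ζ k i =
        (vandermonde ζ).det * (if j = i then 1 else 0) := by
      have h3 := congrFun (congrFun (adjugate_mul (vandermonde ζ)) j) i
      rw [mul_apply] at h3
      rw [h3, Matrix.smul_apply, one_apply, smul_eq_mul]
    have h4 : ∑ k, vandermonde ζ k i *
        (((vandermonde ζ).det)⁻¹ * (vandermonde ζ).adjugate j k) = if j = i then 1 else 0 := by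
      calc _ = ((vandermonde ζ).det)⁻¹ *
            ∑ k, (vandermonde ζ).adjugate j k * vandermonde ζ k i := by
            rw [Finset.mul_sum]
            exact Finset.sum_congr rfl fun k _ => by ring
        _ = _ := by rw [h2, ← mul_assoc, inv_mul_cancel₀ h, one_mul]
    rw [← h4, map_sum, Finset.sum_mul]
    refine Finset.sum_congr rfl fun k _ => ?_
    rw [C_mul (a := vandermonde ζ k i)]
    ring
  rw [Finset.sum_congr rfl fun j _ => h1 j, Finset.sum_eq_single i]
  · simp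
  · intro j _ hj
    simp [hj]
  · simp

theorem hankel_eq {N : ℕ} (L : ℂ[X] →ₗ[ℂ] ℂ) (ζ : Fin N → ℂ) (h : (vandermonde ζ).det ≠ 0) :
    (Matrix.of fun i j : Fin N => L (X ^ ((i : ℕ) + (j : ℕ)))) =
      (vandermonde ζ)ᵀ * (Matrix.of fun k l : Fin N => L (lk ζ k * lk ζ l)) *
        vandermonde ζ := by
  ext i j
  rw [mul_apply, of_apply, pow_add]
  simp only [mul_apply, transpose_apply, of_apply]
  rw [lk_sum ζ h i, lk_sum ζ h j, Finset.sum_mul_sum, map_sum]
  simp only [Finset.sum_mul, map_sum]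
  rw [Finset.sum_comm]
  refine Finset.sum_congr rfl fun l _ => Finset.sum_congr rfl fun k _ => ?_
  have e : C (vandermonde ζ k i) * lk ζ k * (C (vandermonde ζ l j) * lk ζ l) =
      (vandermonde ζ k i * vandermonde ζ l j) • (lk ζ k * lk ζ l) := by
    rw [smul_eq_C_mul, C_mul]
    ring
  rw [e, map_smul, smul_eq_mul]
  ring

theorem sum_sym {N : ℕ} (f : Fin N → Fin N → ℝ) (hf : ∀ i j, f i j = f j i) :
    ∑ i, ∑ j ∈ Finset.univ.erase i, f i j = 2 * ∑ i, ∑ j ∈ Finset.Ioi i, f i j := by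
  have h1 : ∀ i : Fin N, ∑ j ∈ Finset.univ.erase i, f i j =
      ∑ j ∈ Finset.Ioi i, f i j + ∑ j ∈ Finset.Iio i, f i j := by
    intro i
    rw [← Finset.sum_union]
    · refine Finset.sum_congr ?_ fun _ _ => rfl
      ext j
      simp only [Finset.mem_erase, Finset.mem_univ, and_true, Finset.mem_union, Finset.mem_Ioi,
        Finset.mem_Iio]
      constructor
      · intro h
        exact (lt_or_gt_of_ne h).symm
      · rintro (h | h)
        · exact h.ne'
        · exact h.ne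
    · rw [Finset.disjoint_left]
      intro j hj hj'
      rw [Finset.mem_Ioi] at hj
      rw [Finset.mem_Iio] at hj'
      exact lt_asymm hj hj'
  have h2 : ∑ i : Fin N, ∑ j ∈ Finset.Iio i, f i j = ∑ i : Fin N, ∑ j ∈ Finset.Ioi i, f i j := by
    rw [Finset.sum_comm' (s' := fun j => Finset.Ioi j) (t' := Finset.univ)]
    · refine Finset.sum_congr rfl fun j _ => Finset.sum_congr rfl fun i _ => hf i j
    · intro i j
      simp
  rw [Finset.sum_congr rfl fun i _ => h1 i, Finset.sum_add_distrib, h2]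
  ring

theorem det_sq {N : ℕ} (ζ : Fin N → ℂ) (hinj : Function.Injective ζ) :
    ‖(vandermonde ζ).det‖ ^ 2 =
      Real.exp (∑ i, ∑ j ∈ Finset.univ.erase i, Real.log ‖ζ i - ζ j‖) := by
  rw [sum_sym _ (fun i j => by rw [norm_sub_rev]), det_vandermonde, norm_prod]
  rw [mul_comm, Real.exp_mul, Real.exp_sum, Real.rpow_two]
  congr 1
  refine Finset.prod_congr rfl fun i _ => ?_
  rw [norm_prod, Real.exp_sum]
  refine Finset.prod_congr rfl fun j hj => ?_
  rw [Finset.mem_Ioi] at hj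
  rw [Real.exp_log, norm_sub_rev]
  rw [norm_pos_iff, sub_ne_zero]
  exact fun h => hj.ne (hinj h)

theorem numeric (C b δ : ℝ) (hC : 0 ≤ C) (hδ : 0 < δ) :
    ∃ N0 : ℕ, ∀ N : ℕ, N0 ≤ N →
      Real.exp (N * b - (N : ℝ) ^ 2 * δ) * ((N.factorial : ℝ) * C ^ N) < 1 := by
  have h1 : ∀ᶠ x : ℝ in atTop, Real.log x ≤ δ / 2 * x := by
    have := Real.isLittleO_log_id_atTop.bound (show (0 : ℝ) < δ / 2 by linarith)
    filter_upwards [this, eventually_ge_atTop 1] with x hx hx1
    simp only [id, Real.norm_eq_abs] at hx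
    rw [abs_of_nonneg (Real.log_nonneg hx1), abs_of_nonneg (by linarith)] at hx
    exact hx
  have h2 : ∀ᶠ x : ℝ in atTop, b + Real.log (C + 1) < δ / 2 * x :=
    (tendsto_id.const_mul_atTop (by linarith : (0 : ℝ) < δ / 2)).eventually_gt_atTop _
  have h3 := (tendsto_natCast_atTop_atTop (R := ℝ)).eventually
    ((h1.and h2).and (eventually_ge_atTop 1))
  obtain ⟨N0, hN0⟩ := eventually_atTop.1 h3
  refine ⟨N0, fun N hN => ?_⟩
  obtain ⟨⟨h4, h5⟩, h6⟩ := hN0 N hN
  have hN0' : (0 : ℝ) < N := by linarith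
  have h7 : (N.factorial : ℝ) ≤ Real.exp (N * Real.log N) := by
    have : (N.factorial : ℝ) ≤ (N : ℝ) ^ N := by exact_mod_cast Nat.factorial_le_pow N
    refine this.trans (le_of_eq ?_)
    rw [mul_comm, Real.exp_mul, Real.exp_log hN0', Real.rpow_natCast]
  have h8 : C ^ N ≤ Real.exp (N * Real.log (C + 1)) := by
    rw [mul_comm, Real.exp_mul, Real.exp_log (by linarith), Real.rpow_natCast]
    exact pow_le_pow_left₀ hC (by linarith) N
  calc Real.exp (N * b - (N : ℝ) ^ 2 * δ) * ((N.factorial : ℝ) * C ^ N)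
      ≤ Real.exp (N * b - (N : ℝ) ^ 2 * δ) *
        (Real.exp (N * Real.log N) * Real.exp (N * Real.log (C + 1))) := by
        gcongr
    _ = Real.exp (N * (b + Real.log (C + 1) + Real.log N - N * δ)) := by
        rw [← Real.exp_add, ← Real.exp_add]
        congr 1
        ring
    _ < 1 := by
        rw [Real.exp_lt_one_iff]
        apply mul_neg_of_pos_of_neg hN0'
        linarith

end DetBound

open DetBound in
theorem det_lt_one (L : ℂ[X] →ₗ[ℂ] ℂ) (K : Set ℂ) (hK : IsCompact K) (hKi : K.Infinite) (C : ℝ)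
    (hC : 0 ≤ C)
    (hL : ∀ p : ℂ[X], ∀ B : ℝ, (∀ z ∈ K, ‖p.eval z‖ ≤ B) → ‖L p‖ ≤ C * B)
    (b δ : ℝ) (hδ : 0 < δ)
    (hE : ∀ N : ℕ, 0 < N → ∀ z : Fin N → ℂ, Function.Injective z → (∀ i, z i ∈ K) →
      ∑ i, ∑ j ∈ Finset.univ.erase i, Real.log ‖z i - z j‖ ≤ N * b - (N : ℝ) ^ 2 * δ) :
    ∃ N0 : ℕ, ∀ N, N0 ≤ N →
      ‖(Matrix.of fun i j : Fin N => L (X ^ ((i : ℕ) + (j : ℕ)))).det‖ < 1 := by
  obtain ⟨N0, hN0⟩ := numeric C b δ hC hδ
  refine ⟨max N0 1, fun N hN => ?_⟩
  have hN1 : N0 ≤ N := (le_max_left _ _).trans hN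
  have hN2 : 0 < N := (le_max_right N0 1).trans hN
  obtain ⟨ζ, hζK, hdet, hmax⟩ := exists_fekete K hK hKi N
  have hinj : Function.Injective ζ := Matrix.det_vandermonde_ne_zero_iff.1 hdet
  have hlk : ∀ k, ∀ z ∈ K, ‖(lk ζ k).eval z‖ ≤ 1 := by
    intro k z hz
    rw [lk_eval, norm_mul, norm_inv]
    have h1 := hmax (Function.update ζ k z) (fun i => by
      by_cases h : i = k
      · subst h
        rw [Function.update_self]
        exact hz
      · rw [Function.update_of_ne h]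
        exact hζK i)
    have h2 : 0 < ‖(Matrix.vandermonde ζ).det‖ := norm_pos_iff.2 hdet
    rw [inv_mul_le_iff₀ h2, mul_one]
    exact h1
  rw [hankel_eq L ζ hdet, Matrix.det_mul, Matrix.det_mul, Matrix.det_transpose, norm_mul,
    norm_mul]
  have hA : ‖(Matrix.of fun k l : Fin N => L (lk ζ k * lk ζ l)).det‖ ≤
      (N.factorial : ℝ) * C ^ N := by
    have h1 := Matrix.det_le (A := Matrix.of fun k l : Fin N => L (lk ζ k * lk ζ l))
      (abv := NormedField.toAbsoluteValue ℂ) (x := C) (fun k l => by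
        have h2 := hL (lk ζ k * lk ζ l) 1 (fun z hz => by
          rw [eval_mul, norm_mul]
          exact mul_le_one₀ (hlk k z hz) (norm_nonneg _) (hlk l z hz))
        rw [mul_one] at h2
        exact h2)
    rw [Fintype.card_fin, nsmul_eq_mul] at h1
    exact h1
  have hE' := hE N hN2 ζ hinj hζK
  calc _ = ‖(Matrix.vandermonde ζ).det‖ ^ 2 *
        ‖(Matrix.of fun k l : Fin N => L (lk ζ k * lk ζ l)).det‖ := by ring
    _ ≤ Real.exp (N * b - (N : ℝ) ^ 2 * δ) * ((N.factorial : ℝ) * C ^ N) := by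
        rw [det_sq ζ hinj]
        exact mul_le_mul (Real.exp_le_exp.2 hE') hA (norm_nonneg _) (Real.exp_pos _).le
    _ < 1 := hN0 N hN1

end H904L2
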