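import Pool.Agent.H904L2.Defs

/-! Circle averages of truncated logarithms. -/

open Polynomial
open scoped Real

namespace H904L2

namespace WlAvg

theorem arg_pos (b : ℂ) (ρ R : ℝ) (hρ : 0 < ρ) (hR : ρ < R) (z : ℂ) :
    0 < min (max ‖z - b‖ ρ) R :=
  lt_min (lt_of_lt_of_le hρ (le_max_right _ _)) (hρ.trans hR)

theorem cont (b : ℂ) (ρ R : ℝ) (hρ : 0 < ρ) (hR : ρ < R) : Continuous (wl b ρ R) := by
  unfold wl
  apply Continuous.log
  · fun_prop
  · intro z
    exact (arg_pos b ρ R hρ hR z).ne'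

theorem integ (b : ℂ) (ρ R : ℝ) (hρ : 0 < ρ) (hR : ρ < R) (c : ℂ) (r : ℝ) :
    CircleIntegrable (wl b ρ R) c r := by
  have := (cont b ρ R hρ hR).continuousOn (s := Metric.sphere c |r|)
  exact this.circleIntegrable'

theorem ge_of (f : ℂ → ℝ) (c : ℂ) (r : ℝ) (m : ℝ) (hf : CircleIntegrable f c r)
    (h : ∀ z ∈ Metric.sphere c |r|, m ≤ f z) : m ≤ Real.circleAverage f c r := by
  rw [← Real.circleAverage_const m c r]
  exact Real.circleAverage_mono (circleIntegrable_const m c r) hf h

end WlAvg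

open WlAvg

theorem wl_average_big (a b : ℂ) (ρ R : ℝ) (hρ : 0 < ρ) (hR : ‖a - b‖ + ρ < R) :
    Real.circleAverage (wl b ρ R) a R ≤ Real.log R ∧
      Real.log (R - ‖a - b‖) ≤ Real.circleAverage (wl b ρ R) a R := by
  have hn : 0 ≤ ‖a - b‖ := norm_nonneg _
  have hρR : ρ < R := by linarith
  have hi := integ b ρ R hρ hρR a R
  constructor
  · apply Real.circleAverage_mono_on_of_le_circle hi
    intro z _
    apply Real.log_le_log (arg_pos b ρ R hρ hρR z) (min_le_right _ _)
  · apply ge_of _ _ _ _ hi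
    intro z hz
    rw [mem_sphere_iff_norm, abs_of_pos (hρ.trans hρR)] at hz
    apply Real.log_le_log (by linarith)
    have h1 : ‖z - a‖ ≤ ‖z - b‖ + ‖a - b‖ := by
      have : z - a = (z - b) - (a - b) := by ring
      rw [this]
      exact norm_sub_le _ _
    apply le_min
    · exact le_trans (by linarith) (le_max_left _ _)
    · linarith

theorem wl_average_small (a b : ℂ) (hab : a ≠ b) (ρ R : ℝ) (hρ : 0 < ρ)
    (hR : ‖a - b‖ + ρ < R) :
    Real.log ‖a - b‖ ≤ Real.circleAverage (wl b ρ R) a ρ := by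
  have hn : 0 < ‖a - b‖ := norm_pos_iff.2 (sub_ne_zero.2 hab)
  have hρR : ρ < R := by linarith
  have hi := integ b ρ R hρ hρR a ρ
  rcases le_or_gt ‖a - b‖ ρ with h | h
  · apply ge_of _ _ _ _ hi
    intro z _
    apply Real.log_le_log hn
    apply le_min
    · exact h.trans (le_max_right _ _)
    · linarith
  · have h1 : Real.circleAverage (fun z => Real.log ‖z - b‖) a ρ = Real.log ‖a - b‖ := by
      rw [circleAverage_log_norm_sub_const_eq_log_radius_add_posLog hρ.ne',
        Real.posLog_eq_log, ← Real.log_mul hρ.ne' (by positivity)]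
      · congr 1
        field_simp
      · rw [abs_of_nonneg (by positivity)]
        rw [inv_mul_eq_div, le_div_iff₀ hρ]
        linarith
    rw [← h1]
    apply Real.circleAverage_mono (circleIntegrable_log_norm_sub_const ρ) hi
    intro z hz
    rw [mem_sphere_iff_norm, abs_of_pos hρ] at hz
    have h2 : ‖a - b‖ ≤ ‖z - b‖ + ‖z - a‖ := by
      have : a - b = (z - b) - (z - a) := by ring
      rw [this]
      exact norm_sub_le _ _
    have h3 : ‖z - b‖ ≤ ‖z - a‖ + ‖a - b‖ := by
      have : z - b = (z - a) + (a - b) := by ring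
      rw [this]
      exact norm_add_le _ _
    apply Real.log_le_log (by linarith)
    apply le_min
    · exact le_max_left _ _
    · linarith

theorem wl_average_self (a : ℂ) (ρ R : ℝ) (hρ : 0 < ρ) (hR : ρ < R) :
    Real.circleAverage (wl a ρ R) a ρ = Real.log ρ := by
  apply Real.circleAverage_const_on_circle
  intro z hz
  rw [mem_sphere_iff_norm, abs_of_pos hρ] at hz
  unfold wl
  rw [hz, max_self, min_eq_left hR.le]

theorem wl_average_posLog (a : ℂ) (ρ R : ℝ) (hρ : 0 < ρ) (hR : ‖a‖ + ρ < R) (hR1 : 1 < R) :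
    Real.circleAverage (wl 0 1 R) a ρ = Real.circleAverage (fun z => Real.posLog ‖z‖) a ρ := by
  apply Real.circleAverage_congr_sphere
  intro z hz
  rw [mem_sphere_iff_norm, abs_of_pos hρ] at hz
  have h3 : ‖z‖ ≤ ‖z - a‖ + ‖a‖ := by
    have : z = (z - a) + a := by ring
    conv_lhs => rw [this]
    exact norm_add_le _ _
  show wl 0 1 R z = Real.posLog ‖z‖
  unfold wl
  rw [sub_zero]
  rw [min_eq_left (max_le (by linarith) hR1.le)]
  rcases le_or_gt ‖z‖ 1 with h | h
  · rw [max_eq_right h, Real.log_one, eq_comm, Real.posLog_eq_zero_iff]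
    rwa [abs_of_nonneg (norm_nonneg z)]
  · rw [max_eq_left h.le, Real.posLog_eq_log]
    rw [abs_of_nonneg (norm_nonneg z)]
    exact h.le

end H904L2
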