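import Pool.Agent.H904L2.Pair
import Pool.Agent.H904L2.WlAvg

open Polynomial MeasureTheory
open scoped Real

namespace H904L2

namespace Energy

lemma measurable_vf (a : ℂ) (ρ R : ℝ) : Measurable (vf a ρ R) := by
  unfold vf
  refine Measurable.ite ?_ ?_ measurable_const
  · have h1 : Measurable fun z : ℂ => ‖z - a‖ := by fun_prop
    exact (measurableSet_lt measurable_const h1).inter (measurableSet_lt h1 measurable_const)
  · refine Measurable.div (by fun_prop) ?_
    exact Complex.measurable_ofReal.comp (by fun_prop)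

lemma norm_vf_le (a : ℂ) {ρ R : ℝ} (hρ : 0 < ρ) (z : ℂ) : ‖vf a ρ R z‖ ≤ ρ⁻¹ := by
  unfold vf
  split_ifs with h
  · have h0 : 0 < ‖z - a‖ := hρ.trans h.1
    rw [norm_div, Complex.norm_real, Real.norm_of_nonneg (by positivity), pow_two,
      div_mul_cancel_left₀ h0.ne']
    exact inv_anti₀ hρ h.1.le
  · simpa using hρ.le

lemma vf_eq_zero (a : ℂ) {ρ R : ℝ} {z : ℂ} (h : R ≤ ‖z - a‖) : vf a ρ R z = 0 := by
  unfold vf
  rw [if_neg]
  rintro ⟨_, h2⟩
  exact absurd h2 (not_lt.mpr h)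

/-- bounded measurable with bounded support implies integrable -/
lemma integrable_of_bdd {f : ℂ → ℝ} (hf : Measurable f) {M : ℝ} (hM : ∀ z, ‖f z‖ ≤ M) {B : ℝ}
    (hB : ∀ z, B < ‖z‖ → f z = 0) : Integrable f := by
  have h1 : IntegrableOn f (Metric.closedBall 0 B) := by
    refine Measure.integrableOn_of_bounded (M := M) ?_ hf.aestronglyMeasurable ?_
    · exact measure_closedBall_lt_top.ne
    · exact Filter.Eventually.of_forall hM
  refine (integrableOn_iff_integrable_of_support_subset ?_).mp h1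
  intro z hz
  rw [Metric.mem_closedBall, dist_zero_right]
  by_contra hcon
  exact hz (hB z (not_le.mp hcon))

lemma integrable_pair (a b : ℂ) {ρ ρ' R : ℝ} (hρ : 0 < ρ) (hρ' : 0 < ρ') :
    Integrable fun z => (vf b ρ' R z * (starRingEnd ℂ) (vf a ρ R z)).re := by
  refine integrable_of_bdd (M := ρ'⁻¹ * ρ⁻¹) (B := ‖a‖ + |R|) ?_ ?_ ?_
  · have h1 := measurable_vf a ρ R
    have h2 := measurable_vf b ρ' R
    exact Complex.measurable_re.comp (h2.mul (Complex.continuous_conj.measurable.comp h1))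
  · intro z
    refine (Complex.abs_re_le_norm _).trans ?_
    rw [norm_mul, RCLike.norm_conj]
    exact mul_le_mul (norm_vf_le b hρ' z) (norm_vf_le a hρ z) (norm_nonneg _) (by positivity)
  · intro z hz
    have : R ≤ ‖z - a‖ := by
      have h1 := norm_sub_norm_le z a
      have h2 := le_abs_self R
      linarith
    rw [vf_eq_zero a this]
    simp

lemma integrable_phi (φ : ℂ → ℝ) (hφ : ContDiff ℝ 1 φ) (hc : HasCompactSupport φ) (a : ℂ)
    {ρ R : ℝ} (hρ : 0 < ρ) : Integrable fun z => fderiv ℝ φ z (vf a ρ R z) := by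
  have hcont : Continuous (fderiv ℝ φ) := hφ.continuous_fderiv (by norm_num)
  have hcs : HasCompactSupport (fderiv ℝ φ) := hc.fderiv (𝕜 := ℝ)
  obtain ⟨M, hM⟩ := hcs.exists_bound_of_continuous hcont
  have hM0 : 0 ≤ M := (norm_nonneg _).trans (hM 0)
  refine integrable_of_bdd (M := M * ρ⁻¹) (B := ‖a‖ + |R|) ?_ ?_ ?_
  · have h1 := measurable_vf a ρ R
    have h3 : Measurable fun z => (fderiv ℝ φ z, vf a ρ R z) := hcont.measurable.prodMk h1
    exact (isBoundedBilinearMap_apply (𝕜 := ℝ) (E := ℂ) (F := ℝ)).continuous.measurable.comp h3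
  · intro z
    refine (ContinuousLinearMap.le_opNorm _ _).trans ?_
    exact mul_le_mul (hM z) (norm_vf_le a hρ z) (norm_nonneg _) hM0
  · intro z hz
    have : R ≤ ‖z - a‖ := by
      have h1 := norm_sub_norm_le z a
      have h2 := le_abs_self R
      linarith
    rw [vf_eq_zero a this]
    simp

lemma integrable_dirE (φ : ℂ → ℝ) (hφ : ContDiff ℝ 1 φ) (hc : HasCompactSupport φ) :
    Integrable (dirE φ) := by
  have hcont : Continuous (fderiv ℝ φ) := hφ.continuous_fderiv (by norm_num)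
  have hcs : HasCompactSupport (fderiv ℝ φ) := hc.fderiv (𝕜 := ℝ)
  have h1 : Continuous (dirE φ) := by
    unfold dirE
    fun_prop
  refine h1.integrable_of_hasCompactSupport ?_
  refine hcs.mono ?_
  intro z hz hcon
  apply hz
  simp only [dirE]
  simp [hcon]

lemma pointwise (φ : ℂ → ℝ) (z v : ℂ) :
    0 ≤ dirE φ z + 2 * fderiv ℝ φ z v + (v * (starRingEnd ℂ) v).re := by
  have h1 : fderiv ℝ φ z v = v.re * fderiv ℝ φ z 1 + v.im * fderiv ℝ φ z Complex.I := by
    have : v = (v.re : ℝ) • (1 : ℂ) + (v.im : ℝ) • Complex.I := by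
      apply Complex.ext <;> simp
    conv_lhs => rw [this]
    rw [map_add, map_smul, map_smul]
    simp
  have h2 : (v * (starRingEnd ℂ) v).re = v.re ^ 2 + v.im ^ 2 := by
    simp [Complex.mul_re]
    ring
  rw [h1, h2, dirE]
  nlinarith [sq_nonneg (fderiv ℝ φ z 1 + v.re), sq_nonneg (fderiv ℝ φ z Complex.I + v.im)]

/-- abstract form: finite family -/
lemma abstract (φ : ℂ → ℝ) (hφ : ContDiff ℝ 1 φ) (hc : HasCompactSupport φ) {K : Type}
    [Fintype K] (c : K → ℝ) (a : K → ℂ) (r : K → ℝ) (hr : ∀ k, 0 < r k) (R : ℝ) :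
    0 ≤ (∫ w, dirE φ w) + 2 * (∑ k, c k * (∫ w, fderiv ℝ φ w (vf (a k) (r k) R w))) +
      ∑ k, ∑ l, c k * c l *
        (∫ w, (vf (a l) (r l) R w * (starRingEnd ℂ) (vf (a k) (r k) R w)).re) := by
  have hI1 := integrable_dirE φ hφ hc
  have hI2 : ∀ k, Integrable fun w => fderiv ℝ φ w (vf (a k) (r k) R w) := fun k =>
    integrable_phi φ hφ hc (a k) (hr k)
  have hI3 : ∀ k l, Integrable fun w =>
      (vf (a l) (r l) R w * (starRingEnd ℂ) (vf (a k) (r k) R w)).re := fun k l =>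
    integrable_pair (a k) (a l) (hr k) (hr l)
  have hpt : ∀ w, 0 ≤ dirE φ w + 2 * ∑ k, c k * fderiv ℝ φ w (vf (a k) (r k) R w) +
      ∑ k, ∑ l, c k * c l * (vf (a l) (r l) R w * (starRingEnd ℂ) (vf (a k) (r k) R w)).re := by
    intro w
    have h := pointwise φ w (∑ k, (c k) • vf (a k) (r k) R w)
    have e1 : fderiv ℝ φ w (∑ k, (c k) • vf (a k) (r k) R w) =
        ∑ k, c k * fderiv ℝ φ w (vf (a k) (r k) R w) := by
      rw [map_sum]
      exact Finset.sum_congr rfl fun k _ => by rw [map_smul, smul_eq_mul]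
    have e2 : ((∑ k, (c k) • vf (a k) (r k) R w) *
        (starRingEnd ℂ) (∑ k, (c k) • vf (a k) (r k) R w)).re =
        ∑ k, ∑ l, c k * c l *
          (vf (a l) (r l) R w * (starRingEnd ℂ) (vf (a k) (r k) R w)).re := by
      rw [map_sum, Finset.sum_mul_sum, Complex.re_sum, Finset.sum_congr rfl
        fun k _ => Complex.re_sum _ _, Finset.sum_comm]
      refine Finset.sum_congr rfl fun k _ => Finset.sum_congr rfl fun l _ => ?_
      simp only [Complex.real_smul, map_mul, Complex.conj_ofReal]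
      rw [show (c l : ℂ) * vf (a l) (r l) R w *
        ((c k : ℂ) * (starRingEnd ℂ) (vf (a k) (r k) R w)) =
        ((c k * c l : ℝ) : ℂ) * (vf (a l) (r l) R w * (starRingEnd ℂ) (vf (a k) (r k) R w)) by
        push_cast; ring]
      rw [Complex.re_ofReal_mul]
    rw [e1, e2] at h
    exact h
  have hint := integral_nonneg (μ := volume) (f := fun w => dirE φ w +
    2 * ∑ k, c k * fderiv ℝ φ w (vf (a k) (r k) R w) +
      ∑ k, ∑ l, c k * c l * (vf (a l) (r l) R w * (starRingEnd ℂ) (vf (a k) (r k) R w)).re) hpt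
  have hI2' : Integrable fun w => ∑ k, c k * fderiv ℝ φ w (vf (a k) (r k) R w) :=
    integrable_finsetSum _ fun k _ => (hI2 k).const_mul _
  have hI3' : Integrable fun w => ∑ k, ∑ l, c k * c l *
      (vf (a l) (r l) R w * (starRingEnd ℂ) (vf (a k) (r k) R w)).re :=
    integrable_finsetSum _ fun k _ => integrable_finsetSum _ fun l _ => (hI3 k l).const_mul _
  have hI12 : Integrable fun w => dirE φ w +
      2 * ∑ k, c k * fderiv ℝ φ w (vf (a k) (r k) R w) := hI1.add (hI2'.const_mul 2)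
  rw [integral_add hI12 hI3', integral_add hI1 (hI2'.const_mul 2),
    integral_const_mul, integral_finsetSum _ fun k _ => (hI2 k).const_mul _,
    integral_finsetSum _ fun k _ => integrable_finsetSum _ fun l _ => (hI3 k l).const_mul _]
    at hint
  have e3 : ∀ k, ∫ w, c k * fderiv ℝ φ w (vf (a k) (r k) R w) =
      c k * ∫ w, fderiv ℝ φ w (vf (a k) (r k) R w) := fun k => integral_const_mul _ _
  have e4 : ∀ k, ∫ w, ∑ l, c k * c l *
      (vf (a l) (r l) R w * (starRingEnd ℂ) (vf (a k) (r k) R w)).re =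
      ∑ l, c k * c l * ∫ w, (vf (a l) (r l) R w * (starRingEnd ℂ) (vf (a k) (r k) R w)).re := by
    intro k
    rw [integral_finsetSum _ fun l _ => (hI3 k l).const_mul _]
    exact Finset.sum_congr rfl fun l _ => integral_const_mul _ _
  rw [Finset.sum_congr rfl fun k _ => e3 k, Finset.sum_congr rfl fun k _ => e4 k] at hint
  exact hint

lemma wl_continuous (a : ℂ) {ρ R : ℝ} (hρ : 0 < ρ) (hR : 0 < R) : Continuous (wl a ρ R) := by
  unfold wl
  refine Continuous.log (by fun_prop) ?_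
  intro z
  have h1 : 0 < max ‖z - a‖ ρ := lt_max_of_lt_right hρ
  exact (lt_min h1 hR).ne'

/-- the inequality for a fixed large `R` -/
lemma fixed_R (φ : ℂ → ℝ) (hφ : ContDiff ℝ 1 φ) (hc : HasCompactSupport φ) {N : ℕ}
    (hN : 0 < N) (z : Fin N → ℂ) (hz : Function.Injective z) {ρ : ℝ} (hρ : 0 < ρ) (m R : ℝ)
    (hm : ∀ i, ‖z i‖ ≤ m) (hm0 : 0 ≤ m) (h1 : 2 * m + ρ + 1 < R)
    (h2 : ∀ w, φ w ≠ 0 → ‖w‖ + m < R) :
    ∑ i, ∑ j ∈ Finset.univ.erase i, Real.log ‖z i - z j‖ ≤
      N * Real.log (1 / ρ) +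
        (N : ℝ) ^ 2 * ((2 * π)⁻¹ * (∫ w, dirE φ w) + 2 * Real.circleAverage φ 0 1) +
        2 * N * ∑ i, Real.circleAverage (fun w => Real.posLog ‖w‖ - φ w) (z i) ρ +
        2 * (N : ℝ) ^ 2 * (Real.log R - Real.log (R - m)) := by
  have hNr : (0 : ℝ) < N := Nat.cast_pos.mpr hN
  have hπ : 0 < π := Real.pi_pos
  have hR1 : 1 < R := by linarith
  have hRρ : ρ < R := by linarith
  have hab := abstract φ hφ hc (K := Option (Fin N))
    (fun k => k.elim (-1) (fun _ => (N : ℝ)⁻¹)) (fun k => k.elim 0 z)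
    (fun k => k.elim 1 (fun _ => ρ)) (by rintro (_ | k); · exact one_pos
                                         · exact hρ) R
  simp only [Fintype.sum_option, Option.elim] at hab
  -- the phi terms
  have hsupp : ∀ a : ℂ, ‖a‖ ≤ m → ∀ w, R ≤ ‖w - a‖ → φ w = 0 := by
    intro a ha w hw
    by_contra hne
    have := h2 w hne
    have h3 := norm_sub_le w a
    linarith
  have p0 := phi_energy φ hφ hc 0 1 R one_pos hR1 (hsupp 0 (by simpa using hm0))
  have pi := fun i => phi_energy φ hφ hc (z i) ρ R hρ hRρ (hsupp (z i) (hm i))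
  -- pair terms
  have symm : ∀ (a b : ℂ) (s t : ℝ),
      ∫ w, (vf b t R w * (starRingEnd ℂ) (vf a s R w)).re =
      ∫ w, (vf a s R w * (starRingEnd ℂ) (vf b t R w)).re := by
    intro a b s t
    refine integral_congr_ae (Filter.Eventually.of_forall fun w => ?_)
    simp only [Complex.mul_re, Complex.conj_re, Complex.conj_im]
    ring
  have q00 : ∫ w, (vf 0 1 R w * (starRingEnd ℂ) (vf 0 1 R w)).re ≤ 2 * π * Real.log R := by
    rw [pair_energy 0 0 1 1 R one_pos one_pos hR1 hR1]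
    have b1 := (wl_average_big 0 0 1 R one_pos (by simpa using hR1)).1
    have b2 := wl_average_self 0 1 R one_pos hR1
    rw [b2, Real.log_one, sub_zero]
    exact mul_le_mul_of_nonneg_left b1 (by positivity)
  have qi0 : ∀ i, 2 * π * (Real.log (R - m) -
      Real.circleAverage (fun w => Real.posLog ‖w‖) (z i) ρ) ≤
      ∫ w, (vf 0 1 R w * (starRingEnd ℂ) (vf (z i) ρ R w)).re := by
    intro i
    rw [pair_energy (z i) 0 ρ 1 R hρ one_pos hRρ hR1]
    have b1 := (wl_average_big (z i) 0 1 R one_pos (by have := hm i; simp only [sub_zero]; linarith)).2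
    have b2 := wl_average_posLog (z i) ρ R hρ (by have := hm i; linarith) hR1
    rw [b2]
    refine mul_le_mul_of_nonneg_left ?_ (by positivity)
    have b3 : Real.log (R - m) ≤ Real.log (R - ‖z i - 0‖) := by
      refine Real.log_le_log (by linarith) ?_
      have := hm i
      simp only [sub_zero]
      linarith
    linarith
  have qii : ∀ i, ∫ w, (vf (z i) ρ R w * (starRingEnd ℂ) (vf (z i) ρ R w)).re ≤
      2 * π * (Real.log R - Real.log ρ) := by
    intro i
    rw [pair_energy (z i) (z i) ρ ρ R hρ hρ hRρ hRρ]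
    have b1 := (wl_average_big (z i) (z i) ρ R hρ (by simpa using hRρ)).1
    have b2 := wl_average_self (z i) ρ R hρ hRρ
    rw [b2]
    refine mul_le_mul_of_nonneg_left ?_ (by positivity)
    linarith
  have hd : ∀ i j, ‖z i - z j‖ + ρ < R := by
    intro i j
    have := norm_sub_le (z i) (z j)
    have := hm i
    have := hm j
    linarith
  have qij : ∀ i j, i ≠ j → ∫ w, (vf (z j) ρ R w * (starRingEnd ℂ) (vf (z i) ρ R w)).re ≤
      2 * π * (Real.log R - Real.log ‖z i - z j‖) := by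
    intro i j hij
    rw [pair_energy (z i) (z j) ρ ρ R hρ hρ hRρ hRρ]
    have b1 := (wl_average_big (z i) (z j) ρ R hρ (hd i j)).1
    have b2 := wl_average_small (z i) (z j) (fun h => hij (hz h)) ρ R hρ (hd i j)
    refine mul_le_mul_of_nonneg_left ?_ (by positivity)
    linarith
  have qsum : ∑ i, ∑ j, ∫ w, (vf (z j) ρ R w * (starRingEnd ℂ) (vf (z i) ρ R w)).re ≤
      2 * π * ((N : ℝ) ^ 2 * Real.log R - N * Real.log ρ -
        ∑ i, ∑ j ∈ Finset.univ.erase i, Real.log ‖z i - z j‖) := by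
    have e1 : ∀ i, ∑ j, ∫ w, (vf (z j) ρ R w * (starRingEnd ℂ) (vf (z i) ρ R w)).re ≤
        2 * π * (N * Real.log R - Real.log ρ -
          ∑ j ∈ Finset.univ.erase i, Real.log ‖z i - z j‖) := by
      intro i
      rw [← Finset.add_sum_erase _ _ (Finset.mem_univ i)]
      have e2 : ∑ j ∈ Finset.univ.erase i,
          ∫ w, (vf (z j) ρ R w * (starRingEnd ℂ) (vf (z i) ρ R w)).re ≤
          ∑ j ∈ Finset.univ.erase i, 2 * π * (Real.log R - Real.log ‖z i - z j‖) :=
        Finset.sum_le_sum fun j hj => qij i j (Finset.ne_of_mem_erase hj).symm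
      have e3 : ∑ j ∈ Finset.univ.erase i, 2 * π * (Real.log R - Real.log ‖z i - z j‖) =
          2 * π * (((N : ℝ) - 1) * Real.log R -
            ∑ j ∈ Finset.univ.erase i, Real.log ‖z i - z j‖) := by
        rw [← Finset.mul_sum, Finset.sum_sub_distrib, Finset.sum_const,
          Finset.card_erase_of_mem (Finset.mem_univ i), Finset.card_univ, Fintype.card_fin,
          nsmul_eq_mul, Nat.cast_sub (Nat.one_le_iff_ne_zero.mpr hN.ne'), Nat.cast_one]
      have := qii i
      rw [e3] at e2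
      nlinarith [this, e2]
    refine (Finset.sum_le_sum fun i _ => e1 i).trans (le_of_eq ?_)
    rw [← Finset.mul_sum, Finset.sum_sub_distrib, Finset.sum_const, Finset.card_univ,
      Fintype.card_fin, nsmul_eq_mul]
    ring
  have qi0s : 2 * π * (N * Real.log (R - m) -
      ∑ i, Real.circleAverage (fun w => Real.posLog ‖w‖) (z i) ρ) ≤
      ∑ i, ∫ w, (vf 0 1 R w * (starRingEnd ℂ) (vf (z i) ρ R w)).re := by
    refine le_trans (le_of_eq ?_) (Finset.sum_le_sum fun i _ => qi0 i)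
    rw [← Finset.mul_sum, Finset.sum_sub_distrib, Finset.sum_const, Finset.card_univ,
      Fintype.card_fin, nsmul_eq_mul]
  -- assemble
  have hφc : ∀ (a : ℂ) (r : ℝ), CircleIntegrable φ a r := fun a r =>
    hφ.continuous.continuousOn.circleIntegrable'
  have hpc : ∀ (a : ℂ) (r : ℝ), CircleIntegrable (fun w => Real.posLog ‖w‖) a r := fun a r => by
    have : Continuous fun w : ℂ => Real.posLog ‖w‖ := by fun_prop
    exact this.continuousOn.circleIntegrable'
  have hsub : ∀ i, Real.circleAverage (fun w => Real.posLog ‖w‖ - φ w) (z i) ρ =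
      Real.circleAverage (fun w => Real.posLog ‖w‖) (z i) ρ - Real.circleAverage φ (z i) ρ :=
    fun i => Real.circleAverage_fun_sub (hpc _ _) (hφc _ _)
  simp only [hsub, Finset.sum_sub_distrib]
  rw [p0] at hab
  simp only [pi] at hab
  have hsymm : ∀ x, ∫ w, (vf (z x) ρ R w * (starRingEnd ℂ) (vf 0 1 R w)).re =
      ∫ w, (vf 0 1 R w * (starRingEnd ℂ) (vf (z x) ρ R w)).re := fun x => symm 0 (z x) 1 ρ
  simp only [hsymm] at hab
  rw [Finset.sum_add_distrib, ← Finset.mul_sum, ← Finset.mul_sum, ← Finset.mul_sum] at hab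
  simp only [← Finset.mul_sum] at hab
  rw [Finset.sum_neg_distrib, ← Finset.mul_sum] at hab
  set D := ∫ w, dirE φ w
  set c0 := Real.circleAverage φ 0 1
  set cs := ∑ i, Real.circleAverage φ (z i) ρ
  set ps := ∑ i, Real.circleAverage (fun w => Real.posLog ‖w‖) (z i) ρ
  set Q00 := ∫ w, (vf 0 1 R w * (starRingEnd ℂ) (vf 0 1 R w)).re
  set Qi0 := ∑ i, ∫ w, (vf 0 1 R w * (starRingEnd ℂ) (vf (z i) ρ R w)).re
  set Qij := ∑ i, ∑ j, ∫ w, (vf (z j) ρ R w * (starRingEnd ℂ) (vf (z i) ρ R w)).re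
  set S := ∑ i, ∑ j ∈ Finset.univ.erase i, Real.log ‖z i - z j‖
  have hlog : Real.log (1 / ρ) = - Real.log ρ := by rw [one_div, Real.log_inv]
  rw [hlog]
  have key : 0 ≤ (N : ℝ) ^ 2 * D + 2 * ((N : ℝ) ^ 2 * (2 * π * c0) - N * (2 * π * cs)) +
      (N : ℝ) ^ 2 * Q00 - 2 * N * Qi0 + Qij := by
    have e := mul_nonneg (sq_nonneg (N : ℝ)) hab
    have e2 : (N : ℝ) ^ 2 * (D + 2 * (-1 * -(2 * π * c0) + (N : ℝ)⁻¹ * -(2 * π * cs)) +
        (-1 * -1 * Q00 + -1 * (N : ℝ)⁻¹ * Qi0 + ((N : ℝ)⁻¹ * -1 * Qi0 +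
          (N : ℝ)⁻¹ * (N : ℝ)⁻¹ * Qij))) =
        (N : ℝ) ^ 2 * D + 2 * ((N : ℝ) ^ 2 * (2 * π * c0) - N * (2 * π * cs)) +
      (N : ℝ) ^ 2 * Q00 - 2 * N * Qi0 + Qij := by
      field_simp
      ring
    rw [← e2]
    exact e
  have k1 : (N : ℝ) ^ 2 * Q00 ≤ (N : ℝ) ^ 2 * (2 * π * Real.log R) :=
    mul_le_mul_of_nonneg_left q00 (by positivity)
  have k2 : 2 * N * (2 * π * (N * Real.log (R - m) - ps)) ≤ 2 * N * Qi0 :=
    mul_le_mul_of_nonneg_left qi0s (by positivity)
  have k3 : 0 ≤ (2 * π) * ((N : ℝ) ^ 2 * ((2 * π)⁻¹ * D) + 2 * ((N : ℝ) ^ 2 * c0 - N * cs) +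
      (N : ℝ) ^ 2 * Real.log R - 2 * N * (N * Real.log (R - m) - ps) +
      ((N : ℝ) ^ 2 * Real.log R - N * Real.log ρ - S)) := by
    have e3 : (2 * π) * ((N : ℝ) ^ 2 * ((2 * π)⁻¹ * D) + 2 * ((N : ℝ) ^ 2 * c0 - N * cs) +
      (N : ℝ) ^ 2 * Real.log R - 2 * N * (N * Real.log (R - m) - ps) +
      ((N : ℝ) ^ 2 * Real.log R - N * Real.log ρ - S)) =
      (N : ℝ) ^ 2 * D + 2 * ((N : ℝ) ^ 2 * (2 * π * c0) - N * (2 * π * cs)) +
      (N : ℝ) ^ 2 * (2 * π * Real.log R) - 2 * N * (2 * π * (N * Real.log (R - m) - ps)) +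
      2 * π * ((N : ℝ) ^ 2 * Real.log R - N * Real.log ρ - S) := by
      have hp : (2 * π) * (2 * π)⁻¹ = 1 := mul_inv_cancel₀ (by positivity)
      linear_combination ((N : ℝ) ^ 2 * D) * hp
    rw [e3]
    linarith
  have k4 := nonneg_of_mul_nonneg_right k3 (by positivity)
  nlinarith [k4]

end Energy

theorem energy_bound (φ : ℂ → ℝ) (hφ : ContDiff ℝ 1 φ) (hc : HasCompactSupport φ) {N : ℕ}
    (hN : 0 < N) (z : Fin N → ℂ) (hz : Function.Injective z) {ρ : ℝ} (hρ : 0 < ρ) :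
    ∑ i, ∑ j ∈ Finset.univ.erase i, Real.log ‖z i - z j‖ ≤
      N * Real.log (1 / ρ) +
        (N : ℝ) ^ 2 * ((2 * π)⁻¹ * (∫ w, dirE φ w) + 2 * Real.circleAverage φ 0 1) +
        2 * N * ∑ i, Real.circleAverage (fun w => Real.posLog ‖w‖ - φ w) (z i) ρ := by
  obtain ⟨m, hm⟩ : ∃ m, ∀ i, ‖z i‖ ≤ m :=
    ⟨∑ i, ‖z i‖, fun i => Finset.single_le_sum (f := fun i => ‖z i‖)
      (fun j _ => norm_nonneg _) (Finset.mem_univ i)⟩
  have hm0 : 0 ≤ m := (norm_nonneg _).trans (hm ⟨0, hN⟩)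
  obtain ⟨B, hB⟩ : ∃ B, ∀ w, φ w ≠ 0 → ‖w‖ ≤ B := by
    obtain ⟨B, hB⟩ := hc.isCompact.isBounded.exists_norm_le
    exact ⟨B, fun w hw => hB w (subset_tsupport φ hw)⟩
  have hlim : Filter.Tendsto (fun R : ℝ => N * Real.log (1 / ρ) +
        (N : ℝ) ^ 2 * ((2 * π)⁻¹ * (∫ w, dirE φ w) + 2 * Real.circleAverage φ 0 1) +
        2 * N * ∑ i, Real.circleAverage (fun w => Real.posLog ‖w‖ - φ w) (z i) ρ +
        2 * (N : ℝ) ^ 2 * (Real.log R - Real.log (R - m))) Filter.atTop
      (nhds (N * Real.log (1 / ρ) +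
        (N : ℝ) ^ 2 * ((2 * π)⁻¹ * (∫ w, dirE φ w) + 2 * Real.circleAverage φ 0 1) +
        2 * N * ∑ i, Real.circleAverage (fun w => Real.posLog ‖w‖ - φ w) (z i) ρ +
        2 * (N : ℝ) ^ 2 * 0)) := by
    refine Filter.Tendsto.const_add _ (Filter.Tendsto.const_mul _ ?_)
    have h1 : Filter.Tendsto (fun R : ℝ => Real.log (R / (R - m))) Filter.atTop (nhds 0) := by
      have h2 : Filter.Tendsto (fun R : ℝ => 1 + m / (R - m)) Filter.atTop (nhds (1 + 0)) := by
        refine Filter.Tendsto.const_add _ ?_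
        exact Filter.Tendsto.const_div_atTop (Filter.tendsto_atTop_add_const_right _ (-m)
          Filter.tendsto_id) m
      rw [add_zero] at h2
      have h3 := (Real.continuousAt_log one_ne_zero).tendsto.comp h2
      rw [Real.log_one] at h3
      refine h3.congr' ?_
      filter_upwards [Filter.eventually_gt_atTop m] with R hR
      have : R - m ≠ 0 := (sub_pos.mpr hR).ne'
      simp only [Function.comp]
      congr 1
      field_simp
      ring
    refine h1.congr' ?_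
    filter_upwards [Filter.eventually_gt_atTop m, Filter.eventually_gt_atTop 0] with R hR hR0
    rw [Real.log_div hR0.ne' (sub_pos.mpr hR).ne']
  rw [mul_zero, add_zero] at hlim
  refine ge_of_tendsto hlim ?_
  filter_upwards [Filter.eventually_gt_atTop (2 * m + ρ + 1), Filter.eventually_gt_atTop (B + m)]
    with R hR1 hR2
  exact Energy.fixed_R φ hφ hc hN z hz hρ m R hm hm0 hR1 fun w hw => by
    have := hB w hw
    linarith

end H904L2
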