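import Pool.Agent.H904L2.Defs

open Polynomial
open scoped Real

namespace H904L2

namespace Kronecker

/-- the functional with `X ^ n ↦ c n` -/
noncomputable def fn (c : ℕ → ℂ) : ℂ[X] →ₗ[ℂ] ℂ :=
  Polynomial.lsum fun i => c i • (LinearMap.id : ℂ →ₗ[ℂ] ℂ)

theorem fn_X_pow (c : ℕ → ℂ) (n : ℕ) : fn c (X ^ n) = c n := by
  rw [fn, Polynomial.lsum_apply, X_pow_eq_monomial, sum_monomial_index] <;> simp

/-- expansion of the second factor -/
theorem expand (L : ℂ[X] →ₗ[ℂ] ℂ) (u v : ℂ[X]) (j : ℕ) :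
    L (u * v * X ^ j) = ∑ i ∈ Finset.range (v.natDegree + 1), v.coeff i * L (u * X ^ (i + j)) := by
  conv_lhs => rw [v.as_sum_range_C_mul_X_pow]
  rw [Finset.mul_sum, Finset.sum_mul, map_sum]
  refine Finset.sum_congr rfl fun i _ => ?_
  have : u * (C (v.coeff i) * X ^ i) * X ^ j = v.coeff i • (u * X ^ (i + j)) := by
    rw [smul_eq_C_mul, pow_add]
    ring
  rw [this, map_smul, smul_eq_mul]

theorem mul_zero_of (L : ℂ[X] →ₗ[ℂ] ℂ) {u v : ℂ[X]} {k j : ℕ}
    (hu : ∀ i < k, L (u * X ^ i) = 0) (hj : j + v.natDegree < k) : L (u * v * X ^ j) = 0 := by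
  rw [expand]
  refine Finset.sum_eq_zero fun i hi => ?_
  rw [Finset.mem_range] at hi
  rw [hu (i + j) (by omega), mul_zero]

theorem mul_ne_zero_of (L : ℂ[X] →ₗ[ℂ] ℂ) {u v : ℂ[X]} {k j : ℕ} (hv : v ≠ 0)
    (hu : ∀ i < k, L (u * X ^ i) = 0) (hk : L (u * X ^ k) ≠ 0) (hj : j + v.natDegree = k) :
    L (u * v * X ^ j) ≠ 0 := by
  rw [expand, Finset.sum_range_succ, Finset.sum_eq_zero, zero_add]
  · refine mul_ne_zero ?_ ?_
    · exact leadingCoeff_ne_zero.mpr hv
    · rw [add_comm, hj]; exact hk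
  · intro i hi
    rw [Finset.mem_range] at hi
    rw [hu (i + j) (by omega), mul_zero]

theorem step (L : ℂ[X] →ₗ[ℂ] ℂ) (N0 : ℕ)
    (h : ∀ N, N0 ≤ N → ∃ q : ℂ[X], q ≠ 0 ∧ q.natDegree < N ∧ ∀ j < N, L (q * X ^ j) = 0) :
    ∀ (r : ℕ) (q : ℂ[X]) (N : ℕ), q.natDegree ≤ r → q ≠ 0 → N0 ≤ N → q.natDegree < N →
      (∀ j < N, L (q * X ^ j) = 0) → ∃ q' : ℂ[X], q' ≠ 0 ∧ ∀ j, L (q' * X ^ j) = 0 := by
  classical
  intro r
  induction r using Nat.strong_induction_on with
  | _ r ih =>
    intro q N hqr hq hN hqN hkill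
    by_cases hall : ∀ j, L (q * X ^ j) = 0
    · exact ⟨q, hq, hall⟩
    push Not at hall
    set k := Nat.find hall with hk
    have hk1 : L (q * X ^ k) ≠ 0 := Nat.find_spec hall
    have hk2 : ∀ i < k, L (q * X ^ i) = 0 := fun i hi => not_not.mp (Nat.find_min hall hi)
    have hkN : N ≤ k := by
      by_contra hcon
      exact hk1 (hkill k (by omega))
    obtain ⟨q', hq', hd', hkill'⟩ := h (k + 1) (by omega)
    by_cases hall' : ∀ j, L (q' * X ^ j) = 0
    · exact ⟨q', hq', hall'⟩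
    push Not at hall'
    set k' := Nat.find hall' with hk'
    have hk1' : L (q' * X ^ k') ≠ 0 := Nat.find_spec hall'
    have hk2' : ∀ i < k', L (q' * X ^ i) = 0 := fun i hi => not_not.mp (Nat.find_min hall' hi)
    have hkk : k + 1 ≤ k' := by
      by_contra hcon
      exact hk1' (hkill' k' (by omega))
    have e1 : (k - q'.natDegree) + q'.natDegree = k := by omega
    have e2 : (k' - q.natDegree) + q.natDegree = k' := by omega
    have f1 := mul_ne_zero_of L hq' hk2 hk1 e1
    have f2 := mul_ne_zero_of L hq hk2' hk1' e2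
    have hlt : q'.natDegree < q.natDegree := by
      by_contra hcon
      -- then `k - r' < k' - r`
      have : L (q' * q * X ^ (k - q'.natDegree)) = 0 := mul_zero_of L hk2' (by omega)
      rw [mul_comm q' q] at this
      exact f1 this
    exact ih q'.natDegree (by omega) q' (k + 1) le_rfl hq' (by omega) hd' hkill'

end Kronecker

open Kronecker in
theorem kronecker (c : ℕ → ℂ) (N0 : ℕ)
    (h : ∀ N, N0 ≤ N → (Matrix.of fun i j : Fin N => c ((i : ℕ) + (j : ℕ))).det = 0) :
    ∃ P Q : ℂ[X], Q ≠ 0 ∧ (Q : PowerSeries ℂ) * PowerSeries.mk c = (P : PowerSeries ℂ) := by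
  classical
  have h1 : ∀ N, N0 ≤ N → ∃ q : ℂ[X], q ≠ 0 ∧ q.natDegree < N ∧
      ∀ j < N, fn c (q * X ^ j) = 0 := by
    intro N hN
    obtain ⟨v, hv, hMv⟩ := Matrix.exists_mulVec_eq_zero_iff.mpr (h N hN)
    have hcoef : ∀ i : Fin N, (∑ i : Fin N, C (v i) * X ^ (i : ℕ) : ℂ[X]).coeff i = v i := by
      intro i
      rw [finsetSum_coeff]
      simp only [coeff_C_mul_X_pow]
      rw [Finset.sum_eq_single i]
      · simp
      · intro b _ hb
        rw [if_neg]
        intro hib
        exact hb (Fin.ext hib.symm)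
      · simp
    obtain ⟨i, hi⟩ := Function.ne_iff.mp hv
    have hN0 : 0 < N := i.pos
    refine ⟨∑ i : Fin N, C (v i) * X ^ (i : ℕ), ?_, ?_, ?_⟩
    · intro h0
      apply hi
      rw [← hcoef i, h0]
      simp
    · refine lt_of_le_of_lt (natDegree_sum_le_of_forall_le (n := N - 1) _ _ fun j _ => ?_)
        (by omega)
      refine (natDegree_C_mul_X_pow_le _ _).trans ?_
      have := j.2
      omega
    · intro j hj
      have := congrFun hMv ⟨j, hj⟩
      simp only [Matrix.mulVec, dotProduct, Matrix.of_apply, Pi.zero_apply] at this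
      rw [Finset.sum_mul, map_sum, ← this]
      refine Finset.sum_congr rfl fun i _ => ?_
      have e : C (v i) * X ^ (i : ℕ) * X ^ j = v i • (X ^ (j + (i : ℕ)) : ℂ[X]) := by
        rw [smul_eq_C_mul, pow_add]
        ring
      rw [e, map_smul, fn_X_pow, smul_eq_mul, mul_comm]
  obtain ⟨q, hq, hall⟩ : ∃ q : ℂ[X], q ≠ 0 ∧ ∀ j, fn c (q * X ^ j) = 0 := by
    obtain ⟨q, hq, hd, hk⟩ := h1 N0 le_rfl
    exact step (fn c) N0 h1 q.natDegree q N0 le_rfl hq le_rfl hd hk
  set m := q.natDegree with hm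
  set Q : ℂ[X] := ∑ i ∈ Finset.range (m + 1), C (q.coeff i) * X ^ (m - i) with hQ
  have hrel : ∀ n, ∑ i ∈ Finset.range (m + 1), q.coeff i * c (i + n) = 0 := by
    intro n
    have := expand (fn c) 1 q n
    rw [one_mul, hall n] at this
    rw [this]
    refine Finset.sum_congr rfl fun i _ => ?_
    rw [one_mul, fn_X_pow]
  have hQ0 : Q ≠ 0 := by
    intro h0
    have : Q.coeff 0 = q.coeff m := by
      rw [hQ, finsetSum_coeff, Finset.sum_range_succ, Finset.sum_eq_zero, zero_add]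
      · simp
      · intro i hi
        rw [Finset.mem_range] at hi
        rw [coeff_C_mul_X_pow, if_neg (by omega)]
    rw [h0, coeff_zero] at this
    exact hq (leadingCoeff_eq_zero.mp this.symm)
  have hco : ∀ n, m ≤ n → PowerSeries.coeff n ((Q : PowerSeries ℂ) * PowerSeries.mk c) = 0 := by
    intro n hn
    have e : (Q : PowerSeries ℂ) =
        ∑ i ∈ Finset.range (m + 1), PowerSeries.C (q.coeff i) * PowerSeries.X ^ (m - i) := by
      rw [hQ]
      have := map_sum (Polynomial.coeToPowerSeries.ringHom (R := ℂ))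
        (fun i => C (q.coeff i) * X ^ (m - i)) (Finset.range (m + 1))
      simp only [Polynomial.coeToPowerSeries.ringHom_apply] at this
      rw [this]
      refine Finset.sum_congr rfl fun i _ => ?_
      simp
    rw [e, Finset.sum_mul, map_sum, ← hrel (n - m)]
    refine Finset.sum_congr rfl fun i hi => ?_
    rw [Finset.mem_range] at hi
    rw [mul_assoc, PowerSeries.coeff_C_mul, PowerSeries.coeff_X_pow_mul', if_pos (by omega),
      PowerSeries.coeff_mk]
    congr 2
    omega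
  refine ⟨PowerSeries.trunc m ((Q : PowerSeries ℂ) * PowerSeries.mk c), Q, hQ0, ?_⟩
  ext n
  rw [Polynomial.coeff_coe, PowerSeries.coeff_trunc]
  split_ifs with hn
  · rfl
  · exact hco n (by omega)

end H904L2
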