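import Pool.Agent.H904L2.Defs

open Polynomial
open scoped Real

namespace H904L2

namespace Kset

/-- the parametrisation of the compact set by finitely many rectangles -/
lemma eq_union {ι : Type} [Fintype ι] (a : ι → ℂ) (T δ : ℝ) :
    H904L2.Kset a T δ =
      Complex.exp '' (Set.Icc (-T) (-T) ×ℂ Set.Icc (-π) π) ∪
        ⋃ i, Complex.exp '' (Set.Icc (-T) (Real.log ‖a i‖ + δ) ×ℂ
          Set.Icc ((a i).arg - δ) ((a i).arg + δ)) := by
  ext z
  simp only [H904L2.Kset, Set.mem_setOf_eq, Set.mem_union, Set.mem_iUnion, Set.mem_image,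
    Complex.mem_reProdIm, Set.mem_Icc]
  constructor
  · rintro ⟨w, hw, hT, h | ⟨i, h1, h2⟩⟩
    · left
      refine ⟨Complex.log z, ?_, ?_⟩
      · have hz : z ≠ 0 := by rw [← hw]; exact Complex.exp_ne_zero w
        have hre : (Complex.log z).re = -T := by
          rw [Complex.log_re, ← hw, Complex.norm_exp, Real.log_exp, h]
        refine ⟨⟨hre.ge, hre.le⟩, ?_, ?_⟩
        · rw [Complex.log_im]; exact (Complex.neg_pi_lt_arg z).le
        · rw [Complex.log_im]; exact Complex.arg_le_pi z
      · apply Complex.exp_log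
        rw [← hw]; exact Complex.exp_ne_zero w
    · right
      refine ⟨i, w, ⟨⟨hT, h1⟩, ?_, ?_⟩, hw⟩
      · have := (abs_le.mp h2).1; linarith
      · have := (abs_le.mp h2).2; linarith
  · rintro (⟨w, ⟨⟨h1, h2⟩, _⟩, hw⟩ | ⟨i, w, ⟨⟨h1, h2⟩, h3, h4⟩, hw⟩)
    · exact ⟨w, hw, h1, Or.inl (le_antisymm h2 h1)⟩
    · refine ⟨w, hw, h1, Or.inr ⟨i, h2, ?_⟩⟩
      rw [abs_le]
      constructor <;> linarith

lemma close_one (h : ℂ → ℝ) (hc : Continuous h) (η η' : ℝ) (hη : η < η') (s : Set ℂ)
    (hs : IsCompact s) :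
    ∃ δ : ℝ, 0 < δ ∧ ∀ x ∈ s, ∀ y ∈ s, dist x y < δ → h y ≤ η → h x ≤ η' := by
  have hu := hs.uniformContinuousOn_of_continuous hc.continuousOn
  rw [Metric.uniformContinuousOn_iff] at hu
  obtain ⟨δ, hδ, H⟩ := hu (η' - η) (by linarith)
  refine ⟨δ, hδ, fun x hx y hy hxy hy' => ?_⟩
  have := H x hx y hy hxy
  rw [Real.dist_eq] at this
  have := (abs_lt.mp this).2
  linarith

end Kset

theorem Kset_isCompact {ι : Type} [Fintype ι] (a : ι → ℂ) (T δ : ℝ) :
    IsCompact (Kset a T δ) := by
  rw [Kset.eq_union]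
  refine IsCompact.union ?_ (isCompact_iUnion fun i => ?_)
  · exact (isCompact_Icc.reProdIm isCompact_Icc).image Complex.continuous_exp
  · exact (isCompact_Icc.reProdIm isCompact_Icc).image Complex.continuous_exp

theorem Kset_infinite {ι : Type} [Fintype ι] (a : ι → ℂ) (T δ : ℝ) :
    (Kset a T δ).Infinite := by
  have hinf : (Set.Ioo (0 : ℝ) 1).Infinite := Set.Ioo_infinite one_pos
  refine Set.infinite_of_injOn_mapsTo (f := fun t : ℝ => Complex.exp ⟨-T, t⟩) ?_ ?_ hinf
  · intro x hx y hy hxy
    have hpi := Real.pi_gt_three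
    have := Complex.exp_inj_of_neg_pi_lt_of_le_pi (x := ⟨-T, x⟩) (y := ⟨-T, y⟩)
      (by show -π < x; linarith [hx.1]) (by show x ≤ π; linarith [hx.2])
      (by show -π < y; linarith [hy.1]) (by show y ≤ π; linarith [hy.2]) hxy
    exact congrArg Complex.im this
  · intro x _
    exact ⟨⟨-T, x⟩, rfl, le_refl _, Or.inl rfl⟩

theorem Kset_close {ι : Type} [Fintype ι] (a : ι → ℂ) (T : ℝ) (h : ℂ → ℝ) (hc : Continuous h)
    (η η' : ℝ) (hη : η < η') (h1 : ∀ z, ‖z‖ = Real.exp (-T) → h z ≤ η)
    (h2 : ∀ i, ∀ t : ℝ, -T ≤ t → t ≤ Real.log ‖a i‖ →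
      h (Complex.exp (t + (a i).arg * Complex.I)) ≤ η) :
    ∃ δ ρ : ℝ, 0 < δ ∧ 0 < ρ ∧ ∀ z ∈ Kset a T δ, Real.circleAverage h z ρ ≤ η' := by
  classical
  obtain ⟨η1, h01, h11⟩ := exists_between hη
  -- a common upper bound for the real parts
  set B : ℝ := |T| + ∑ i, |Real.log ‖a i‖| with hB
  have hBi : ∀ i, Real.log ‖a i‖ ≤ B := by
    intro i
    have h3 : |Real.log ‖a i‖| ≤ ∑ i, |Real.log ‖a i‖| :=
      Finset.single_le_sum (f := fun i => |Real.log ‖a i‖|) (fun i _ => abs_nonneg _)
        (Finset.mem_univ i)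
    have := le_abs_self (Real.log ‖a i‖)
    have := abs_nonneg T
    linarith
  have hBT : -T ≤ B := by
    have h3 : 0 ≤ ∑ i, |Real.log ‖a i‖| := Finset.sum_nonneg fun i _ => abs_nonneg _
    have := neg_abs_le T
    have := neg_le_abs T
    linarith
  -- uniform continuity of `h ∘ exp` on a rectangle
  obtain ⟨δ0, hδ0, H0⟩ := Kset.close_one (fun w => h (Complex.exp w))
    (hc.comp Complex.continuous_exp) η η1 h01
    (Set.Icc (-T - 1) (B + 1) ×ℂ Set.Icc (-π - 1) (π + 1))
    (isCompact_Icc.reProdIm isCompact_Icc)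
  obtain ⟨ρ0, hρ0, H1⟩ := Kset.close_one h hc η1 η' h11
    (Metric.closedBall 0 (Real.exp (B + 1) + 1)) (isCompact_closedBall _ _)
  set δ : ℝ := min 1 (δ0 / 4) with hδ
  have hδpos : 0 < δ := lt_min one_pos (by linarith)
  have hδ1 : δ ≤ 1 := min_le_left _ _
  have hδ2 : δ ≤ δ0 / 4 := min_le_right _ _
  have hsqrt : ∀ w w' : ℂ, |w.re - w'.re| ≤ δ → |w.im - w'.im| ≤ δ → dist w w' < δ0 := by
    intro w w' h3 h4
    have h5 : dist w w' ≤ |w.re - w'.re| + |w.im - w'.im| := by
      rw [dist_eq_norm]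
      have := Complex.norm_le_abs_re_add_abs_im (w - w')
      simpa using this
    linarith
  have key : ∀ z ∈ Kset a T δ, h z ≤ η1 ∧ ‖z‖ ≤ Real.exp (B + 1) := by
    rintro z ⟨w, rfl, hT, hw | ⟨i, hi1, hi2⟩⟩
    · have hn : ‖Complex.exp w‖ = Real.exp (-T) := by rw [Complex.norm_exp, hw]
      refine ⟨(h1 _ hn).trans h01.le, ?_⟩
      rw [hn]
      exact Real.exp_le_exp.mpr (by linarith)
    · have harg1 := Complex.neg_pi_lt_arg (a i)
      have harg2 := Complex.arg_le_pi (a i)
      have hi3 := abs_le.mp hi2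
      have hwB : w.re ≤ B + 1 := by linarith [hBi i]
      have hwmem : w ∈ (Set.Icc (-T - 1) (B + 1) ×ℂ Set.Icc (-π - 1) (π + 1)) := by
        rw [Complex.mem_reProdIm]
        refine ⟨⟨by linarith, hwB⟩, ?_, ?_⟩
        · linarith [hi3.1]
        · linarith [hi3.2]
      refine ⟨?_, ?_⟩
      · rcases le_or_gt (-T) (Real.log ‖a i‖) with hle | hgt
        · -- compare with a point of the ray
          set t : ℝ := min w.re (Real.log ‖a i‖) with ht
          have ht1 : -T ≤ t := le_min hT hle
          have ht2 : t ≤ Real.log ‖a i‖ := min_le_right _ _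
          have hw' := h2 i t ht1 ht2
          refine H0 w hwmem (t + (a i).arg * Complex.I) ?_ ?_ hw'
          · rw [Complex.mem_reProdIm]
            simp only [Complex.add_re, Complex.ofReal_re, Complex.mul_re, Complex.I_re,
              mul_zero, Complex.ofReal_im, Complex.I_im, sub_self, add_zero, Complex.add_im,
              Complex.mul_im, mul_one, zero_add, Set.mem_Icc]
            refine ⟨⟨by linarith, by linarith [hBi i]⟩, by linarith, by linarith⟩
          · apply hsqrt
            · simp only [Complex.add_re, Complex.ofReal_re, Complex.mul_re, Complex.I_re,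
                mul_zero, Complex.ofReal_im, Complex.I_im, sub_self, add_zero, mul_one,
                zero_mul]
              rw [abs_le]
              constructor
              · have : t ≤ w.re := min_le_left _ _
                linarith
              · have : w.re - δ ≤ t := le_min (by linarith) (by linarith)
                linarith
            · simpa using hi2
        · -- compare with a point of the small circle
          have hw' : h (Complex.exp ⟨-T, w.im⟩) ≤ η := by
            apply h1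
            rw [Complex.norm_exp]
          refine H0 w hwmem ⟨-T, w.im⟩ ?_ ?_ hw'
          · rw [Complex.mem_reProdIm]
            refine ⟨⟨by show -T - 1 ≤ -T; linarith, by show -T ≤ B + 1; linarith⟩, ?_, ?_⟩
            · show -π - 1 ≤ w.im
              linarith [hi3.1]
            · show w.im ≤ π + 1
              linarith [hi3.2]
          · apply hsqrt
            · show |w.re - -T| ≤ δ
              rw [abs_le]
              constructor <;> linarith
            · show |w.im - w.im| ≤ δ
              simpa using hδpos.le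
      · rw [Complex.norm_exp]
        exact Real.exp_le_exp.mpr hwB
  set ρ : ℝ := min 1 (ρ0 / 2) with hρ
  have hρpos : 0 < ρ := lt_min one_pos (by linarith)
  have hρ1 : ρ ≤ 1 := min_le_left _ _
  have hρ2 : ρ ≤ ρ0 / 2 := min_le_right _ _
  refine ⟨δ, ρ, hδpos, hρpos, fun z hz => ?_⟩
  obtain ⟨hz1, hz2⟩ := key z hz
  apply Real.circleAverage_mono_on_of_le_circle
  · exact hc.continuousOn.circleIntegrable'
  · intro x hx
    rw [mem_sphere_iff_norm, abs_of_pos hρpos] at hx
    refine H1 x ?_ z ?_ ?_ hz1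
    · rw [mem_closedBall_zero_iff]
      have : ‖x‖ ≤ ‖x - z‖ + ‖z‖ := by
        have := norm_add_le (x - z) z
        simpa using this
      linarith
    · rw [mem_closedBall_zero_iff]
      linarith
    · rw [dist_eq_norm, hx]
      linarith

end H904L2
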