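import Pool.Agent.H904L2.Coeffs
import Pool.Agent.H904L2.Contour
import Pool.Agent.H904L2.Kset
import Pool.Agent.H904L2.Energy
import Pool.Agent.H904L2.DetBound
import Pool.Agent.H904L2.Kronecker

open Polynomial
open scoped Real

namespace H904L2

namespace AT1

/-- the linear functional attached to the square root -/
noncomputable def Lf {ι : Type} [Fintype ι] (a : ι → ℂ) (R : ℝ) (hR : 0 < R)
    (hc : ContinuousOn (Fsq a) (Metric.sphere 0 R)) : ℂ[X] →ₗ[ℂ] ℂ where
  toFun p := Real.circleAverage (fun z => Fsq a z * p.eval z) 0 R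
  map_add' p q := by
    have h : ∀ p : ℂ[X], CircleIntegrable (fun z => Fsq a z * p.eval z) 0 R := fun p =>
      ContinuousOn.circleIntegrable hR.le (hc.mul p.continuous.continuousOn)
    rw [← Real.circleAverage_fun_add (h p) (h q)]
    congr 1
    ext z
    simp [mul_add]
  map_smul' r p := by
    simp only [RingHom.id_apply]
    rw [← Real.circleAverage_fun_smul]
    congr 1
    ext z
    simp only [eval_smul, smul_eq_mul]
    ring

theorem continuousOn_Fsq {ι : Type} [Fintype ι] (a : ι → ℂ) (R : ℝ) (hR : 0 < R)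
    (h : ∀ i, ‖a i‖ < R) : ContinuousOn (Fsq a) (Metric.sphere 0 R) := by
  unfold Fsq
  apply continuousOn_finsetProd
  intro i _ z hz
  have hz' : ‖z‖ = R := by simpa using hz
  have hz0 : z ≠ 0 := by
    intro h0
    rw [h0, norm_zero] at hz'
    linarith
  apply ContinuousAt.continuousWithinAt
  have h1 : ContinuousAt (fun z : ℂ => 1 - a i / z) z := by fun_prop (disch := assumption)
  refine ContinuousAt.comp (g := fun w : ℂ => w ^ (1/2 : ℂ)) ?_ h1
  apply continuousAt_cpow_const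
  left
  have h2 : ‖a i / z‖ < 1 := by
    rw [norm_div, hz']
    exact (div_lt_one hR).2 (h i)
  have h3 : (a i / z).re ≤ ‖a i / z‖ := Complex.re_le_norm _
  simp only [Complex.sub_re, Complex.one_re]
  linarith

end AT1

theorem AT1 {ι : Type} [Fintype ι] [Nonempty ι] (a : ι → ℂ) (ha : ∀ i, a i ≠ 0) (c : ℕ → ℤ)
    (hc0 : c 0 = 1)
    (hc : (PowerSeries.mk fun n => (c n : ℂ)) ^ 2 =
      ((∏ i, (1 - C (a i) * X) : ℂ[X]) : PowerSeries ℂ))
    (φ : ℂ → ℝ) (hφ : ContDiff ℝ 1 φ) (hφc : HasCompactSupport φ) (T : ℝ) (hT : 0 < T)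
    (hφT : ∀ z, ‖z‖ ≤ Real.exp (-T) → φ z = 0) (ε : ℝ)
    (hφK : ∀ i, ∀ t : ℝ, t ≤ Real.log ‖a i‖ →
      max t 0 - φ (Complex.exp (t + (a i).arg * Complex.I)) ≤ ε)
    (hF : (2 * π)⁻¹ * (∫ z, dirE φ z) + 2 * Real.circleAverage φ 0 1 + 2 * ε < 0) :
    ∃ P Q : ℂ[X], Q ≠ 0 ∧
      (Q : PowerSeries ℂ) * PowerSeries.mk (fun n => (c n : ℂ)) = (P : PowerSeries ℂ) := by
  classical
  set F : ℝ := (2 * π)⁻¹ * (∫ z, dirE φ z) + 2 * Real.circleAverage φ 0 1 with hFdef
  -- the function log⁺ - φ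
  set h : ℂ → ℝ := fun w => Real.posLog ‖w‖ - φ w with hh
  have hcont : Continuous h := by
    have h1 : Continuous fun w : ℂ => Real.posLog ‖w‖ := Real.continuous_posLog.comp continuous_norm
    exact h1.sub hφ.continuous
  have hexp : ∀ (t y : ℝ), ‖Complex.exp (t + y * Complex.I)‖ = Real.exp t := by
    intro t y
    rw [Complex.norm_exp]
    simp
  have hε0 : 0 ≤ ε := by
    obtain ⟨i⟩ := (inferInstance : Nonempty ι)
    have h1 := hφK i (min (Real.log ‖a i‖) (-T)) (min_le_left _ _)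
    have h2 : φ (Complex.exp (((min (Real.log ‖a i‖) (-T) : ℝ) : ℂ) + (a i).arg * Complex.I)) = 0 := by
      apply hφT
      rw [hexp]
      exact Real.exp_le_exp.2 (min_le_right _ _)
    rw [h2] at h1
    have h3 : (0:ℝ) ≤ max (min (Real.log ‖a i‖) (-T)) 0 := le_max_right _ _
    linarith
  obtain ⟨η', hη'1, hη'2⟩ : ∃ η', ε < η' ∧ F + 2 * η' < 0 := by
    refine ⟨(ε + (-F / 2)) / 2, ?_, ?_⟩ <;> linarith
  obtain ⟨δ, ρ, hδ, hρ, hclose⟩ := Kset_close a T h hcont ε η' hη'1
    (by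
      intro z hz
      have h1 : φ z = 0 := hφT z hz.le
      have h2 : Real.posLog ‖z‖ = 0 := by
        rw [hz, Real.posLog_eq_zero_iff, abs_of_pos (Real.exp_pos _)]
        exact Real.exp_le_one_iff.2 (by linarith)
      simp only [hh, h1, h2]
      linarith)
    (by
      intro i t _ ht
      have h1 := hφK i t ht
      have h2 : Real.posLog ‖Complex.exp (t + (a i).arg * Complex.I)‖ = max t 0 := by
        rw [hexp, Real.posLog, Real.log_exp, max_comm]
      simp only [hh, h2]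
      exact h1)
  -- the radius
  obtain ⟨R, hR0, hRa, hRT⟩ : ∃ R : ℝ, 0 < R ∧ (∀ i, ‖a i‖ < R) ∧ Real.exp (-T) < R := by
    refine ⟨(∑ i, ‖a i‖) + Real.exp (-T) + 1, ?_, ?_, ?_⟩
    · have := Finset.sum_nonneg (s := Finset.univ) (fun i _ => norm_nonneg (a i))
      have := Real.exp_pos (-T)
      linarith
    · intro i
      have := Finset.single_le_sum (f := fun i => ‖a i‖) (fun i _ => norm_nonneg (a i)) (Finset.mem_univ i)
      have := Real.exp_pos (-T)
      linarith
    · have := Finset.sum_nonneg (s := Finset.univ) (fun i _ => norm_nonneg (a i))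
      linarith
  obtain ⟨C, hC0, hC⟩ := contour_bound a ha T δ R hδ hRa hRT
  set L := AT1.Lf a R hR0 (AT1.continuousOn_Fsq a R hR0 hRa) with hL
  have hLb : ∀ p : ℂ[X], ∀ B : ℝ, (∀ z ∈ Kset a T δ, ‖p.eval z‖ ≤ B) → ‖L p‖ ≤ C * B := hC
  -- coefficients
  obtain ⟨c', hc'0, hc'sq, hc'⟩ := exists_coeffs a
  have hcc : ∀ n, c' n = c n := by
    have h1 : (PowerSeries.mk c' - PowerSeries.mk fun n => (c n : ℂ)) *
        (PowerSeries.mk c' + PowerSeries.mk fun n => (c n : ℂ)) = 0 := by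
      have : (PowerSeries.mk c') ^ 2 = (PowerSeries.mk fun n => (c n : ℂ)) ^ 2 := by
        rw [hc'sq, hc]
      linear_combination this
    rcases mul_eq_zero.1 h1 with h2 | h2
    · intro n
      have h3 := congrArg (PowerSeries.coeff n) (sub_eq_zero.1 h2)
      simpa using h3
    · exfalso
      have h3 := congrArg (PowerSeries.coeff 0) h2
      simp only [map_add, PowerSeries.coeff_mk, map_zero, hc'0, hc0] at h3
      norm_num at h3
  have hLX : ∀ n : ℕ, L (X ^ n) = c n := by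
    intro n
    have h1 := hc' R hR0 hRa n
    rw [← hcc n, ← h1]
    change Real.circleAverage (fun z => Fsq a z * (X ^ n : ℂ[X]).eval z) 0 R = _
    simp
  -- the energy bound on the compact set
  have hE : ∀ N : ℕ, 0 < N → ∀ z : Fin N → ℂ, Function.Injective z →
      (∀ i, z i ∈ Kset a T δ) →
      ∑ i, ∑ j ∈ Finset.univ.erase i, Real.log ‖z i - z j‖ ≤
        N * Real.log (1 / ρ) - (N : ℝ) ^ 2 * (-(F + 2 * η')) := by
    intro N hN z hz hzK
    have h1 := energy_bound φ hφ hφc hN z hz hρ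
    have h2 : ∑ i, Real.circleAverage (fun w => Real.posLog ‖w‖ - φ w) (z i) ρ ≤ N * η' := by
      calc ∑ i, Real.circleAverage (fun w => Real.posLog ‖w‖ - φ w) (z i) ρ
          ≤ ∑ _i : Fin N, η' := Finset.sum_le_sum (fun i _ => hclose (z i) (hzK i))
        _ = N * η' := by simp
    have h3 : 2 * (N : ℝ) * ∑ i, Real.circleAverage (fun w => Real.posLog ‖w‖ - φ w) (z i) ρ ≤
        2 * (N : ℝ) * (N * η') := by
      apply mul_le_mul_of_nonneg_left h2
      positivity
    calc _ ≤ _ := h1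
      _ ≤ N * Real.log (1 / ρ) + (N : ℝ) ^ 2 * F + 2 * N * (N * η') := by
          rw [hFdef]
          linarith
      _ = _ := by ring
  obtain ⟨N0, hN0⟩ := det_lt_one L (Kset a T δ) (Kset_isCompact a T δ) (Kset_infinite a T δ) C hC0
    hLb (Real.log (1 / ρ)) (-(F + 2 * η')) (by linarith) hE
  apply kronecker (fun n => (c n : ℂ)) N0
  intro N hN
  have h1 := hN0 N hN
  have h2 : (Matrix.of fun i j : Fin N => L (X ^ ((i : ℕ) + (j : ℕ)))) =
      (Matrix.of fun i j : Fin N => c ((i : ℕ) + (j : ℕ))).map (Int.castRingHom ℂ) := by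
    ext i j
    simp [hLX]
  have h3 : (Matrix.of fun i j : Fin N => ((c ((i : ℕ) + (j : ℕ)) : ℤ) : ℂ)) =
      (Matrix.of fun i j : Fin N => c ((i : ℕ) + (j : ℕ))).map (Int.castRingHom ℂ) := by
    ext i j
    simp
  rw [h2, ← RingHom.mapMatrix_apply, ← RingHom.map_det] at h1
  change (Matrix.of fun i j : Fin N => ((c ((i : ℕ) + (j : ℕ)) : ℤ) : ℂ)).det = 0
  rw [h3, ← RingHom.mapMatrix_apply, ← RingHom.map_det]
  set D := (Matrix.of fun i j : Fin N => c ((i : ℕ) + (j : ℕ))).det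
  have h4 : D = 0 := by
    have : ‖((D : ℤ) : ℂ)‖ < 1 := by simpa using h1
    rw [Complex.norm_intCast] at this
    have h5 : |D| < 1 := by exact_mod_cast this
    exact Int.abs_lt_one_iff.1 h5
  rw [h4]
  simp

end H904L2
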