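import Pool.Agent.H904L2.Defs

open Polynomial
open scoped Real

namespace H904L2

namespace ExpChange

open Complex MeasureTheory

theorem per_int {Ψ : ℂ → ℝ} (hper : ∀ w, Ψ (w + 2 * π * Complex.I) = Ψ w) {v w : ℂ}
    (h : Complex.exp v = Complex.exp w) : Ψ v = Ψ w := by
  obtain ⟨n, hn⟩ := Complex.exp_eq_exp_iff_exists_int.1 h
  have hP : Function.Periodic Ψ (2 * π * Complex.I) := hper
  rw [hn]
  exact hP.int_mul n w

theorem slit_ae : (Complex.slitPlane : Set ℂ) =ᵐ[volume] Set.univ := by
  have A : (Complex.slitPlane : Set ℂ)ᶜ ⊆ LinearMap.ker Complex.imLm := by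
    intro x hx
    simp only [Set.mem_compl_iff, Complex.mem_slitPlane_iff, not_or, not_not] at hx
    exact hx.2
  have B : volume (LinearMap.ker Complex.imLm : Set ℂ) = 0 := by
    apply Measure.addHaar_submodule
    rw [Ne, LinearMap.ker_eq_top]
    intro h
    have : Complex.imLm Complex.I = (0 : ℂ →ₗ[ℝ] ℝ) Complex.I := by rw [h]
    simp at this
  simp only [ae_eq_univ]
  exact le_antisymm ((measure_mono A).trans (le_of_eq B)) bot_le

theorem image_strip : Complex.exp '' strip = Complex.slitPlane := by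
  ext z
  constructor
  · rintro ⟨w, hw, rfl⟩
    exact Complex.expOpenPartialHomeomorph.map_source hw
  · intro hz
    refine ⟨Complex.log z, ?_, Complex.exp_log (Complex.slitPlane_ne_zero hz)⟩
    exact Complex.expOpenPartialHomeomorph.map_target hz

theorem isOpen_strip : IsOpen strip := isOpen_Ioo.preimage Complex.continuous_im

/-- the real derivative of `exp` -/
noncomputable def dexp (w : ℂ) : ℂ →L[ℝ] ℂ :=
  ((Complex.exp w) • (1 : ℂ →L[ℂ] ℂ)).restrictScalars ℝ

theorem dexp_apply (w h : ℂ) : dexp w h = Complex.exp w * h := by simp [dexp]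

theorem hasFDerivAt_exp (w : ℂ) : HasFDerivAt (𝕜 := ℝ) Complex.exp (dexp w) w := by
  have h := (Complex.hasDerivAt_exp w).hasFDerivAt.restrictScalars ℝ
  have e : ContinuousLinearMap.restrictScalars ℝ
      (ContinuousLinearMap.toSpanSingleton ℂ (Complex.exp w)) = dexp w := by
    refine ContinuousLinearMap.ext fun v => ?_
    rw [dexp_apply]
    simp [mul_comm]
  rw [← e]
  exact h

theorem det_dexp (w : ℂ) : (dexp w).det = ‖Complex.exp w‖ ^ 2 := by
  have h : (dexp w).det = LinearMap.det (LinearMap.restrictScalars ℝ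
      ((Complex.exp w) • (LinearMap.id : ℂ →ₗ[ℂ] ℂ))) := rfl
  rw [h, LinearMap.det_restrictScalars, LinearMap.det_smul]
  simp [Algebra.norm_complex_eq, Complex.normSq_eq_norm_sq]

theorem dirE_exp {φ : ℂ → ℝ} {w : ℂ} (hφ : DifferentiableAt ℝ φ (Complex.exp w)) :
    dirE (fun w => φ (Complex.exp w)) w = ‖Complex.exp w‖ ^ 2 * dirE φ (Complex.exp w) := by
  have h1 : HasFDerivAt (fun w => φ (Complex.exp w))
      ((fderiv ℝ φ (Complex.exp w)).comp (dexp w)) w :=
    hφ.hasFDerivAt.comp w (hasFDerivAt_exp w)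
  unfold dirE
  rw [h1.fderiv]
  set L := fderiv ℝ φ (Complex.exp w) with hL
  set c := Complex.exp w with hc
  have e1 : (L.comp (dexp w)) 1 = c.re * L 1 + c.im * L Complex.I := by
    rw [ContinuousLinearMap.comp_apply, dexp_apply, mul_one, ← hc]
    conv_lhs => rw [show c = c.re • (1 : ℂ) + c.im • Complex.I by
      apply Complex.ext <;> simp]
    rw [map_add, map_smul, map_smul, smul_eq_mul, smul_eq_mul]
  have e2 : (L.comp (dexp w)) Complex.I = -c.im * L 1 + c.re * L Complex.I := by
    rw [ContinuousLinearMap.comp_apply, dexp_apply, ← hc]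
    conv_lhs => rw [show c * Complex.I = (-c.im) • (1 : ℂ) + c.re • Complex.I by
      apply Complex.ext <;> simp]
    rw [map_add, map_smul, map_smul, smul_eq_mul, smul_eq_mul]
  rw [e1, e2, ← Complex.normSq_eq_norm_sq, Complex.normSq_apply]
  ring

end ExpChange

open ExpChange MeasureTheory in
theorem exists_phi (Ψ : ℂ → ℝ) (hΨ : ContDiff ℝ 1 Ψ)
    (hper : ∀ w, Ψ (w + 2 * π * Complex.I) = Ψ w) (T : ℝ) (hT : 0 < T)
    (hsupp : ∀ w : ℂ, T ≤ |w.re| → Ψ w = 0) :
    ∃ φ : ℂ → ℝ, ContDiff ℝ 1 φ ∧ HasCompactSupport φ ∧ (∀ w, φ (Complex.exp w) = Ψ w) ∧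
      (∀ z, ‖z‖ ≤ Real.exp (-T) → φ z = 0) ∧
      (∫ z, dirE φ z = ∫ w in strip, dirE Ψ w) ∧
      Real.circleAverage φ 0 1 = (2 * π)⁻¹ * ∫ x in (-π)..π, Ψ (x * Complex.I) := by
  set φ : ℂ → ℝ := fun z => if z = 0 then 0 else Ψ (Complex.log z) with hφdef
  have hexp : ∀ w, φ (Complex.exp w) = Ψ w := by
    intro w
    simp only [hφdef, Complex.exp_ne_zero, if_false]
    exact per_int hper (Complex.exp_log (Complex.exp_ne_zero w))
  have hsmall : ∀ z, ‖z‖ ≤ Real.exp (-T) → φ z = 0 := by
    intro z hz
    by_cases h0 : z = 0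
    · simp [hφdef, h0]
    · simp only [hφdef, h0, if_false]
      apply hsupp
      rw [Complex.log_re]
      have h1 : Real.log ‖z‖ ≤ -T := by
        rw [Real.log_le_iff_le_exp (norm_pos_iff.2 h0)]
        exact hz
      rw [abs_of_nonpos (by linarith)]
      linarith
  have hbig : ∀ z, Real.exp T ≤ ‖z‖ → φ z = 0 := by
    intro z hz
    have hzp : 0 < ‖z‖ := lt_of_lt_of_le (Real.exp_pos T) hz
    have h0 : z ≠ 0 := norm_pos_iff.1 hzp
    simp only [hφdef, h0, if_false]
    apply hsupp
    rw [Complex.log_re]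
    have h1 : T ≤ Real.log ‖z‖ := by
      rw [Real.le_log_iff_exp_le hzp]
      exact hz
    rw [abs_of_nonneg (by linarith)]
    exact h1
  have hcd : ContDiff ℝ 1 φ := by
    rw [contDiff_iff_contDiffAt]
    intro z₀
    by_cases h0 : z₀ = 0
    · have hev : φ =ᶠ[nhds z₀] fun _ => (0 : ℝ) := by
        rw [h0]
        filter_upwards [Metric.ball_mem_nhds (0 : ℂ) (Real.exp_pos (-T))] with z hz
        apply hsmall
        rw [mem_ball_zero_iff] at hz
        exact hz.le
      exact contDiffAt_const.congr_of_eventuallyEq hev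
    · have hev : φ =ᶠ[nhds z₀] fun z => Ψ (Complex.log (z / z₀) + Complex.log z₀) := by
        filter_upwards [isOpen_ne.mem_nhds h0] with z hz
        have e : Complex.exp (Complex.log (z / z₀) + Complex.log z₀) = z := by
          rw [Complex.exp_add, Complex.exp_log (div_ne_zero hz h0), Complex.exp_log h0]
          field_simp
        conv_lhs => rw [← e]
        exact hexp _
      refine ContDiffAt.congr_of_eventuallyEq ?_ hev
      have h1 : ContDiffAt ℝ 1 (fun z : ℂ => Complex.log (z / z₀)) z₀ := by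
        have h2 : ContDiffAt ℂ 1 Complex.log (z₀ / z₀) := by
          apply Complex.contDiffAt_log
          rw [div_self h0]
          exact Complex.one_mem_slitPlane
        have h3 : ContDiffAt ℂ 1 (fun z : ℂ => Complex.log (z / z₀)) z₀ :=
          ContDiffAt.comp (g := Complex.log) (f := fun z : ℂ => z / z₀) z₀ h2
            (contDiffAt_id.div_const z₀)
        exact h3.restrict_scalars ℝ
      exact hΨ.contDiffAt.comp z₀ (h1.add contDiffAt_const)
  refine ⟨φ, hcd, ?_, hexp, hsmall, ?_, ?_⟩
  · refine HasCompactSupport.intro (isCompact_closedBall (0 : ℂ) (Real.exp T)) ?_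
    intro z hz
    apply hbig
    rw [mem_closedBall_zero_iff, not_le] at hz
    exact hz.le
  · have hd : Differentiable ℝ φ := hcd.differentiable (by norm_num)
    have hΨe : Ψ = fun w => φ (Complex.exp w) := by
      funext w
      exact (hexp w).symm
    have key := integral_image_eq_integral_abs_det_fderiv_smul (μ := volume)
      (s := strip) (f := Complex.exp) (f' := dexp) isOpen_strip.measurableSet
      (fun x _ => (hasFDerivAt_exp x).hasFDerivWithinAt)
      (Complex.expOpenPartialHomeomorph.injOn) (dirE φ)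
    rw [image_strip] at key
    calc ∫ z, dirE φ z = ∫ z in Complex.slitPlane, dirE φ z := by
          rw [setIntegral_congr_set slit_ae, setIntegral_univ]
      _ = ∫ w in strip, |(dexp w).det| • dirE φ (Complex.exp w) := key
      _ = ∫ w in strip, dirE Ψ w := by
          refine setIntegral_congr_fun isOpen_strip.measurableSet ?_
          intro w _
          change |(dexp w).det| • dirE φ (Complex.exp w) = dirE Ψ w
          rw [hΨe, dirE_exp (hd _), det_dexp, abs_of_nonneg (by positivity), smul_eq_mul]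
  · rw [Real.circleAverage_eq_integral_add (η := -π), smul_eq_mul]
    congr 1
    rw [intervalIntegral.integral_comp_add_right (f := fun θ => φ (circleMap 0 1 θ))]
    have : (0 : ℝ) + -π = -π := by ring
    rw [this, show 2 * π + -π = π by ring]
    refine intervalIntegral.integral_congr ?_
    intro x _
    simp only [circleMap, Complex.ofReal_one, one_mul, zero_add]
    exact hexp _

end H904L2
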