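import Pool.Agent.H904L2.Defs

open Polynomial
open scoped Real

namespace H904L2

namespace ProfInt

theorem hasDerivAt_sq (t : ℝ) : HasDerivAt (fun s : ℝ => (max s 0) ^ 2) (2 * max t 0) t := by
  rcases lt_trichotomy t 0 with h | h | h
  · have e : (fun s : ℝ => (max s 0) ^ 2) =ᶠ[nhds t] fun _ => (0 : ℝ) := by
      filter_upwards [gt_mem_nhds h] with s hs
      rw [max_eq_right hs.le]
      simp
    rw [max_eq_right h.le, mul_zero]
    exact (hasDerivAt_const t (0 : ℝ)).congr_of_eventuallyEq e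
  · subst h
    rw [max_self, mul_zero, hasDerivAt_iff_tendsto_slope]
    have e : ∀ s ∈ ({0}ᶜ : Set ℝ), max s 0 = slope (fun s : ℝ => (max s 0) ^ 2) 0 s := by
      intro s hs
      have hs0 : s ≠ 0 := hs
      rw [slope_def_field]
      rcases le_total s 0 with h | h
      · rw [max_eq_right h]; simp
      · rw [max_eq_left h]; field_simp; simp [sq]
    have h1 : Filter.Tendsto (fun s : ℝ => max s 0) (nhdsWithin 0 {0}ᶜ) (nhds 0) := by
      have : Continuous (fun s : ℝ => max s 0) := by fun_prop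
      have h2 := this.tendsto 0
      rw [max_self] at h2
      exact h2.mono_left nhdsWithin_le_nhds
    exact h1.congr' (Filter.eventuallyEq_of_mem self_mem_nhdsWithin e)
  · have e : (fun s : ℝ => (max s 0) ^ 2) =ᶠ[nhds t] fun s => s ^ 2 := by
      filter_upwards [lt_mem_nhds h] with s hs
      rw [max_eq_left hs.le]
    rw [max_eq_left h.le]
    have := hasDerivAt_pow 2 t
    simp only [Nat.cast_ofNat, Nat.add_one_sub_one, pow_one] at this
    exact this.congr_of_eventuallyEq e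

theorem Apr_hasDerivAt (x : ℝ) : HasDerivAt Apr (-4 * x * max (1 - x ^ 2) 0) x := by
  have h1 : HasDerivAt (fun x : ℝ => 1 - x ^ 2) (-(2 * x)) x := by
    have := (hasDerivAt_pow 2 x).const_sub 1
    simpa using this
  have h2 := (hasDerivAt_sq (1 - x ^ 2)).comp x h1
  have : HasDerivAt Apr (2 * max (1 - x ^ 2) 0 * -(2 * x)) x := h2
  convert this using 1
  ring

theorem Apr_deriv : deriv Apr = fun x => -4 * x * max (1 - x ^ 2) 0 :=
  funext fun x => (Apr_hasDerivAt x).deriv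

theorem Bpr_hasDerivAt (x : ℝ) : HasDerivAt Bpr
    (-2 * ((x - 1) / 2) * max (1 - ((x - 1) / 2) ^ 2) 0) x := by
  have h1 : HasDerivAt (fun x : ℝ => (x - 1) / 2) (1 / 2) x :=
    ((hasDerivAt_id x).sub_const 1).div_const 2
  have h2 := (Apr_hasDerivAt ((x - 1) / 2)).comp x h1
  have : HasDerivAt Bpr (-4 * ((x - 1) / 2) * max (1 - ((x - 1) / 2) ^ 2) 0 * (1 / 2)) x := h2
  convert this using 1
  ring

theorem Bpr_deriv : deriv Bpr = fun x => -2 * ((x - 1) / 2) * max (1 - ((x - 1) / 2) ^ 2) 0 :=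
  funext fun x => (Bpr_hasDerivAt x).deriv

end ProfInt

open ProfInt

theorem Apr_contDiff : ContDiff ℝ 1 Apr := by
  rw [contDiff_one_iff_deriv]
  refine ⟨fun x => (Apr_hasDerivAt x).differentiableAt, ?_⟩
  rw [Apr_deriv]
  fun_prop

theorem Apr_integral :
    ∫ x in (-1 : ℝ)..1, ((deriv Apr x) ^ 2 + (Apr x - x * deriv Apr x) ^ 2) = 512 / 105 := by
  have h1 : ∫ x in (-1 : ℝ)..1, ((deriv Apr x) ^ 2 + (Apr x - x * deriv Apr x) ^ 2) =
      ∫ x in (-1 : ℝ)..1, (1 + 20 * x ^ 2 - 34 * x ^ 4 + 4 * x ^ 6 + 9 * x ^ 8) := by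
    apply intervalIntegral.integral_congr
    intro x hx
    rw [Set.uIcc_of_le (by norm_num)] at hx
    have h0 : 0 ≤ 1 - x ^ 2 := by nlinarith [hx.1, hx.2]
    simp only [Apr_deriv, Apr, max_eq_left h0]
    ring
  rw [h1]
  have h2 : ∀ x ∈ Set.uIcc (-1 : ℝ) 1, HasDerivAt
      (fun x : ℝ => x + 20 / 3 * x ^ 3 - 34 / 5 * x ^ 5 + 4 / 7 * x ^ 7 + x ^ 9)
      (1 + 20 * x ^ 2 - 34 * x ^ 4 + 4 * x ^ 6 + 9 * x ^ 8) x := by
    intro x _
    have := ((((hasDerivAt_id x).add ((hasDerivAt_pow 3 x).const_mul (20 / 3))).sub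
      ((hasDerivAt_pow 5 x).const_mul (34 / 5))).add ((hasDerivAt_pow 7 x).const_mul (4 / 7))).add
      (hasDerivAt_pow 9 x)
    exact this.congr_deriv (by push_cast; ring)
  rw [intervalIntegral.integral_eq_sub_of_hasDerivAt h2 (by
    apply Continuous.intervalIntegrable; fun_prop)]
  norm_num

theorem Bpr_integral :
    ∫ x in (-3 : ℝ)..3, ((deriv Bpr x) ^ 2 + (Bpr x - x * deriv Bpr x) ^ 2) = 256 / 35 := by
  have hc : Continuous fun x => (deriv Bpr x) ^ 2 + (Bpr x - x * deriv Bpr x) ^ 2 := by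
    have e : Bpr = fun x => (max (1 - ((x - 1) / 2) ^ 2) 0) ^ 2 := rfl
    rw [Bpr_deriv, e]
    fun_prop
  rw [← intervalIntegral.integral_add_adjacent_intervals (b := (-1 : ℝ))
    (hc.intervalIntegrable _ _) (hc.intervalIntegrable _ _)]
  have h0 : ∫ x in (-3 : ℝ)..(-1), ((deriv Bpr x) ^ 2 + (Bpr x - x * deriv Bpr x) ^ 2) = 0 := by
    have : ∫ x in (-3 : ℝ)..(-1), ((deriv Bpr x) ^ 2 + (Bpr x - x * deriv Bpr x) ^ 2) =
        ∫ x in (-3 : ℝ)..(-1), (0 : ℝ) := by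
      apply intervalIntegral.integral_congr
      intro x hx
      rw [Set.uIcc_of_le (by norm_num)] at hx
      have h0 : 1 - ((x - 1) / 2) ^ 2 ≤ 0 := by nlinarith [hx.1, hx.2]
      have e : Bpr x = (max (1 - ((x - 1) / 2) ^ 2) 0) ^ 2 := rfl
      simp only [Bpr_deriv, e, max_eq_right h0]
      ring
    rw [this, intervalIntegral.integral_zero]
  have h1 : ∫ x in (-1 : ℝ)..3, ((deriv Bpr x) ^ 2 + (Bpr x - x * deriv Bpr x) ^ 2) =
      ∫ x in (-1 : ℝ)..3, (1 + 4 * ((x - 1) / 2) + 12 * ((x - 1) / 2) ^ 2 +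
        4 * ((x - 1) / 2) ^ 3 - 18 * ((x - 1) / 2) ^ 4 - 20 * ((x - 1) / 2) ^ 5 -
        4 * ((x - 1) / 2) ^ 6 + 12 * ((x - 1) / 2) ^ 7 + 9 * ((x - 1) / 2) ^ 8) := by
    apply intervalIntegral.integral_congr
    intro x hx
    rw [Set.uIcc_of_le (by norm_num)] at hx
    have h0 : 0 ≤ 1 - ((x - 1) / 2) ^ 2 := by nlinarith [hx.1, hx.2]
    have e : Bpr x = (max (1 - ((x - 1) / 2) ^ 2) 0) ^ 2 := rfl
    simp only [Bpr_deriv, e, max_eq_left h0]
    ring
  rw [h0, h1]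
  have h2 : ∀ x ∈ Set.uIcc (-1 : ℝ) 3, HasDerivAt
      (fun x : ℝ => 2 * (((x - 1) / 2) + 2 * ((x - 1) / 2) ^ 2 + 4 * ((x - 1) / 2) ^ 3 +
        ((x - 1) / 2) ^ 4 - 18 / 5 * ((x - 1) / 2) ^ 5 - 10 / 3 * ((x - 1) / 2) ^ 6 -
        4 / 7 * ((x - 1) / 2) ^ 7 + 3 / 2 * ((x - 1) / 2) ^ 8 + ((x - 1) / 2) ^ 9))
      (1 + 4 * ((x - 1) / 2) + 12 * ((x - 1) / 2) ^ 2 +
        4 * ((x - 1) / 2) ^ 3 - 18 * ((x - 1) / 2) ^ 4 - 20 * ((x - 1) / 2) ^ 5 -
        4 * ((x - 1) / 2) ^ 6 + 12 * ((x - 1) / 2) ^ 7 + 9 * ((x - 1) / 2) ^ 8) x := by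
    intro x _
    have hy : HasDerivAt (fun x : ℝ => (x - 1) / 2) (1 / 2) x :=
      ((hasDerivAt_id x).sub_const 1).div_const 2
    have := (((((((((hy.add ((hy.pow 2).const_mul 2)).add ((hy.pow 3).const_mul 4)).add
      (hy.pow 4)).sub ((hy.pow 5).const_mul (18 / 5))).sub ((hy.pow 6).const_mul (10 / 3))).sub
      ((hy.pow 7).const_mul (4 / 7))).add ((hy.pow 8).const_mul (3 / 2))).add
      (hy.pow 9))).const_mul 2
    exact this.congr_deriv (by push_cast; ring)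
  rw [intervalIntegral.integral_eq_sub_of_hasDerivAt h2 (by
    apply Continuous.intervalIntegrable; fun_prop)]
  norm_num

end H904L2
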