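import Pool.Agent.H904L2.Defs

open Polynomial
open scoped Real

namespace H904L2

namespace Profile

open MeasureTheory

/-- the majorant of the Dirichlet density in the rescaled variable -/
noncomputable def gB (B : ℝ → ℝ) (x : ℝ) : ℝ := (deriv B x) ^ 2 + (B x - x * deriv B x) ^ 2

theorem deriv_zero_of_ge (B : ℝ → ℝ) (hB : ContDiff ℝ 1 B) (m : ℝ)
    (hBm : ∀ x, m ≤ |x| → B x = 0) (x : ℝ) (hx : m ≤ |x|) : deriv B x = 0 := by
  have hcont : Continuous (deriv B) := hB.continuous_deriv le_rfl
  have hopen : ∀ y : ℝ, m < |y| → deriv B y = 0 := by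
    intro y hy
    have h1 : B =ᶠ[nhds y] fun _ => (0 : ℝ) := by
      have : {z : ℝ | m < |z|} ∈ nhds y :=
        (isOpen_lt continuous_const continuous_abs).mem_nhds hy
      filter_upwards [this] with z hz
      exact hBm z (le_of_lt hz)
    rw [h1.deriv_eq]
    simp
  -- `x` is a limit of points with larger absolute value
  have h2 : Filter.Tendsto (fun t : ℝ => deriv B (x + t * (if 0 ≤ x then 1 else -1)))
      (nhdsWithin 0 (Set.Ioi 0)) (nhds (deriv B (x + 0 * (if 0 ≤ x then 1 else -1)))) := by
    have : Continuous fun t : ℝ => deriv B (x + t * (if 0 ≤ x then 1 else -1)) := by fun_prop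
    exact (this.tendsto 0).mono_left nhdsWithin_le_nhds
  have h3 : Filter.Tendsto (fun t : ℝ => deriv B (x + t * (if 0 ≤ x then 1 else -1)))
      (nhdsWithin 0 (Set.Ioi 0)) (nhds 0) := by
    refine Filter.Tendsto.congr' ?_ tendsto_const_nhds
    filter_upwards [self_mem_nhdsWithin] with t ht
    symm
    apply hopen
    have ht0 : 0 < t := ht
    by_cases h0 : 0 ≤ x
    · rw [if_pos h0, abs_of_nonneg (by positivity)]
      rw [abs_of_nonneg h0] at hx
      linarith
    · rw [if_neg h0]
      have hx0 : x < 0 := not_le.mp h0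
      rw [abs_of_neg (by linarith)]
      rw [abs_of_neg hx0] at hx
      linarith
  have h4 := tendsto_nhds_unique h2 h3
  simpa using h4

theorem gB_zero (B : ℝ → ℝ) (hB : ContDiff ℝ 1 B) (m : ℝ)
    (hBm : ∀ x, m ≤ |x| → B x = 0) (x : ℝ) (hx : m ≤ |x|) : gB B x = 0 := by
  unfold gB
  rw [deriv_zero_of_ge B hB m hBm x hx, hBm x hx]
  simp

theorem gB_cont (B : ℝ → ℝ) (hB : ContDiff ℝ 1 B) : Continuous (gB B) := by
  have hcont : Continuous (deriv B) := hB.continuous_deriv le_rfl
  have hBc : Continuous B := hB.continuous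
  unfold gB
  fun_prop

end Profile

open Profile MeasureTheory

/-! G2 -/
theorem prof_contDiff (B S : ℝ → ℝ) (hB : ContDiff ℝ 1 B) (hS : ContDiff ℝ 1 S)
    (hpos : ∀ x, 0 < S x) : ContDiff ℝ 1 (prof B S) := by
  have hre : ContDiff ℝ 1 (fun w : ℂ => w.re) := Complex.reCLM.contDiff
  have him : ContDiff ℝ 1 (fun w : ℂ => w.im) := Complex.imCLM.contDiff
  have hSi : ContDiff ℝ 1 (fun w : ℂ => S w.im) := hS.comp him
  unfold prof
  exact hSi.mul (hB.comp (hre.div hSi fun w => (hpos w.im).ne'))

namespace Profile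

theorem dirE_prof (B S : ℝ → ℝ) (hB : ContDiff ℝ 1 B) (hS : ContDiff ℝ 1 S)
    (hpos : ∀ x, 0 < S x) (w : ℂ) :
    dirE (prof B S) w = (deriv B (w.re / S w.im)) ^ 2 +
      (deriv S w.im * (B (w.re / S w.im) - w.re / S w.im * deriv B (w.re / S w.im))) ^ 2 := by
  have hd : DifferentiableAt ℝ (prof B S) w :=
    (prof_contDiff B S hB hS hpos).contDiffAt.differentiableAt one_ne_zero
  have hSd : DifferentiableAt ℝ S w.im := hS.contDiffAt.differentiableAt one_ne_zero
  have hBd : DifferentiableAt ℝ B (w.re / S w.im) := hB.contDiffAt.differentiableAt one_ne_zero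
  have hs := (hpos w.im).ne'
  have h1 : fderiv ℝ (prof B S) w 1 = deriv B (w.re / S w.im) := by
    rw [← hd.lineDeriv_eq_fderiv]
    unfold lineDeriv
    have : HasDerivAt (fun t : ℝ => prof B S (w + t • (1 : ℂ))) (deriv B (w.re / S w.im)) 0 := by
      have e : (fun t : ℝ => prof B S (w + t • (1 : ℂ))) =
          fun t : ℝ => S w.im * B ((w.re + t) / S w.im) := by
        funext t
        simp [prof]
      rw [e]
      have h2 : HasDerivAt (fun t : ℝ => (w.re + t) / S w.im) (1 / S w.im) 0 := by
        exact ((hasDerivAt_id (0 : ℝ)).const_add w.re).div_const _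
      have h3 : HasDerivAt B (deriv B (w.re / S w.im)) ((w.re + 0) / S w.im) := by
        simpa using hBd.hasDerivAt
      have h4 := (h3.comp (0 : ℝ) h2).const_mul (S w.im)
      refine h4.congr_deriv ?_
      field_simp
    exact this.deriv
  have h2 : fderiv ℝ (prof B S) w Complex.I =
      deriv S w.im * (B (w.re / S w.im) - w.re / S w.im * deriv B (w.re / S w.im)) := by
    rw [← hd.lineDeriv_eq_fderiv]
    unfold lineDeriv
    have : HasDerivAt (fun t : ℝ => prof B S (w + t • Complex.I))
        (deriv S w.im * (B (w.re / S w.im) - w.re / S w.im * deriv B (w.re / S w.im))) 0 := by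
      have e : (fun t : ℝ => prof B S (w + t • Complex.I)) =
          fun t : ℝ => S (w.im + t) * B (w.re / S (w.im + t)) := by
        funext t
        simp [prof]
      rw [e]
      have h3 : HasDerivAt (fun t : ℝ => S (w.im + t)) (deriv S w.im) 0 := by
        have h30 : HasDerivAt S (deriv S w.im) (w.im + 0) := by simpa using hSd.hasDerivAt
        have h31 := h30.comp (0 : ℝ) ((hasDerivAt_id (0 : ℝ)).const_add w.im)
        have h32 := h31.congr_deriv (mul_one _)
        exact h32
      have h4 : HasDerivAt (fun t : ℝ => w.re / S (w.im + t))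
          (-(w.re * deriv S w.im) / S w.im ^ 2) 0 := by
        have h40 := (hasDerivAt_const (0 : ℝ) w.re).div h3 (by simpa using hs)
        refine h40.congr_deriv ?_
        simp
      have h5 : HasDerivAt B (deriv B (w.re / S w.im)) (w.re / S (w.im + 0)) := by
        simpa using hBd.hasDerivAt
      have h6 := h3.mul (h5.comp (0 : ℝ) h4)
      refine h6.congr_deriv ?_
      simp only [Function.comp_apply, add_zero]
      field_simp
      ring
    exact this.deriv
  unfold dirE
  rw [h1, h2]

theorem dirE_le (B S : ℝ → ℝ) (hB : ContDiff ℝ 1 B) (hS : ContDiff ℝ 1 S)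
    (hpos : ∀ x, 0 < S x) (hder : ∀ x, |deriv S x| ≤ 1) (w : ℂ) :
    dirE (prof B S) w ≤ gB B (w.re / S w.im) := by
  rw [dirE_prof B S hB hS hpos, gB, mul_pow]
  have h1 : (deriv S w.im) ^ 2 ≤ 1 := by
    rw [← sq_abs]
    have := abs_nonneg (deriv S w.im)
    have := hder w.im
    nlinarith
  have h2 := sq_nonneg (B (w.re / S w.im) - w.re / S w.im * deriv B (w.re / S w.im))
  nlinarith

/-- a continuous function on the plane vanishing for `m * S im ≤ |re|` is integrable on the
strip -/
theorem integrableOn_strip (S : ℝ → ℝ) (hS : Continuous S) (m : ℝ)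
    (F : ℂ → ℝ) (hF : Continuous F) (hF0 : ∀ w : ℂ, m * S w.im ≤ |w.re| → F w = 0) :
    IntegrableOn F strip := by
  obtain ⟨M, hM⟩ : ∃ M : ℝ, ∀ y ∈ Set.Icc (-π) π, m * S y ≤ M := by
    obtain ⟨M, hM⟩ := (isCompact_Icc (a := -π) (b := π)).bddAbove_image
      (f := fun y => m * S y) (by fun_prop)
    exact ⟨M, fun y hy => hM ⟨y, hy, rfl⟩⟩
  set K : Set ℂ := Set.Icc (-M) M ×ℂ Set.Icc (-π) π with hK
  have hKc : IsCompact K := isCompact_Icc.reProdIm isCompact_Icc
  have h1 : IntegrableOn F (strip ∩ K) :=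
    (hF.continuousOn.integrableOn_compact hKc).mono_set Set.inter_subset_right
  have h2 : IntegrableOn F (strip \ K) := by
    have hz : Set.EqOn (fun _ : ℂ => (0 : ℝ)) F (strip \ K) := by
      intro w hw
      symm
      apply hF0
      obtain ⟨hw1, hw2⟩ := hw
      have hw1' : w.im ∈ Set.Ioo (-π) π := hw1
      have hw3 : ¬ |w.re| ≤ M := by
        intro hle
        apply hw2
        rw [hK, Complex.mem_reProdIm]
        exact ⟨abs_le.mp hle, ⟨hw1'.1.le, hw1'.2.le⟩⟩
      have := hM w.im ⟨hw1'.1.le, hw1'.2.le⟩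
      linarith [not_le.mp hw3]
    have hmeas : MeasurableSet (strip \ K) := by
      refine MeasurableSet.diff ?_ hKc.isClosed.measurableSet
      exact measurableSet_Ioo.preimage Complex.measurable_im
    exact (integrableOn_zero (μ := volume)).congr_fun hz hmeas
  have := h1.union h2
  rwa [Set.inter_union_sdiff] at this

end Profile

theorem prof_integral (B S : ℝ → ℝ) (hB : ContDiff ℝ 1 B) (m : ℝ)
    (hBm : ∀ x, m ≤ |x| → B x = 0) (hS : ContDiff ℝ 1 S) (hpos : ∀ x, 0 < S x)
    (hder : ∀ x, |deriv S x| ≤ 1) :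
    MeasureTheory.IntegrableOn (dirE (prof B S)) strip ∧
    ∫ w in strip, dirE (prof B S) w ≤
      (∫ x in (-m)..m, ((deriv B x) ^ 2 + (B x - x * deriv B x) ^ 2)) * ∫ x in (-π)..π, S x := by
  have hSc : Continuous S := hS.continuous
  have hgc : Continuous (gB B) := gB_cont B hB
  -- support condition
  have hsup : ∀ w : ℂ, m * S w.im ≤ |w.re| → m ≤ |w.re / S w.im| := by
    intro w hw
    rw [abs_div, abs_of_pos (hpos w.im), le_div_iff₀ (hpos w.im)]
    exact hw
  have hGcont : Continuous fun w : ℂ => gB B (w.re / S w.im) := by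
    refine hgc.comp ?_
    exact Complex.continuous_re.div (hSc.comp Complex.continuous_im) fun w => (hpos w.im).ne'
  have hG0 : ∀ w : ℂ, m * S w.im ≤ |w.re| → gB B (w.re / S w.im) = 0 := fun w hw =>
    gB_zero B hB m hBm _ (hsup w hw)
  have hGint : IntegrableOn (fun w : ℂ => gB B (w.re / S w.im)) strip :=
    integrableOn_strip S hSc m _ hGcont hG0
  have hDcont : Continuous (dirE (prof B S)) := by
    have hcd := prof_contDiff B S hB hS hpos
    have h1 : Continuous (fderiv ℝ (prof B S)) := hcd.continuous_fderiv one_ne_zero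
    unfold dirE
    exact ((h1.clm_apply continuous_const).pow 2).add ((h1.clm_apply continuous_const).pow 2)
  have hD0 : ∀ w : ℂ, m * S w.im ≤ |w.re| → dirE (prof B S) w = 0 := by
    intro w hw
    have h1 := dirE_le B S hB hS hpos hder w
    rw [hG0 w hw] at h1
    have h2 : 0 ≤ dirE (prof B S) w := by unfold dirE; positivity
    linarith
  have hDint : IntegrableOn (dirE (prof B S)) strip :=
    integrableOn_strip S hSc m _ hDcont hD0
  refine ⟨hDint, ?_⟩
  have hle : ∫ w in strip, dirE (prof B S) w ≤ ∫ w in strip, gB B (w.re / S w.im) :=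
    setIntegral_mono hDint hGint fun w => dirE_le B S hB hS hpos hder w
  refine hle.trans (le_of_eq ?_)
  -- Fubini
  have hpre : strip = Complex.measurableEquivRealProd ⁻¹' (Set.univ ×ˢ Set.Ioo (-π) π) := by
    ext w
    simp [strip, Complex.measurableEquivRealProd]
  have hcomp : (fun w : ℂ => gB B (w.re / S w.im)) =
      (fun p : ℝ × ℝ => gB B (p.1 / S p.2)) ∘ Complex.measurableEquivRealProd := by
    funext w
    simp [Complex.measurableEquivRealProd]
  have hmp := Complex.volume_preserving_equiv_real_prod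
  have hprodint : IntegrableOn (fun p : ℝ × ℝ => gB B (p.1 / S p.2))
      (Set.univ ×ˢ Set.Ioo (-π) π) := by
    rw [hpre, hcomp] at hGint
    exact (hmp.integrableOn_comp_preimage
      Complex.measurableEquivRealProd.measurableEmbedding).mp hGint
  have e1 : ∫ w in strip, gB B (w.re / S w.im) =
      ∫ p in Set.univ ×ˢ Set.Ioo (-π) π, gB B (p.1 / S p.2) := by
    rw [hpre]
    have := hmp.setIntegral_preimage_emb Complex.measurableEquivRealProd.measurableEmbedding
      (fun p : ℝ × ℝ => gB B (p.1 / S p.2)) (Set.univ ×ˢ Set.Ioo (-π) π)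
    rw [← this]
    rfl
  rw [e1]
  have e2 : ∫ p in Set.univ ×ˢ Set.Ioo (-π) π, gB B (p.1 / S p.2) =
      ∫ y in Set.Ioo (-π) π, ∫ x, gB B (x / S y) := by
    have hm : (volume : Measure (ℝ × ℝ)).restrict (Set.univ ×ˢ Set.Ioo (-π) π) =
        (volume : Measure ℝ).prod ((volume : Measure ℝ).restrict (Set.Ioo (-π) π)) := by
      rw [Measure.volume_eq_prod, ← Measure.prod_restrict, Measure.restrict_univ]
    rw [hm]
    rw [IntegrableOn, hm] at hprodint
    rw [integral_prod_symm _ hprodint]
  rw [e2]
  have e3 : ∀ y : ℝ, ∫ x, gB B (x / S y) = S y * ∫ x, gB B x := by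
    intro y
    rw [Measure.integral_comp_div (fun x => gB B x) (S y), abs_of_pos (hpos y), smul_eq_mul]
  simp_rw [e3]
  rw [integral_mul_const]
  have e4 : ∫ x, gB B x = ∫ x in (-m)..m, ((deriv B x) ^ 2 + (B x - x * deriv B x) ^ 2) := by
    by_cases hm : 0 ≤ m
    · rw [intervalIntegral.integral_of_le (by linarith)]
      change _ = ∫ x in Set.Ioc (-m) m, gB B x
      symm
      apply setIntegral_eq_integral_of_forall_compl_eq_zero
      intro x hx
      apply gB_zero B hB m hBm
      by_contra hlt
      have h1 := abs_lt.mp (not_le.mp hlt)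
      exact hx ⟨h1.1, h1.2.le⟩
    · have hall : ∀ x, gB B x = 0 := fun x =>
        gB_zero B hB m hBm x (le_trans (le_of_lt (not_le.mp hm)) (abs_nonneg x))
      have h1 : (fun x => (deriv B x) ^ 2 + (B x - x * deriv B x) ^ 2) = fun _ => (0 : ℝ) := by
        funext x
        exact hall x
      have h2 : (fun x => gB B x) = fun _ => (0 : ℝ) := by
        funext x
        exact hall x
      rw [h1, h2]
      simp
  rw [e4, mul_comm]
  congr 1
  rw [intervalIntegral.integral_of_le (by linarith [Real.pi_pos]), integral_Ioc_eq_integral_Ioo]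

end H904L2
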