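import Pool.Agent.H904L2.Envelope
import Pool.Agent.H904L2.Profile
import Pool.Agent.H904L2.ProfInt

open scoped Real

namespace H904L2

namespace Psi

theorem Apr_nonneg (x : ℝ) : 0 ≤ Apr x := by
  unfold Apr
  positivity

theorem Apr_le_one (x : ℝ) : Apr x ≤ 1 := by
  unfold Apr
  have h1 : max (1 - x ^ 2) 0 ≤ 1 := max_le (by nlinarith [sq_nonneg x]) zero_le_one
  have h0 : 0 ≤ max (1 - x ^ 2) 0 := le_max_right _ _
  nlinarith

theorem Apr_zero_of (x : ℝ) (h : 1 ≤ |x|) : Apr x = 0 := by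
  unfold Apr
  have : 1 ≤ x ^ 2 := by nlinarith [sq_abs x, abs_nonneg x]
  rw [max_eq_right (by linarith)]
  norm_num

theorem Bpr_zero_of (x : ℝ) (h : 3 ≤ |x|) : Bpr x = 0 := by
  apply Apr_zero_of
  rcases le_or_gt 0 x with hx | hx
  · rw [abs_of_nonneg hx] at h
    rw [le_abs]
    left
    linarith
  · rw [abs_of_neg hx] at h
    rw [le_abs]
    right
    linarith

theorem Bpr_ge (x : ℝ) (h0 : 0 ≤ x) (h1 : x ≤ 1) : x ≤ Bpr x := by
  unfold Bpr Apr
  have h : 0 ≤ 1 - ((x - 1) / 2) ^ 2 := by nlinarith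
  rw [max_eq_left h]
  have key : (1 - ((x - 1) / 2) ^ 2) ^ 2 - x
      = (1 - x) * (1 + x) / 2 + ((1 - x) ^ 2 / 4) ^ 2 := by ring
  have : 0 ≤ (1 - x) * (1 + x) / 2 + ((1 - x) ^ 2 / 4) ^ 2 := by
    have : 0 ≤ (1 - x) * (1 + x) := mul_nonneg (by linarith) (by linarith)
    positivity
  linarith

theorem Bpr_nonneg (x : ℝ) : 0 ≤ Bpr x := Apr_nonneg _

theorem Bpr_contDiff : ContDiff ℝ 1 Bpr := by
  have h : Bpr = fun x => Apr ((x - 1) / 2) := rfl
  rw [h]
  exact Apr_contDiff.comp ((contDiff_id.sub contDiff_const).div_const 2)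

theorem Apr_at_zero : Apr 0 = 1 := by
  unfold Apr
  norm_num

theorem Bpr_at_zero : Bpr 0 = 9 / 16 := by
  unfold Bpr Apr
  norm_num

/-- pointwise quadratic bound for the Dirichlet density of a difference -/
theorem dirE_sub_le (f g : ℂ → ℝ) (κ : ℝ) (hf : ContDiff ℝ 1 f) (hg : ContDiff ℝ 1 g) (w : ℂ) :
    dirE (fun z => f z - κ * g z) w ≤ 2 * dirE f w + 2 * κ ^ 2 * dirE g w := by
  have hfd : DifferentiableAt ℝ f w := (hf.differentiable one_ne_zero) w
  have hgd : DifferentiableAt ℝ g w := (hg.differentiable one_ne_zero) w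
  have h : fderiv ℝ (fun z => f z - κ * g z) w = fderiv ℝ f w - κ • fderiv ℝ g w := by
    rw [fderiv_fun_sub hfd (hgd.const_mul κ), fderiv_const_mul hgd]
  unfold dirE
  rw [h]
  simp only [_root_.sub_apply, _root_.smul_apply, smul_eq_mul]
  nlinarith [sq_nonneg (fderiv ℝ f w 1 + κ * fderiv ℝ g w 1),
    sq_nonneg (fderiv ℝ f w Complex.I + κ * fderiv ℝ g w Complex.I)]

theorem dirE_nonneg (f : ℂ → ℝ) (w : ℂ) : 0 ≤ dirE f w := by
  unfold dirE
  positivity

theorem dirE_continuous (f : ℂ → ℝ) (hf : ContDiff ℝ 1 f) : Continuous (dirE f) := by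
  unfold dirE
  have h : Continuous (fderiv ℝ f) := hf.continuous_fderiv one_ne_zero
  exact ((h.clm_apply continuous_const).pow 2).add ((h.clm_apply continuous_const).pow 2)

theorem measurableSet_strip : MeasurableSet strip := by
  unfold strip
  exact (isOpen_Ioo.preimage Complex.continuous_im).measurableSet

theorem bounded_of (S : ℝ → ℝ) (hc : Continuous S) (hper : Function.Periodic S (2 * π)) :
    ∃ M : ℝ, 0 ≤ M ∧ ∀ x, |S x| ≤ M := by
  obtain ⟨M, hM⟩ := (hper.isBounded_of_continuous (by positivity) hc).exists_norm_le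
  refine ⟨|M|, abs_nonneg _, fun x => ?_⟩
  have := hM (S x) ⟨x, rfl⟩
  rw [Real.norm_eq_abs] at this
  exact this.trans (le_abs_self M)

end Psi

open Psi in
theorem exists_Psi {ι : Type} [Fintype ι] [Nonempty ι] (θ ℓ : ι → ℝ) (hℓ : ∀ i, 0 ≤ ℓ i)
    (hs : (Fintype.card ι : ℝ) * ∑ i, ℓ i ^ 2 < 1 / 16) :
    ∃ (Ψ : ℂ → ℝ) (T ε : ℝ), 0 < T ∧ ContDiff ℝ 1 Ψ ∧
      (∀ w, Ψ (w + 2 * π * Complex.I) = Ψ w) ∧ (∀ w : ℂ, T ≤ |w.re| → Ψ w = 0) ∧
      (∀ i, ∀ t : ℝ, t ≤ ℓ i → max t 0 - Ψ (t + θ i * Complex.I) ≤ ε) ∧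
      (2 * π)⁻¹ * (∫ w in strip, dirE Ψ w) +
        2 * ((2 * π)⁻¹ * ∫ x in (-π)..π, Ψ (x * Complex.I)) + 2 * ε < 0 := by
  classical
  set n : ℝ := (Fintype.card ι : ℝ) with hn
  have hn1 : 1 ≤ n := by
    rw [hn]
    exact_mod_cast Fintype.card_pos
  have hn0 : 0 < n := by linarith
  set e : ℝ := 1 / (2000 * n) with he
  have he0 : 0 < e := by positivity
  obtain ⟨S, hSc, hSper, hSder, hSpos, hSge, hSint⟩ := exists_envelope θ ℓ hℓ e he0
  obtain ⟨R, hRc, hRper, hRder, hRpos, hRle, hRint⟩ := exists_gap θ e he0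
  obtain ⟨MS, hMS0, hMS⟩ := bounded_of S hSc.continuous hSper
  obtain ⟨MR, hMR0, hMR⟩ := bounded_of R hRc.continuous hRper
  have hfc : ContDiff ℝ 1 (prof Bpr S) := prof_contDiff Bpr S Bpr_contDiff hSc hSpos
  have hgc : ContDiff ℝ 1 (prof Apr R) := prof_contDiff Apr R Apr_contDiff hRc hRpos
  obtain ⟨hfi, hfI⟩ := prof_integral Bpr S Bpr_contDiff 3 Bpr_zero_of hSc hSpos hSder
  obtain ⟨hgi, hgI⟩ := prof_integral Apr R Apr_contDiff 1 Apr_zero_of hRc hRpos hRder
  rw [Bpr_integral] at hfI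
  rw [Apr_integral] at hgI
  set κ : ℝ := 105 / 1024 with hκ
  have hΨc : ContDiff ℝ 1 (fun z => prof Bpr S z - κ * prof Apr R z) :=
    hfc.sub (contDiff_const.mul hgc)
  refine ⟨fun z => prof Bpr S z - κ * prof Apr R z, 1 + 3 * MS + MR, κ * e, by positivity,
    hΨc, ?_, ?_, ?_, ?_⟩
  · intro w
    have h1 : (w + 2 * π * Complex.I).im = w.im + 2 * π := by simp
    have h2 : (w + 2 * π * Complex.I).re = w.re := by simp
    simp only [prof, h1, h2, hSper w.im, hRper w.im]
  · intro w hw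
    have hS1 : Bpr (w.re / S w.im) = 0 := by
      apply Bpr_zero_of
      rw [abs_div, le_div_iff₀ (abs_pos.mpr (hSpos w.im).ne')]
      have := hMS w.im
      linarith
    have hR1 : Apr (w.re / R w.im) = 0 := by
      apply Apr_zero_of
      rw [abs_div, le_div_iff₀ (abs_pos.mpr (hRpos w.im).ne')]
      have := hMR w.im
      linarith
    simp only [prof, hS1, hR1]
    ring
  · intro i t ht
    have h1 : (t + θ i * Complex.I : ℂ).im = θ i := by simp
    have h2 : (t + θ i * Complex.I : ℂ).re = t := by simp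
    simp only [prof, h1, h2]
    have hA : R (θ i) * Apr (t / R (θ i)) ≤ e := by
      calc R (θ i) * Apr (t / R (θ i)) ≤ R (θ i) * 1 :=
            mul_le_mul_of_nonneg_left (Apr_le_one _) (hRpos _).le
        _ ≤ e := by rw [mul_one]; exact hRle i
    have hκA : κ * (R (θ i) * Apr (t / R (θ i))) ≤ κ * e :=
      mul_le_mul_of_nonneg_left hA (by norm_num [hκ])
    have hB : max t 0 ≤ S (θ i) * Bpr (t / S (θ i)) := by
      have hSp := hSpos (θ i)
      apply max_le
      · rcases le_or_gt t 0 with h0 | h0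
        · exact h0.trans (mul_nonneg hSp.le (Bpr_nonneg _))
        · have h3 : t / S (θ i) ≤ Bpr (t / S (θ i)) := by
            apply Bpr_ge
            · positivity
            · rw [div_le_one hSp]
              exact ht.trans (hSge i)
          calc t = S (θ i) * (t / S (θ i)) := by field_simp
            _ ≤ _ := mul_le_mul_of_nonneg_left h3 hSp.le
      · exact mul_nonneg hSp.le (Bpr_nonneg _)
    linarith
  · have hI1 : ∫ w in strip, dirE (fun z => prof Bpr S z - κ * prof Apr R z) w ≤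
        2 * (256 / 35 * ∫ x in (-π)..π, S x) +
          2 * κ ^ 2 * (512 / 105 * ∫ x in (-π)..π, R x) := by
      have hi2 : MeasureTheory.IntegrableOn
          (fun w => 2 * dirE (prof Bpr S) w + 2 * κ ^ 2 * dirE (prof Apr R) w) strip :=
        (hfi.const_mul 2).add (hgi.const_mul (2 * κ ^ 2))
      calc ∫ w in strip, dirE (fun z => prof Bpr S z - κ * prof Apr R z) w
          ≤ ∫ w in strip, (2 * dirE (prof Bpr S) w + 2 * κ ^ 2 * dirE (prof Apr R) w) := by
            apply MeasureTheory.integral_mono_of_nonneg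
            · exact Filter.Eventually.of_forall fun w => dirE_nonneg _ w
            · exact hi2
            · exact Filter.Eventually.of_forall fun w => dirE_sub_le _ _ κ hfc hgc w
        _ = 2 * (∫ w in strip, dirE (prof Bpr S) w) +
            2 * κ ^ 2 * (∫ w in strip, dirE (prof Apr R) w) := by
            rw [MeasureTheory.integral_add (hfi.const_mul 2) (hgi.const_mul (2 * κ ^ 2)),
              MeasureTheory.integral_const_mul, MeasureTheory.integral_const_mul]
        _ ≤ _ := by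
            have : 0 ≤ 2 * κ ^ 2 := by positivity
            exact add_le_add (mul_le_mul_of_nonneg_left hfI (by norm_num))
              (mul_le_mul_of_nonneg_left hgI this)
    have hI2 : ∫ x in (-π)..π, (fun z => prof Bpr S z - κ * prof Apr R z) (x * Complex.I) =
        9 / 16 * (∫ x in (-π)..π, S x) - κ * ∫ x in (-π)..π, R x := by
      have h3 : ∀ x : ℝ, (fun z => prof Bpr S z - κ * prof Apr R z) (x * Complex.I) =
          9 / 16 * S x - κ * R x := by
        intro x
        simp only [prof]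
        have h1 : (x * Complex.I : ℂ).im = x := by simp
        have h2 : (x * Complex.I : ℂ).re = 0 := by simp
        rw [h1, h2]
        simp only [zero_div, Apr_at_zero, Bpr_at_zero]
        ring
      rw [intervalIntegral.integral_congr (g := fun x => 9 / 16 * S x - κ * R x)
        (fun x _ => h3 x)]
      rw [intervalIntegral.integral_sub
        ((hSc.continuous.const_mul _).intervalIntegrable _ _)
        ((hRc.continuous.const_mul _).intervalIntegrable _ _),
        intervalIntegral.integral_const_mul, intervalIntegral.integral_const_mul]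
    rw [hI2]
    have hπ : 0 < π := Real.pi_pos
    have hπ2 : 9.8 < π ^ 2 := by
      have := Real.pi_gt_d4
      nlinarith
    have hπ3 : π < 3.15 := by
      have := Real.pi_lt_d2
      linarith
    have hi : (2 * π)⁻¹ * (∫ w in strip, dirE (fun z => prof Bpr S z - κ * prof Apr R z) w) ≤
        (2 * π)⁻¹ * (2 * (256 / 35 * ∫ x in (-π)..π, S x) +
          2 * κ ^ 2 * (512 / 105 * ∫ x in (-π)..π, R x)) :=
      mul_le_mul_of_nonneg_left hI1 (by positivity)
    refine lt_of_le_of_lt (add_le_add_left (add_le_add_left hi _) _) ?_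
    set IS := ∫ x in (-π)..π, S x with hIS
    set IR := ∫ x in (-π)..π, R x with hIR
    have hL : (2 * π)⁻¹ * (2 * (256 / 35 * IS) + 2 * κ ^ 2 * (512 / 105 * IR)) +
        2 * ((2 * π)⁻¹ * (9 / 16 * IS - κ * IR)) + 2 * (κ * e) =
        π⁻¹ * (4411 / 560 * IS - 105 / 2048 * IR + 105 / 512 * π * e) := by
      rw [hκ]
      field_simp
      ring
    rw [hL]
    apply mul_neg_of_pos_of_neg (by positivity)
    have hnR : n * (π ^ 2 / n) = π ^ 2 := by field_simp
    have hne : n * e = 1 / 2000 := by rw [he]; field_simp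
    have h5 : n * IR ≥ π ^ 2 := by
      calc n * IR ≥ n * (π ^ 2 / n) := mul_le_mul_of_nonneg_left hRint hn0.le
        _ = _ := hnR
    have h6 : n * IS ≤ 1 / 16 + 1 / 2000 := by
      calc n * IS ≤ n * ((∑ i, ℓ i ^ 2) + e) := mul_le_mul_of_nonneg_left hSint hn0.le
        _ = n * (∑ i, ℓ i ^ 2) + n * e := by ring
        _ ≤ _ := by rw [hne]; linarith
    by_contra hcon
    push Not at hcon
    have h7 : 0 ≤ n * (4411 / 560 * IS - 105 / 2048 * IR + 105 / 512 * π * e) :=
      mul_nonneg hn0.le hcon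
    have h8 : n * (4411 / 560 * IS - 105 / 2048 * IR + 105 / 512 * π * e) =
        4411 / 560 * (n * IS) - 105 / 2048 * (n * IR) + 105 / 512 * π * (n * e) := by ring
    rw [h8, hne] at h7
    nlinarith

end H904L2
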