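import Pool.Agent.H904L2.AT1
import Pool.Agent.H904L2.Psi
import Pool.Agent.H904L2.ExpChange

open Polynomial
open scoped Real

namespace H904L2

theorem AT2 {ι : Type} [Fintype ι] [Nonempty ι] (a : ι → ℂ) (ha : ∀ i, a i ≠ 0) (c : ℕ → ℤ)
    (hc0 : c 0 = 1)
    (hc : (PowerSeries.mk fun n => (c n : ℂ)) ^ 2 =
      ((∏ i, (1 - C (a i) * X) : ℂ[X]) : PowerSeries ℂ))
    (hs : (Fintype.card ι : ℝ) * ∑ i, (Real.posLog ‖a i‖) ^ 2 < 1 / 16) :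
    ∃ P Q : ℂ[X], Q ≠ 0 ∧ Q ^ 2 * ∏ i, (1 - C (a i) * X) = P ^ 2 := by
  obtain ⟨Ψ, T, ε, hT, hΨ, hper, hsupp, hK, hF⟩ := exists_Psi (fun i => (a i).arg)
    (fun i => Real.posLog ‖a i‖) (fun i => Real.posLog_nonneg) hs
  obtain ⟨φ, hφ, hφc, hφe, hφ0, hφD, hφA⟩ := exists_phi Ψ hΨ hper T hT hsupp
  obtain ⟨P, Q, hQ, hPQ⟩ := AT1 a ha c hc0 hc φ hφ hφc T hT hφ0 ε
    (by
      intro i t ht
      rw [hφe]
      apply hK i t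
      exact ht.trans (le_max_right _ _))
    (by
      rw [hφD, hφA]
      exact hF)
  refine ⟨P, Q, hQ, ?_⟩
  have h1 : ((Q : PowerSeries ℂ) * PowerSeries.mk (fun n => (c n : ℂ))) ^ 2 = (P : PowerSeries ℂ) ^ 2 := by
    rw [hPQ]
  rw [mul_pow, hc] at h1
  have h2 : ((Q ^ 2 * ∏ i, (1 - C (a i) * X) : ℂ[X]) : PowerSeries ℂ) = ((P ^ 2 : ℂ[X]) : PowerSeries ℂ) := by
    rw [Polynomial.coe_mul, Polynomial.coe_pow, Polynomial.coe_pow]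
    exact h1
  exact Polynomial.coe_inj.1 h2

end H904L2
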