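import Pool.Agent.H904L2.Defs

open Polynomial
open scoped Real

namespace H904L2
namespace Coeffs

variable {ι : Type} [Fintype ι]

/-- `∏ (1 - a_i x)^(1/2)` -/
noncomputable def G (a : ι → ℂ) (x : ℂ) : ℂ := ∏ i, (1 - a i * x) ^ (1 / 2 : ℂ)

lemma slit {w : ℂ} (h : ‖w‖ < 1) : 1 - w ∈ Complex.slitPlane := by
  left
  have := Complex.re_le_norm w
  simp only [Complex.sub_re, Complex.one_re]
  linarith

lemma G_diff (a : ι → ℂ) (x : ℂ) (h : ∀ i, ‖a i * x‖ < 1) : DifferentiableAt ℂ (G a) x := by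
  unfold G
  refine DifferentiableAt.fun_finsetProd fun i _ => ?_
  refine DifferentiableAt.cpow ?_ (differentiableAt_const _) (slit (h i))
  fun_prop

lemma G_zero (a : ι → ℂ) : G a 0 = 1 := by simp [G]

lemma G_sq (a : ι → ℂ) (x : ℂ) :
    G a x * G a x = (∏ i, (1 - C (a i) * X) : ℂ[X]).eval x := by
  rw [G, ← Finset.prod_mul_distrib, eval_prod]
  refine Finset.prod_congr rfl fun i _ => ?_
  rw [← sq, ← Complex.cpow_nat_mul]
  simp

lemma iteratedDeriv_eval (P : ℂ[X]) (n : ℕ) :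
    iteratedDeriv n (fun x => P.eval x) = fun x => (derivative^[n] P).eval x := by
  induction n with
  | zero => simp
  | succ n ih =>
    rw [iteratedDeriv_succ, ih, Function.iterate_succ_apply']
    funext x
    simp

lemma iteratedDeriv_eval_zero (P : ℂ[X]) (n : ℕ) :
    iteratedDeriv n (fun x => P.eval x) 0 = n.factorial * P.coeff n := by
  rw [iteratedDeriv_eval]
  simp only
  rw [← coeff_zero_eq_eval_zero, coeff_iterate_derivative]
  simp [Nat.descFactorial_self]

lemma avg (a : ι → ℂ) (R : ℝ) (hR : 0 < R) (h : ∀ i, ‖a i‖ < R) (n : ℕ) :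
    Real.circleAverage (fun z => Fsq a z * z ^ n) 0 R =
      iteratedDeriv n (G a) 0 / n.factorial := by
  have hR' : (R : ℂ) ≠ 0 := by exact_mod_cast hR.ne'
  have h1 : Real.circleAverage (fun z => Fsq a z * z ^ n) 0 R =
      Real.circleAverage (fun z => G a z * (z⁻¹) ^ n) 0 R⁻¹ := by
    rw [Real.circleAverage_eq_circleAverage_zero_one,
      ← Real.circleAverage_zero_one_congr_inv,
      Real.circleAverage_eq_circleAverage_zero_one (c := 0) (R := R⁻¹)]
    congr 1
    funext z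
    simp only [add_zero, Complex.ofReal_inv, mul_inv_rev, inv_inv]
    have : Fsq a (R * z⁻¹) = G a ((R : ℂ)⁻¹ * z) := by
      unfold Fsq G
      refine Finset.prod_congr rfl fun i _ => ?_
      congr 2
      rw [div_eq_mul_inv, mul_inv_rev, inv_inv, mul_comm z]
    rw [this, mul_comm z⁻¹]
  have hball : DifferentiableOn ℂ (G a) (Metric.closedBall 0 R⁻¹) := by
    intro x hx
    refine (G_diff a x fun i => ?_).differentiableWithinAt
    rw [mem_closedBall_zero_iff] at hx
    rw [norm_mul]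
    calc ‖a i‖ * ‖x‖ ≤ ‖a i‖ * R⁻¹ := by gcongr
      _ < R * R⁻¹ := by
        have := h i
        gcongr
      _ = 1 := mul_inv_cancel₀ hR.ne'
  have hc := hball.circleIntegral_one_div_sub_center_pow_smul (inv_pos.2 hR) n
  rw [h1, Real.circleAverage_eq_circleIntegral (inv_pos.2 hR).ne']
  have h2 : (∮ z in C(0, R⁻¹), (z - 0)⁻¹ • (G a z * (z⁻¹) ^ n)) =
      ∮ z in C(0, R⁻¹), (1 / (z - 0) ^ (n + 1)) • G a z := by
    congr 1
    funext z
    simp only [sub_zero, smul_eq_mul, one_div, inv_pow]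
    rw [pow_succ, mul_inv_rev]
    ring
  rw [h2, hc, smul_smul]
  have hpi : (2 * (π : ℂ) * Complex.I) ≠ 0 := Complex.two_pi_I_ne_zero
  have hf : (n.factorial : ℂ) ≠ 0 := by exact_mod_cast n.factorial_ne_zero
  rw [smul_eq_mul]
  field_simp

lemma sq_coeff (a : ι → ℂ) (n : ℕ) :
    ∑ p ∈ Finset.HasAntidiagonal.antidiagonal n, (iteratedDeriv p.1 (G a) 0 / p.1.factorial) *
      (iteratedDeriv p.2 (G a) 0 / p.2.factorial) = (∏ i, (1 - C (a i) * X) : ℂ[X]).coeff n := by
  have hev : (∀ᶠ x in nhds (0 : ℂ), ∀ i, ‖a i * x‖ < 1) := by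
    rw [Filter.eventually_all]
    intro i
    have hcont : Continuous fun x : ℂ => ‖a i * x‖ := by fun_prop
    refine (hcont.tendsto 0).eventually_lt_const ?_
    simp
  have han : AnalyticAt ℂ (G a) 0 := by
    rw [Complex.analyticAt_iff_eventually_differentiableAt]
    filter_upwards [hev] with x hx using G_diff a x hx
  have hmul : iteratedDeriv n (G a * G a) 0 =
      n.factorial * (∏ i, (1 - C (a i) * X) : ℂ[X]).coeff n := by
    rw [← iteratedDeriv_eval_zero]
    congr 1
    funext x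
    exact G_sq a x
  rw [iteratedDeriv_mul han.contDiffAt han.contDiffAt] at hmul
  have hf : (n.factorial : ℂ) ≠ 0 := by exact_mod_cast n.factorial_ne_zero
  apply mul_left_cancel₀ hf
  rw [← hmul, Finset.mul_sum, Finset.Nat.sum_antidiagonal_eq_sum_range_succ_mk]
  refine Finset.sum_congr rfl fun i hi => ?_
  rw [Finset.mem_range, Nat.lt_succ_iff] at hi
  rw [Nat.cast_choose _ hi]
  field_simp

end Coeffs

open Coeffs in
theorem exists_coeffs {ι : Type} [Fintype ι] (a : ι → ℂ) :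
    ∃ c : ℕ → ℂ, c 0 = 1 ∧
      (PowerSeries.mk c) ^ 2 = ((∏ i, (1 - C (a i) * X) : ℂ[X]) : PowerSeries ℂ) ∧
      ∀ R : ℝ, 0 < R → (∀ i, ‖a i‖ < R) → ∀ n : ℕ,
        Real.circleAverage (fun z => Fsq a z * z ^ n) 0 R = c n := by
  refine ⟨fun n => iteratedDeriv n (G a) 0 / n.factorial, by simp [G_zero], ?_,
    fun R hR h n => avg a R hR h n⟩
  ext n
  rw [sq, PowerSeries.coeff_mul, Polynomial.coeff_coe, ← sq_coeff]
  simp only [PowerSeries.coeff_mk]

end H904L2
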