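import Mathlib

open Polynomial
open scoped Real

namespace H904L2

noncomputable section

/-- the product of principal square roots of `1 - a i / z` -/
def Fsq {ι : Type} [Fintype ι] (a : ι → ℂ) (z : ℂ) : ℂ :=
  ∏ i, (1 - a i / z) ^ (1 / 2 : ℂ)

/-- a thin closed neighbourhood of the star, cut at radius `exp (-T)` -/
def Kset {ι : Type} (a : ι → ℂ) (T δ : ℝ) : Set ℂ :=
  {z | ∃ w : ℂ, Complex.exp w = z ∧ -T ≤ w.re ∧
    (w.re = -T ∨ ∃ i, w.re ≤ Real.log ‖a i‖ + δ ∧ |w.im - (a i).arg| ≤ δ)}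

/-- gradient of the truncated logarithm `log (min (max ‖z - a‖ ρ) R)` -/
def vf (a : ℂ) (ρ R : ℝ) (z : ℂ) : ℂ :=
  if ρ < ‖z - a‖ ∧ ‖z - a‖ < R then (z - a) / ((‖z - a‖ ^ 2 : ℝ) : ℂ) else 0

/-- truncated logarithm -/
def wl (a : ℂ) (ρ R : ℝ) (z : ℂ) : ℝ := Real.log (min (max ‖z - a‖ ρ) R)

/-- Dirichlet density -/
def dirE (φ : ℂ → ℝ) (z : ℂ) : ℝ := (fderiv ℝ φ z 1) ^ 2 + (fderiv ℝ φ z Complex.I) ^ 2

/-- the strip of width `2 π` -/
def strip : Set ℂ := {w | w.im ∈ Set.Ioo (-π) π}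

/-- the profile `(1 - x^2)_+^2` -/
def Apr (x : ℝ) : ℝ := (max (1 - x ^ 2) 0) ^ 2

/-- the shifted profile -/
def Bpr (x : ℝ) : ℝ := Apr ((x - 1) / 2)

/-- a profile function rescaled by a width function -/
def prof (B S : ℝ → ℝ) (w : ℂ) : ℝ := S w.im * B (w.re / S w.im)

end

end H904L2
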