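import Pool.Agent.H904L2.Defs

open Polynomial
open scoped Real

namespace H904L2

namespace Envelope

/-- distance to `2 π ℤ` -/
noncomputable def dc (x : ℝ) : ℝ := ‖(x : AddCircle (2 * π))‖

theorem dc_nonneg (x : ℝ) : 0 ≤ dc x := norm_nonneg _

theorem dc_periodic : Function.Periodic dc (2 * π) := by
  intro x
  unfold dc
  rw [AddCircle.coe_add_period]

theorem dc_zero : dc 0 = 0 := by simp [dc]

theorem dc_le_abs (x : ℝ) : dc x ≤ |x| := by
  unfold dc
  rw [← Real.norm_eq_abs]
  exact QuotientAddGroup.norm_mk_le_norm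

theorem dc_eq_abs {x : ℝ} (hx : |x| ≤ π) : dc x = |x| := by
  have hπ := Real.pi_pos
  unfold dc
  rw [AddCircle.norm_coe_eq_abs_iff (2 * π) (by positivity)]
  rw [abs_of_pos (by positivity : (0:ℝ) < 2 * π)]
  linarith

theorem dc_lip (x y : ℝ) : |dc x - dc y| ≤ |x - y| := by
  have h1 : |dc x - dc y| ≤ ‖((x - y : ℝ) : AddCircle (2 * π))‖ := by
    unfold dc
    rw [AddCircle.coe_sub]
    exact abs_norm_sub_norm_le _ _
  exact h1.trans (dc_le_abs _)

theorem dc_continuous : Continuous dc := by
  have : LipschitzWith 1 dc := by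
    apply LipschitzWith.of_dist_le_mul
    intro x y
    simp only [Real.dist_eq, NNReal.coe_one, one_mul]
    exact dc_lip x y
  exact this.continuous

/-- the tent function -/
noncomputable def tent (l t x : ℝ) : ℝ := max (l - dc (x - t)) 0

theorem tent_nonneg (l t x : ℝ) : 0 ≤ tent l t x := le_max_right _ _

theorem tent_continuous (l t : ℝ) : Continuous (tent l t) := by
  unfold tent
  exact (continuous_const.sub (dc_continuous.comp (continuous_id.sub continuous_const))).max
    continuous_const

theorem tent_periodic (l t : ℝ) : Function.Periodic (tent l t) (2 * π) := by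
  intro x
  unfold tent
  rw [show x + 2 * π - t = (x - t) + 2 * π by ring, dc_periodic]

theorem tent_lip (l t x y : ℝ) : |tent l t x - tent l t y| ≤ |x - y| := by
  unfold tent
  calc |max (l - dc (x - t)) 0 - max (l - dc (y - t)) 0|
      ≤ max |(l - dc (x - t)) - (l - dc (y - t))| |(0:ℝ) - 0| := abs_max_sub_max_le_max _ _ _ _
    _ ≤ |x - y| := by
        rw [sub_zero, abs_zero]
        apply max_le _ (abs_nonneg _)
        rw [show (l - dc (x - t)) - (l - dc (y - t)) = dc (y - t) - dc (x - t) by ring]
        refine (dc_lip _ _).trans (le_of_eq ?_)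
        rw [show y - t - (x - t) = -(x - y) by ring, abs_neg]

/-- periodic functions: shift the integral -/
theorem integral_shift {f : ℝ → ℝ} (hf : Function.Periodic f (2 * π)) (t : ℝ) :
    ∫ x in (-π)..π, f (x - t) = ∫ x in (-π)..π, f x := by
  rw [intervalIntegral.integral_comp_sub_right (fun x => f x) t]
  have h1 := hf.intervalIntegral_add_eq (-π - t) (-π)
  rw [show -π - t + 2 * π = π - t by ring, show -π + 2 * π = π by ring] at h1
  exact h1

theorem integral_pos_part (l : ℝ) (hl : 0 ≤ l) (b : ℝ) (hb : 0 ≤ b) :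
    ∫ x in (0:ℝ)..b, max (l - x) 0 ≤ l ^ 2 / 2 := by
  have hc : Continuous (fun x : ℝ => max (l - x) 0) := by fun_prop
  have h0 : ∫ x in (0:ℝ)..(b + l), max (l - x) 0 = l ^ 2 / 2 := by
    rw [← intervalIntegral.integral_add_adjacent_intervals (b := l)
      (hc.intervalIntegrable _ _) (hc.intervalIntegrable _ _)]
    have h1 : ∫ x in (0:ℝ)..l, max (l - x) 0 = ∫ x in (0:ℝ)..l, (l - x) := by
      apply intervalIntegral.integral_congr
      intro x hx
      rw [Set.uIcc_of_le hl] at hx
      simp only
      exact max_eq_left (by linarith [hx.2])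
    have h2 : ∫ x in l..(b + l), max (l - x) 0 = ∫ x in l..(b + l), (0:ℝ) := by
      apply intervalIntegral.integral_congr
      intro x hx
      rw [Set.uIcc_of_le (by linarith)] at hx
      simp only
      exact max_eq_right (by linarith [hx.1])
    rw [h1, h2, intervalIntegral.integral_sub (by simp) (by simp)]
    simp
    ring
  rw [← h0]
  rw [← intervalIntegral.integral_add_adjacent_intervals (b := b) (c := b + l)
      (hc.intervalIntegrable _ _) (hc.intervalIntegrable _ _)]
  have : 0 ≤ ∫ x in b..(b + l), max (l - x) 0 :=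
    intervalIntegral.integral_nonneg (by linarith) (fun x _ => le_max_right _ _)
  linarith

theorem integral_tent (l t : ℝ) (hl : 0 ≤ l) : ∫ x in (-π)..π, tent l t x ≤ l ^ 2 := by
  have hπ := Real.pi_pos
  have hper : Function.Periodic (tent l 0) (2 * π) := tent_periodic l 0
  have h1 : ∫ x in (-π)..π, tent l t x = ∫ x in (-π)..π, tent l 0 x := by
    rw [← integral_shift hper t]
    apply intervalIntegral.integral_congr
    intro x _
    simp [tent]
  rw [h1]
  rw [← intervalIntegral.integral_add_adjacent_intervals (b := 0)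
      ((tent_continuous l 0).intervalIntegrable _ _) ((tent_continuous l 0).intervalIntegrable _ _)]
  have h2 : ∫ x in (0:ℝ)..π, tent l 0 x = ∫ x in (0:ℝ)..π, max (l - x) 0 := by
    apply intervalIntegral.integral_congr
    intro x hx
    rw [Set.uIcc_of_le hπ.le] at hx
    simp only [tent, sub_zero]
    rw [dc_eq_abs (by rw [abs_of_nonneg hx.1]; exact hx.2), abs_of_nonneg hx.1]
  have h3 : ∫ x in (-π)..0, tent l 0 x = ∫ x in (0:ℝ)..π, max (l - x) 0 := by
    have := intervalIntegral.integral_comp_neg (a := 0) (b := π) (fun x => tent l 0 x)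
    rw [neg_zero] at this
    rw [← this, ← h2]
    apply intervalIntegral.integral_congr
    intro x hx
    simp only [tent, sub_zero, dc]
    rw [AddCircle.coe_neg, norm_neg]
  rw [h2, h3]
  have := integral_pos_part l hl π hπ.le
  linarith

end Envelope

open Envelope

theorem steklov (u : ℝ → ℝ) (hu : LipschitzWith 1 u) (hper : Function.Periodic u (2 * π))
    (ε : ℝ) (hε : 0 < ε) :
    ∃ S : ℝ → ℝ, ContDiff ℝ 1 S ∧ Function.Periodic S (2 * π) ∧ (∀ x, |deriv S x| ≤ 1) ∧
      ∀ x, u x < S x ∧ S x ≤ u x + ε := by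
  have hc : Continuous u := hu.continuous
  have hul : ∀ x y, |u x - u y| ≤ |x - y| := by
    intro x y
    have := hu.dist_le_mul x y
    simpa [Real.dist_eq] using this
  set h : ℝ := ε / 3 with hh
  have hpos : 0 < h := by positivity
  set U : ℝ → ℝ := fun x => ∫ t in (0:ℝ)..x, u t with hU
  have hUd : ∀ x, HasDerivAt U (u x) x := fun x =>
    intervalIntegral.integral_hasDerivAt_right (hc.intervalIntegrable _ _)
      (hc.stronglyMeasurableAtFilter _ _) hc.continuousAt
  set S : ℝ → ℝ := fun x => (2 * h)⁻¹ * (U (x + h) - U (x - h)) + 2 * h with hS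
  have hSd : ∀ x, HasDerivAt S ((2 * h)⁻¹ * (u (x + h) - u (x - h))) x := by
    intro x
    have h1 : HasDerivAt (fun x => U (x + h)) (u (x + h)) x := by
      exact (hUd (x + h)).comp_add_const x h
    have h2 : HasDerivAt (fun x => U (x - h)) (u (x - h)) x := by
      exact (hUd (x - h)).comp_sub_const x h
    exact ((h1.sub h2).const_mul _).add_const _
  have hderiv : deriv S = fun x => (2 * h)⁻¹ * (u (x + h) - u (x - h)) := by
    ext x; exact (hSd x).deriv
  have hUint : ∀ x, U (x + h) - U (x - h) = ∫ t in (x - h)..(x + h), u t := by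
    intro x
    simp only [hU]
    exact intervalIntegral.integral_interval_sub_left (hc.intervalIntegrable _ _)
      (hc.intervalIntegrable _ _)
  refine ⟨S, ?_, ?_, ?_, ?_⟩
  · rw [contDiff_one_iff_deriv]
    refine ⟨fun x => (hSd x).differentiableAt, ?_⟩
    rw [hderiv]
    fun_prop
  · intro x
    simp only [hS]
    rw [hUint, hUint]
    congr 2
    have h1 := intervalIntegral.integral_comp_add_right (a := x - h) (b := x + h)
      (fun t => u t) (2 * π)
    have h2 : ∫ t in (x - h)..(x + h), u (t + 2 * π) = ∫ t in (x - h)..(x + h), u t := by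
      apply intervalIntegral.integral_congr
      intro t _
      exact hper t
    rw [h2] at h1
    rw [h1]
    congr 1 <;> ring
  · intro x
    rw [hderiv]
    simp only
    rw [abs_mul, abs_of_pos (by positivity : (0:ℝ) < (2 * h)⁻¹)]
    have h1 := hul (x + h) (x - h)
    rw [show x + h - (x - h) = 2 * h by ring, abs_of_pos (by positivity : (0:ℝ) < 2 * h)] at h1
    calc (2 * h)⁻¹ * |u (x + h) - u (x - h)| ≤ (2 * h)⁻¹ * (2 * h) := by gcongr
      _ = 1 := by field_simp
  · intro x
    have hlow : (2 * h) * (u x - h) ≤ ∫ t in (x - h)..(x + h), u t := by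
      have h1 : ∫ t in (x - h)..(x + h), (u x - h) = (2 * h) * (u x - h) := by
        rw [intervalIntegral.integral_const, smul_eq_mul]; ring
      rw [← h1]
      apply intervalIntegral.integral_mono_on (by linarith) (by simp)
        (hc.intervalIntegrable _ _)
      intro t ht
      have h2 := hul x t
      have h3 : |x - t| ≤ h := by rw [abs_le]; constructor <;> linarith [ht.1, ht.2]
      linarith [le_abs_self (u x - u t)]
    have hup : ∫ t in (x - h)..(x + h), u t ≤ (2 * h) * (u x + h) := by
      have h1 : ∫ t in (x - h)..(x + h), (u x + h) = (2 * h) * (u x + h) := by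
        rw [intervalIntegral.integral_const, smul_eq_mul]; ring
      rw [← h1]
      apply intervalIntegral.integral_mono_on (by linarith)
        (hc.intervalIntegrable _ _) (by simp)
      intro t ht
      have h2 := hul t x
      have h3 : |t - x| ≤ h := by rw [abs_le]; constructor <;> linarith [ht.1, ht.2]
      linarith [le_abs_self (u t - u x)]
    simp only [hS]
    rw [hUint]
    have hinv : (2 * h)⁻¹ * ((2 * h) * (u x - h)) = u x - h := by field_simp
    have hinv' : (2 * h)⁻¹ * ((2 * h) * (u x + h)) = u x + h := by field_simp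
    have hp : (0:ℝ) ≤ (2 * h)⁻¹ := by positivity
    have e1 := mul_le_mul_of_nonneg_left hlow hp
    have e2 := mul_le_mul_of_nonneg_left hup hp
    rw [hinv] at e1
    rw [hinv'] at e2
    constructor
    · linarith
    · have : ε = 3 * h := by rw [hh]; ring
      linarith

theorem exists_envelope {ι : Type} [Fintype ι] [Nonempty ι] (θ ℓ : ι → ℝ)
    (hℓ : ∀ i, 0 ≤ ℓ i) (ε : ℝ) (hε : 0 < ε) :
    ∃ S : ℝ → ℝ, ContDiff ℝ 1 S ∧ Function.Periodic S (2 * π) ∧ (∀ x, |deriv S x| ≤ 1) ∧
      (∀ x, 0 < S x) ∧ (∀ i, ℓ i ≤ S (θ i)) ∧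
      ∫ x in (-π)..π, S x ≤ (∑ i, ℓ i ^ 2) + ε := by
  have hπ := Real.pi_pos
  set u : ℝ → ℝ := fun x => Finset.univ.sup' Finset.univ_nonempty (fun i => tent (ℓ i) (θ i) x)
    with hu
  have hle : ∀ i x, tent (ℓ i) (θ i) x ≤ u x := fun i x =>
    Finset.le_sup' (fun i => tent (ℓ i) (θ i) x) (Finset.mem_univ i)
  have hlip1 : ∀ x y, u x ≤ u y + |x - y| := by
    intro x y
    apply Finset.sup'_le
    intro i _
    have h1 := tent_lip (ℓ i) (θ i) x y
    have h2 := hle i y
    linarith [le_abs_self (tent (ℓ i) (θ i) x - tent (ℓ i) (θ i) y)]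
  have hlip : LipschitzWith 1 u := by
    apply LipschitzWith.of_dist_le_mul
    intro x y
    simp only [Real.dist_eq, NNReal.coe_one, one_mul]
    rw [abs_le]
    have h1 := hlip1 x y
    have h2 := hlip1 y x
    rw [abs_sub_comm y x] at h2
    constructor <;> linarith
  have hper : Function.Periodic u (2 * π) := by
    intro x
    simp only [hu]
    congr 1
    ext i
    exact tent_periodic _ _ _
  have hnn : ∀ x, 0 ≤ u x := fun x => (tent_nonneg _ _ _).trans (hle (Classical.arbitrary ι) x)
  have hub : ∀ x, u x ≤ ∑ i, tent (ℓ i) (θ i) x := by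
    intro x
    apply Finset.sup'_le
    intro i _
    exact Finset.single_le_sum (f := fun i => tent (ℓ i) (θ i) x)
      (fun j _ => tent_nonneg _ _ _) (Finset.mem_univ i)
  obtain ⟨S, h1, h2, h3, h4⟩ := steklov u hlip hper (ε / (2 * π)) (by positivity)
  refine ⟨S, h1, h2, h3, fun x => lt_of_le_of_lt (hnn x) (h4 x).1, ?_, ?_⟩
  · intro i
    have h5 := hle i (θ i)
    have h6 : tent (ℓ i) (θ i) (θ i) = ℓ i := by
      simp only [tent, sub_self, dc_zero, sub_zero]
      exact max_eq_left (hℓ i)
    rw [h6] at h5
    exact h5.trans (h4 _).1.le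
  · have hcS : Continuous S := h1.continuous
    have hci : ∀ i ∈ (Finset.univ : Finset ι), IntervalIntegrable
        (fun x => tent (ℓ i) (θ i) x) MeasureTheory.volume (-π) π :=
      fun i _ => (tent_continuous _ _).intervalIntegrable _ _
    have hcs : Continuous (fun x => ∑ i, tent (ℓ i) (θ i) x) :=
      continuous_finsetSum _ (fun i _ => tent_continuous _ _)
    calc ∫ x in (-π)..π, S x ≤ ∫ x in (-π)..π, ((∑ i, tent (ℓ i) (θ i) x) + ε / (2 * π)) := by
          apply intervalIntegral.integral_mono_on (by linarith) (hcS.intervalIntegrable _ _)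
            ((hcs.add continuous_const).intervalIntegrable _ _)
          intro x _
          have e1 := (h4 x).2
          have e2 := hub x
          show S x ≤ (∑ i, tent (ℓ i) (θ i) x) + ε / (2 * π)
          linarith
      _ = (∑ i, ∫ x in (-π)..π, tent (ℓ i) (θ i) x) + ε := by
          rw [intervalIntegral.integral_add (hcs.intervalIntegrable _ _) (by simp),
            intervalIntegral.integral_finsetSum hci, intervalIntegral.integral_const]
          congr 1
          rw [smul_eq_mul]
          field_simp
          ring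
      _ ≤ (∑ i, ℓ i ^ 2) + ε := by
          gcongr with i _
          exact integral_tent _ _ (hℓ i)

theorem exists_gap {ι : Type} [Fintype ι] [Nonempty ι] (θ : ι → ℝ) (ε : ℝ) (hε : 0 < ε) :
    ∃ S : ℝ → ℝ, ContDiff ℝ 1 S ∧ Function.Periodic S (2 * π) ∧ (∀ x, |deriv S x| ≤ 1) ∧
      (∀ x, 0 < S x) ∧ (∀ i, S (θ i) ≤ ε) ∧
      π ^ 2 / Fintype.card ι ≤ ∫ x in (-π)..π, S x := by
  have hπ := Real.pi_pos
  set n : ℝ := (Fintype.card ι : ℝ) with hn
  have hnpos : 0 < n := by
    rw [hn]; exact_mod_cast Fintype.card_pos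
  set u : ℝ → ℝ := fun x => Finset.univ.inf' Finset.univ_nonempty (fun i => dc (x - θ i))
    with hu
  have hle : ∀ i x, u x ≤ dc (x - θ i) := fun i x =>
    Finset.inf'_le (fun i => dc (x - θ i)) (Finset.mem_univ i)
  have hlip1 : ∀ x y, u x ≤ u y + |x - y| := by
    intro x y
    obtain ⟨i, _, hi⟩ := Finset.exists_mem_eq_inf' (Finset.univ_nonempty (α := ι))
      (fun i => dc (y - θ i))
    have h1 : u y = dc (y - θ i) := hi
    have h2 := hle i x
    have h3 := dc_lip (x - θ i) (y - θ i)
    rw [show x - θ i - (y - θ i) = x - y by ring] at h3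
    linarith [le_abs_self (dc (x - θ i) - dc (y - θ i))]
  have hlip : LipschitzWith 1 u := by
    apply LipschitzWith.of_dist_le_mul
    intro x y
    simp only [Real.dist_eq, NNReal.coe_one, one_mul]
    rw [abs_le]
    have h1 := hlip1 x y
    have h2 := hlip1 y x
    rw [abs_sub_comm y x] at h2
    constructor <;> linarith
  have hper : Function.Periodic u (2 * π) := by
    intro x
    simp only [hu]
    congr 1
    ext i
    rw [show x + 2 * π - θ i = (x - θ i) + 2 * π by ring, dc_periodic]
  have hnn : ∀ x, 0 ≤ u x := by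
    intro x
    apply Finset.le_inf'
    intro i _
    exact dc_nonneg _
  set δ : ℝ := π / n with hδ
  have hδpos : 0 < δ := by positivity
  have hlb : ∀ x, δ - ∑ i, tent δ (θ i) x ≤ u x := by
    intro x
    obtain ⟨i, _, hi⟩ := Finset.exists_mem_eq_inf' (Finset.univ_nonempty (α := ι))
      (fun i => dc (x - θ i))
    have h1 : u x = dc (x - θ i) := hi
    have h2 : tent δ (θ i) x ≤ ∑ i, tent δ (θ i) x :=
      Finset.single_le_sum (f := fun i => tent δ (θ i) x)
        (fun j _ => tent_nonneg _ _ _) (Finset.mem_univ i)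
    have h3 : δ - dc (x - θ i) ≤ tent δ (θ i) x := le_max_left _ _
    linarith
  obtain ⟨S, h1, h2, h3, h4⟩ := steklov u hlip hper ε hε
  refine ⟨S, h1, h2, h3, fun x => lt_of_le_of_lt (hnn x) (h4 x).1, ?_, ?_⟩
  · intro i
    have h5 := hle i (θ i)
    rw [sub_self, dc_zero] at h5
    have := (h4 (θ i)).2
    linarith
  · have hcS : Continuous S := h1.continuous
    have hci : ∀ i ∈ (Finset.univ : Finset ι), IntervalIntegrable
        (fun x => tent δ (θ i) x) MeasureTheory.volume (-π) π :=
      fun i _ => (tent_continuous _ _).intervalIntegrable _ _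
    have hcs : Continuous (fun x => ∑ i, tent δ (θ i) x) :=
      continuous_finsetSum _ (fun i _ => tent_continuous _ _)
    calc π ^ 2 / n = 2 * π * δ - n * δ ^ 2 := by
          rw [hδ]; field_simp; ring
      _ ≤ 2 * π * δ - ∑ i, ∫ x in (-π)..π, tent δ (θ i) x := by
          have : ∑ i, ∫ x in (-π)..π, tent δ (θ i) x ≤ ∑ i : ι, δ ^ 2 :=
            Finset.sum_le_sum (fun i _ => integral_tent _ _ hδpos.le)
          rw [Finset.sum_const, Finset.card_univ, nsmul_eq_mul] at this
          linarith
      _ = ∫ x in (-π)..π, (δ - ∑ i, tent δ (θ i) x) := by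
          rw [intervalIntegral.integral_sub (by simp) (hcs.intervalIntegrable _ _),
            intervalIntegral.integral_finsetSum hci, intervalIntegral.integral_const,
            smul_eq_mul]
          ring
      _ ≤ ∫ x in (-π)..π, S x := by
          apply intervalIntegral.integral_mono_on (by linarith)
            ((continuous_const.sub hcs).intervalIntegrable _ _) (hcS.intervalIntegrable _ _)
          intro x _
          have e1 := (h4 x).1
          have e2 := hlb x
          show δ - ∑ i, tent δ (θ i) x ≤ S x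
          linarith

end H904L2
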