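import Pool.Agent.H904L2.Defs

open Polynomial
open scoped Real

namespace H904L2

theorem even_of_neg_root (f : ℤ[X]) (hm : f.Monic) (hi : Irreducible f) (h0 : f.coeff 0 ≠ 0)
    (x y : ℂ) (hx : aeval x f = 0) (hy : aeval y f = 0) (hxy : x ≠ y) (hsq : x ^ 2 = y ^ 2) :
    ∃ g : ℤ[X], g.Monic ∧ Irreducible g ∧ g.coeff 0 ≠ 0 ∧ f = g.comp (X ^ 2) := by
  have hyx : y = -x := by
    rcases sq_eq_sq_iff_eq_or_eq_neg.mp hsq with h | h
    · exact absurd h hxy
    · rw [h, neg_neg]
  have hint : IsIntegral ℤ x := ⟨f, hm, by simpa [aeval_def] using hx⟩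
  -- f divides f(-X)
  have hcomp : aeval x (f.comp (-X)) = 0 := by
    rw [aeval_comp]
    simp only [map_neg, aeval_X]
    rw [← hyx]; exact hy
  have hmin : minpoly ℤ x ∣ f := minpoly.isIntegrallyClosed_dvd hint hx
  have hmin' : f ∣ f.comp (-X) := by
    have hnu : ¬ IsUnit (minpoly ℤ x) := minpoly.not_isUnit ℤ x
    have hass : Associated (minpoly ℤ x) f :=
      (hi.dvd_iff.mp hmin).resolve_left hnu |>.symm
    exact hass.symm.dvd.trans (minpoly.isIntegrallyClosed_dvd hint hcomp)
  obtain ⟨c, hc⟩ := hmin'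
  have hcoeff : ∀ n, (f.comp (-X)).coeff n = (-1) ^ n * f.coeff n := by
    intro n
    have h1 : (-X : ℤ[X]) = C (-1) * X := by simp
    rw [h1, comp_C_mul_X_coeff, mul_comm]
  have hf0 : f ≠ 0 := hm.ne_zero
  have hne : f.comp (-X) ≠ 0 := by
    intro h
    have := hcoeff 0
    rw [h] at this
    simp at this
    exact h0 this.symm
  have hc0 : c ≠ 0 := by
    rintro rfl
    exact hne (by rw [hc, mul_zero])
  have hdeg : (f.comp (-X)).natDegree = f.natDegree := by
    rw [natDegree_comp]
    simp
  have hcd : c.natDegree = 0 := by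
    rw [hc, natDegree_mul hf0 hc0] at hdeg
    omega
  obtain ⟨k, rfl⟩ := natDegree_eq_zero.mp hcd
  have hk : k = 1 := by
    have h1 := hcoeff 0
    rw [hc] at h1
    simp only [coeff_mul_C, pow_zero, one_mul] at h1
    have : f.coeff 0 * (k - 1) = 0 := by linarith
    rcases mul_eq_zero.mp this with h | h
    · exact absurd h h0
    · linarith
  subst hk
  have hodd : ∀ n, ¬ 2 ∣ n → f.coeff n = 0 := by
    intro n hn
    have h1 := hcoeff n
    rw [hc] at h1
    have hodd : Odd n := by
      rcases Nat.even_or_odd n with h | h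
      · exact absurd h.two_dvd hn
      · exact h
    rw [hodd.neg_one_pow] at h1
    simp at h1
    omega
  have hexp : expand ℤ 2 (contract 2 f) = f := by
    ext n
    rw [coeff_expand (by norm_num : 0 < 2)]
    split_ifs with h
    · rw [coeff_contract (by norm_num), Nat.div_mul_cancel h]
    · exact (hodd n h).symm
  refine ⟨contract 2 f, ?_, ?_, ?_, ?_⟩
  · have : (expand ℤ 2 (contract 2 f)).Monic := by rw [hexp]; exact hm
    exact (monic_expand_iff (by norm_num)).mp this
  · apply of_irreducible_expand (p := 2) (by norm_num)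
    rw [hexp]; exact hi
  · rw [coeff_contract (by norm_num)]
    simpa using h0
  · conv_lhs => rw [← hexp]
    rw [expand_eq_comp_X_pow]

end H904L2
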