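import Pool.Agent.H904L2.Defs

open Polynomial
open scoped Real

namespace H904L2

namespace Main2

/-- statement of F1 -/
def MainIrred : Prop := ∀ (f : ℤ[X]) (_ : f.Monic) (_ : Irreducible f)
    (_ : ∃ x : ℂ, aeval x f = 0 ∧ 1 < ‖x‖),
    1 / (640 * (f.natDegree : ℝ)) ≤
      ((f.map (Int.castRingHom ℂ)).roots.map fun z => (Real.posLog ‖z‖) ^ 2).sum

theorem exists_root (f : ℤ[X]) (hm : f.Monic)
    (hbig : 1 < (f.map (Int.castRingHom ℂ)).mahlerMeasure) :
    ∃ x : ℂ, x ∈ (f.map (Int.castRingHom ℂ)).roots ∧ 1 < ‖x‖ := by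
  by_contra hcon
  push Not at hcon
  have h1 := Polynomial.mahlerMeasure_eq_leadingCoeff_mul_prod_roots (f.map (Int.castRingHom ℂ))
  have hlc : (f.map (Int.castRingHom ℂ)).leadingCoeff = 1 := (hm.map _).leadingCoeff
  rw [hlc, norm_one, one_mul] at h1
  have h2 : ((f.map (Int.castRingHom ℂ)).roots.map fun a => max 1 ‖a‖).prod = 1 := by
    apply Multiset.prod_eq_one
    intro y hy
    obtain ⟨a, ha, rfl⟩ := Multiset.mem_map.1 hy
    exact max_eq_left (hcon a ha)
  rw [h1, h2] at hbig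
  exact lt_irrefl _ hbig

theorem main_of (H : MainIrred) (f : ℤ[X]) (hm : f.Monic)
    (hbig : 1 < (f.map (Int.castRingHom ℂ)).mahlerMeasure) :
    1 / (640 * (f.natDegree : ℝ)) ≤
      ((f.map (Int.castRingHom ℂ)).roots.map fun z => (Real.posLog ‖z‖) ^ 2).sum := by
  obtain ⟨x, hx, hx1⟩ := exists_root f hm hbig
  have hroot : aeval x f = 0 := by
    have h := (mem_roots'.1 hx).2
    rw [IsRoot.def, eval_map] at h
    rw [aeval_def]
    simpa using h
  have hint : IsIntegral ℤ x := ⟨f, hm, by rwa [aeval_def] at hroot⟩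
  have hgm : (minpoly ℤ x).Monic := minpoly.monic hint
  have hgi : Irreducible (minpoly ℤ x) := minpoly.irreducible hint
  have hdvd : minpoly ℤ x ∣ f := minpoly.isIntegrallyClosed_dvd hint hroot
  have hfm0 : f.map (Int.castRingHom ℂ) ≠ 0 := (hm.map _).ne_zero
  have hle : ((minpoly ℤ x).map (Int.castRingHom ℂ)).roots ≤ (f.map (Int.castRingHom ℂ)).roots :=
    Polynomial.roots.le_of_dvd hfm0 (Polynomial.map_dvd _ hdvd)
  have hdeg : (minpoly ℤ x).natDegree ≤ f.natDegree := natDegree_le_of_dvd hdvd hm.ne_zero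
  have hpos : 0 < (minpoly ℤ x).natDegree := minpoly.natDegree_pos hint
  have h1 := H (minpoly ℤ x) hgm hgi ⟨x, minpoly.aeval ℤ x, hx1⟩
  obtain ⟨u, hu⟩ := Multiset.le_iff_exists_add.1 hle
  have h2 : (((minpoly ℤ x).map (Int.castRingHom ℂ)).roots.map fun z => (Real.posLog ‖z‖) ^ 2).sum ≤
      ((f.map (Int.castRingHom ℂ)).roots.map fun z => (Real.posLog ‖z‖) ^ 2).sum := by
    rw [hu, Multiset.map_add, Multiset.sum_add]
    have : 0 ≤ (u.map fun z : ℂ => (Real.posLog ‖z‖) ^ 2).sum := by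
      apply Multiset.sum_nonneg
      intro y hy
      obtain ⟨a, _, rfl⟩ := Multiset.mem_map.1 hy
      positivity
    linarith
  have h3 : 1 / (640 * (f.natDegree : ℝ)) ≤ 1 / (640 * ((minpoly ℤ x).natDegree : ℝ)) := by
    have hp : (0 : ℝ) < ((minpoly ℤ x).natDegree : ℝ) := by exact_mod_cast hpos
    have hd : ((minpoly ℤ x).natDegree : ℝ) ≤ (f.natDegree : ℝ) := by exact_mod_cast hdeg
    exact one_div_le_one_div_of_le (by positivity) (by linarith)
  linarith

end Main2

end H904L2
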