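import Pool.Agent.H904L2.Main1
import Pool.Agent.H904L2.Main2

open Polynomial
open scoped Real

namespace H904L2

theorem main (f : ℤ[X]) (hm : f.Monic) (hbig : 1 < (f.map (Int.castRingHom ℂ)).mahlerMeasure) :
    1 / (640 * (f.natDegree : ℝ)) ≤
      ((f.map (Int.castRingHom ℂ)).roots.map fun z => (Real.posLog ‖z‖) ^ 2).sum :=
  Main2.main_of (fun f hm hi hb => main_irred f hm hi hb) f hm hbig

end H904L2
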