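import Pool.Agent.H904L2.Defs

open Polynomial
open scoped Real

namespace H904L2

namespace Graeffe

lemma coeff_neg_X {S : Type*} [CommRing S] (P : S[X]) (n : ℕ) :
    (P.comp (-X)).coeff n = (-1) ^ n * P.coeff n := by
  have h : P.comp (-X) = P.comp (C (-1) * X) := by
    congr 1
    simp
  rw [h, comp_C_mul_X_coeff]
  ring

lemma even_of (P : ℤ[X]) (h : P.comp (-X) = P) : ∃ Q : ℤ[X], Q.comp (X ^ 2) = P := by
  refine ⟨contract 2 P, ?_⟩
  rw [← expand_eq_comp_X_pow]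
  ext n
  rw [coeff_expand (by norm_num : 0 < 2)]
  split_ifs with hn
  · rw [coeff_contract (by norm_num : 2 ≠ 0), Nat.div_mul_cancel hn]
  · have h1 := congrArg (fun Q : ℤ[X] => Q.coeff n) h
    simp only [coeff_neg_X] at h1
    have h2 : Odd n := by
      rwa [← Nat.not_even_iff_odd, even_iff_two_dvd]
    rw [h2.neg_one_pow] at h1
    linarith

lemma dvd_coeffs (P : ℤ[X]) (h : ∀ n, (2 : ℤ) ∣ P.coeff n) : ∃ Q : ℤ[X], P = 2 * Q := by
  obtain ⟨Q, hQ⟩ := (C_dvd_iff_dvd_coeff (2 : ℤ) P).2 h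
  exact ⟨Q, hQ⟩

/-- `P(-x) = P(x) - 2 O(x)` -/
lemma odd_part (P : ℤ[X]) : ∃ O : ℤ[X], P.comp (-X) = P - 2 * O := by
  obtain ⟨O, hO⟩ := dvd_coeffs (P - P.comp (-X)) (by
    intro n
    rw [coeff_sub, coeff_neg_X]
    rcases Nat.even_or_odd n with hn | hn
    · rw [hn.neg_one_pow]; simp
    · rw [hn.neg_one_pow]
      exact ⟨P.coeff n, by ring⟩)
  exact ⟨O, by rw [← hO]; ring⟩

/-- Frobenius -/
lemma frob (P : ℤ[X]) : ∃ W : ℤ[X], P ^ 2 = P.comp (X ^ 2) + 2 * W := by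
  obtain ⟨W, hW⟩ := dvd_coeffs (P ^ 2 - P.comp (X ^ 2)) (by
    intro n
    have h1 : (P ^ 2 - P.comp (X ^ 2)).map (Int.castRingHom (ZMod 2)) = 0 := by
      rw [Polynomial.map_sub, Polynomial.map_pow, ← expand_eq_comp_X_pow, map_expand,
        ZMod.expand_card, sub_self]
    have h2 := congrArg (fun Q : (ZMod 2)[X] => Q.coeff n) h1
    simp only [coeff_map, coeff_zero] at h2
    exact (ZMod.intCast_zmod_eq_zero_iff_dvd _ 2).1 h2)
  exact ⟨W, by rw [← hW]; ring⟩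

lemma comp_sq_inj {S : Type*} [CommRing S] {P Q : S[X]} (h : P.comp (X ^ 2) = Q.comp (X ^ 2)) :
    P = Q := by
  rw [← expand_eq_comp_X_pow, ← expand_eq_comp_X_pow] at h
  exact expand_injective (by norm_num : 0 < 2) h

/-- if `(c * W)` is a polynomial in `X ^ 2` then so is `W` up to a `contract` -/
lemma contract_mul (P W : ℤ[X]) (c : ℤ) (h : P.comp (X ^ 2) = C c * W) :
    P = C c * contract 2 W := by
  ext n
  have h1 := congrArg (fun Q : ℤ[X] => Q.coeff (n * 2)) h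
  simp only [← expand_eq_comp_X_pow, coeff_expand_mul (by norm_num : 0 < 2), coeff_C_mul] at h1
  rw [coeff_C_mul, coeff_contract (by norm_num : 2 ≠ 0)]
  exact h1

end Graeffe

open Graeffe

theorem exists_graeffe (R : ℤ[X]) : ∃ R2 : ℤ[X], R2.comp (X ^ 2) = R * R.comp (-X) := by
  apply even_of
  rw [mul_comp_neg_X, comp_neg_X_comp_neg_X, mul_comm]

theorem graeffe_congr (R R2 R4 : ℤ[X]) (h2 : R2.comp (X ^ 2) = R * R.comp (-X))
    (h4 : R4.comp (X ^ 2) = R2 * R2.comp (-X)) : ∃ U : ℤ[X], R4 = R2 + 4 * U := by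
  obtain ⟨O, hO⟩ := odd_part R
  obtain ⟨W, hW⟩ := frob R
  -- R2 = R + 2 V
  have e1 : (R2 - R).comp (X ^ 2) = C 2 * (W - R * O) := by
    rw [sub_comp, h2, hO]
    have : R.comp (X ^ 2) = R ^ 2 - 2 * W := by rw [hW]; ring
    rw [this]
    have hc : (C 2 : ℤ[X]) = 2 := rfl
    rw [hc]
    ring
  obtain ⟨V, hV⟩ : ∃ V : ℤ[X], R2 = R + 2 * V := by
    refine ⟨contract 2 (W - R * O), ?_⟩
    have e2 := contract_mul _ _ _ e1
    have hc : (C 2 : ℤ[X]) = 2 := rfl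
    rw [hc] at e2
    rw [← e2]; ring
  obtain ⟨O', hO'⟩ := odd_part V
  have e3 : (R4 - R2).comp (X ^ 2) = C 4 * (V * R - V * O - R * O' + V * V.comp (-X)) := by
    have hc : (C 4 : ℤ[X]) = 4 := rfl
    have h5 : R2.comp (-X) = R.comp (-X) + 2 * V.comp (-X) := by
      rw [hV, add_comp, mul_comp]
      congr 2
      exact C_comp (a := (2 : ℤ))
    have h6 : R4.comp (X ^ 2) = (R + 2 * V) * (R.comp (-X) + 2 * V.comp (-X)) := by
      rw [h4, h5, ← hV]
    rw [sub_comp, h6, h2, hc]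
    have h7 : R * V.comp (-X) = R * V - 2 * (R * O') := by rw [hO']; ring
    have h8 : V * R.comp (-X) = R * V - 2 * (V * O) := by rw [hO]; ring
    linear_combination 2 * h7 + 2 * h8
  refine ⟨contract 2 (V * R - V * O - R * O' + V * V.comp (-X)), ?_⟩
  have e4 := contract_mul _ _ _ e3
  have hc : (C 4 : ℤ[X]) = 4 := rfl
  rw [hc] at e4
  rw [← e4]; ring

theorem graeffe_prod {ι : Type} [Fintype ι] (a : ι → ℂ) (R R2 : ℤ[X])
    (hR : R.map (Int.castRingHom ℂ) = ∏ i, (1 - C (a i) * X))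
    (h2 : R2.comp (X ^ 2) = R * R.comp (-X)) :
    R2.map (Int.castRingHom ℂ) = ∏ i, (1 - C (a i ^ 2) * X) := by
  apply comp_sq_inj
  have h3 := congrArg (fun P : ℤ[X] => P.map (Int.castRingHom ℂ)) h2
  simp only [Polynomial.map_comp, Polynomial.map_mul, Polynomial.map_pow, Polynomial.map_X,
    Polynomial.map_neg, hR] at h3
  rw [h3, prod_comp, prod_comp, ← Finset.prod_mul_distrib]
  apply Finset.prod_congr rfl
  intro i _
  simp only [sub_comp, one_comp, mul_comp, C_comp, X_comp]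
  rw [map_pow]
  ring

end H904L2
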