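import Pool.Agent.H904L2.Defs

open Polynomial
open scoped Real

namespace H904L2

namespace IntCoeffs

/-- complex numbers which are integers -/
def Z : Subring ℂ := (Int.castRingHom ℂ).range

lemma mem_Z (n : ℤ) : (n : ℂ) ∈ Z := ⟨n, rfl⟩

/-- a power series with `s + s^2 = v`, `s(0) = 0`, `v` integral is integral -/
lemma int_of_quad (s v : PowerSeries ℂ) (h : s + s ^ 2 = v)
    (h0 : PowerSeries.constantCoeff s = 0) (hv : ∀ n, PowerSeries.coeff n v ∈ Z) :
    ∀ n, PowerSeries.coeff n s ∈ Z := by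
  intro n
  induction n using Nat.strong_induction_on with
  | _ n ih =>
    have h1 : PowerSeries.coeff n s = PowerSeries.coeff n v - PowerSeries.coeff n (s ^ 2) := by
      rw [← h, map_add]; ring
    rw [h1]
    apply Z.sub_mem (hv n)
    rw [pow_two, PowerSeries.coeff_mul]
    apply Z.sum_mem
    rintro ⟨i, j⟩ hij
    have hij : i + j = n := Finset.HasAntidiagonal.mem_antidiagonal.1 hij
    simp only
    rcases Nat.eq_zero_or_pos i with hi | hi
    · subst hi
      rw [PowerSeries.coeff_zero_eq_constantCoeff_apply, h0, zero_mul]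
      exact Z.zero_mem
    rcases Nat.eq_zero_or_pos j with hj | hj
    · subst hj
      rw [PowerSeries.coeff_zero_eq_constantCoeff_apply, h0, mul_zero]
      exact Z.zero_mem
    exact Z.mul_mem (ih i (by omega)) (ih j (by omega))

lemma mul_int (f g : PowerSeries ℂ) (hf : ∀ n, PowerSeries.coeff n f ∈ Z)
    (hg : ∀ n, PowerSeries.coeff n g ∈ Z) : ∀ n, PowerSeries.coeff n (f * g) ∈ Z := by
  intro n
  rw [PowerSeries.coeff_mul]
  exact Z.sum_mem fun p _ => Z.mul_mem (hf _) (hg _)

lemma map_int (f : PowerSeries ℤ) :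
    ∀ n, PowerSeries.coeff n (PowerSeries.map (Int.castRingHom ℂ) f) ∈ Z := by
  intro n
  rw [PowerSeries.coeff_map]
  exact mem_Z _

end IntCoeffs

open IntCoeffs

theorem int_coeffs (R2 R4 U : ℤ[X]) (h2 : R2.coeff 0 = 1) (h4 : R4.coeff 0 = 1)
    (h : R4 = R2 + 4 * U) (f : PowerSeries ℂ) (hf0 : PowerSeries.constantCoeff f = 1)
    (hf : f ^ 2 = (((R2 * R4).map (Int.castRingHom ℂ) : ℂ[X]) : PowerSeries ℂ)) :
    ∃ c : ℕ → ℤ, f = PowerSeries.mk fun n => (c n : ℂ) := by
  set φ := PowerSeries.map (Int.castRingHom ℂ) with hφ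
  set W : PowerSeries ℤ := PowerSeries.invOfUnit (R2 : PowerSeries ℤ) 1 with hW
  have hRW : (R2 : PowerSeries ℤ) * W = 1 := by
    apply PowerSeries.mul_invOfUnit
    rw [Polynomial.constantCoeff_coe, h2]
    rfl
  set A : PowerSeries ℂ := φ (R2 : PowerSeries ℤ) with hA
  set B : PowerSeries ℂ := φ W with hB
  set V : PowerSeries ℂ := φ (U : PowerSeries ℤ) with hV
  have hAB : A * B = 1 := by rw [hA, hB, ← map_mul, hRW, map_one]
  have hf2 : f ^ 2 = A * (A + 4 * V) := by
    rw [hf, Polynomial.polynomial_map_coe, h]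
    change φ _ = _
    rw [Polynomial.coe_mul, map_mul, Polynomial.coe_add, map_add, Polynomial.coe_mul, map_mul]
    congr 3
    change φ (((4 : ℤ[X]) : PowerSeries ℤ)) = 4
    have : ((4 : ℤ[X]) : PowerSeries ℤ) = (4 : PowerSeries ℤ) := by
      have h4 : (4 : ℤ[X]) = C 4 := rfl
      rw [h4, Polynomial.coe_C]
      rfl
    rw [this]
    exact map_ofNat φ 4
  set s : PowerSeries ℂ := PowerSeries.C (1 / 2 : ℂ) * (f * B - 1) with hs
  have h22 : (2 : PowerSeries ℂ) * PowerSeries.C (1 / 2 : ℂ) = 1 := by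
    have : (2 : PowerSeries ℂ) = PowerSeries.C (2 : ℂ) := by
      rw [map_ofNat]
    rw [this, ← map_mul]
    norm_num
  have h2s : 1 + 2 * s = f * B := by
    rw [hs, ← mul_assoc, h22]; ring
  have hfs : f = A * (1 + 2 * s) := by
    rw [h2s]
    calc f = f * (A * B) := by rw [hAB, mul_one]
      _ = A * (f * B) := by ring
  have hquad4 : (1 + 2 * s) ^ 2 = 1 + 4 * (V * B) := by
    rw [h2s, mul_pow, hf2]
    calc A * (A + 4 * V) * B ^ 2 = (A * B) * (A * B) + 4 * (A * B) * (V * B) := by ring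
      _ = 1 + 4 * (V * B) := by rw [hAB]; ring
  have hquad : s + s ^ 2 = V * B := by
    have e1 : 2 * (2 * (s + s ^ 2)) = 2 * (2 * (V * B)) := by
      have e2 : (1 + 2 * s) ^ 2 = 1 + 2 * (2 * (s + s ^ 2)) := by ring
      rw [e2] at hquad4
      have e3 := add_left_cancel hquad4
      rw [e3]; ring
    have e4 : ∀ x y : PowerSeries ℂ, 2 * x = 2 * y → x = y := by
      intro x y hxy
      have := congrArg (fun z => PowerSeries.C (1 / 2 : ℂ) * z) hxy
      simp only [← mul_assoc] at this
      rw [mul_comm (PowerSeries.C (1 / 2 : ℂ)) 2, h22, one_mul, one_mul] at this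
      exact this
    exact e4 _ _ (e4 _ _ e1)
  have hB0 : PowerSeries.constantCoeff B = 1 := by
    have e1 : PowerSeries.constantCoeff A = 1 := by
      rw [hA, hφ, ← PowerSeries.coeff_zero_eq_constantCoeff_apply, PowerSeries.coeff_map,
        PowerSeries.coeff_zero_eq_constantCoeff_apply, Polynomial.constantCoeff_coe, h2]
      simp
    have e2 := congrArg PowerSeries.constantCoeff hAB
    rw [map_mul, e1, one_mul, map_one] at e2
    exact e2
  have hs0 : PowerSeries.constantCoeff s = 0 := by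
    rw [hs, map_mul, map_sub, map_mul, hf0, hB0]
    simp
  have hsZ := int_of_quad s (V * B) hquad hs0 (mul_int _ _ (map_int _) (map_int _))
  have hfZ : ∀ n, PowerSeries.coeff n f ∈ Z := by
    rw [hfs]
    apply mul_int _ _ (map_int _)
    intro n
    have e1 : (1 : PowerSeries ℂ) + 2 * s = φ 1 + (s + s) := by
      rw [map_one]; ring
    rw [e1, map_add, map_add]
    exact Z.add_mem (map_int _ n) (Z.add_mem (hsZ n) (hsZ n))
  choose c hc using hfZ
  refine ⟨c, ?_⟩
  ext n
  rw [PowerSeries.coeff_mk]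
  exact (hc n).symm

end H904L2
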