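import Pool.Agent.H904L2.Defs

open Polynomial
open scoped Real

namespace H904L2

namespace NotSquare

theorem fac (b : ℂ) (hb : b ≠ 0) : (1 - C b * X : ℂ[X]) = C (-b) * (X - C b⁻¹) := by
  have : C (-b) * C b⁻¹ = (-1 : ℂ[X]) := by
    rw [← C_mul]
    simp [hb]
  rw [mul_sub, this]
  simp
  ring

theorem fac_ne (b : ℂ) (hb : b ≠ 0) : (1 - C b * X : ℂ[X]) ≠ 0 := by
  rw [fac b hb]
  exact mul_ne_zero (by simpa using hb) (X_sub_C_ne_zero _)

theorem fac_roots (b : ℂ) (hb : b ≠ 0) : (1 - C b * X : ℂ[X]).roots = {b⁻¹} := by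
  rw [fac b hb, roots_C_mul _ (by simpa using hb), roots_X_sub_C]

theorem count_prod {ι : Type} [Fintype ι] (b : ι → ℂ) (hb : ∀ i, b i ≠ 0) (x : ℂ) :
    (∏ i, (1 - C (b i) * X : ℂ[X])).roots.count x = (Finset.univ.filter fun i => x = (b i)⁻¹).card := by
  classical
  rw [roots_prod _ _ (Finset.prod_ne_zero_iff.mpr fun i _ => fac_ne _ (hb i))]
  rw [Multiset.count_bind]
  simp only [fac_roots _ (hb _), Multiset.count_singleton]
  rw [Finset.card_filter]
  rfl

end NotSquare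

open NotSquare in
theorem not_square {ι : Type} [Fintype ι] (α : ι → ℂ) (h0 : ∀ i, α i ≠ 0)
    (hinj : Function.Injective fun i => α i ^ 2) (hbig : ∃ i, 1 < ‖α i‖) (P Q : ℂ[X])
    (hQ : Q ≠ 0) :
    Q ^ 2 * ((∏ i, (1 - C (α i ^ 2) * X)) * ∏ i, (1 - C (α i ^ 4) * X)) ≠ P ^ 2 := by
  classical
  intro heq
  have h2 : ∀ i, α i ^ 2 ≠ 0 := fun i => pow_ne_zero _ (h0 i)
  have h4 : ∀ i, α i ^ 4 ≠ 0 := fun i => pow_ne_zero _ (h0 i)
  have hA : (∏ i, (1 - C (α i ^ 2) * X) : ℂ[X]) ≠ 0 :=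
    Finset.prod_ne_zero_iff.mpr fun i _ => fac_ne _ (h2 i)
  have hB : (∏ i, (1 - C (α i ^ 4) * X) : ℂ[X]) ≠ 0 :=
    Finset.prod_ne_zero_iff.mpr fun i _ => fac_ne _ (h4 i)
  have hroots := congrArg Polynomial.roots heq
  rw [roots_mul (mul_ne_zero (pow_ne_zero 2 hQ) (mul_ne_zero hA hB)), roots_mul (mul_ne_zero hA hB),
    roots_pow, roots_pow] at hroots
  have hex : ∀ i, ∃ j, α j ^ 4 = α i ^ 2 := by
    intro i
    have hc := congrArg (Multiset.count (α i ^ 2)⁻¹) hroots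
    rw [Multiset.count_add, Multiset.count_add, Multiset.count_nsmul, Multiset.count_nsmul,
      count_prod _ h2, count_prod _ h4] at hc
    have h1 : (Finset.univ.filter fun j => (α i ^ 2)⁻¹ = (α j ^ 2)⁻¹) = {i} := by
      ext j
      simp only [Finset.mem_filter, Finset.mem_univ, true_and, Finset.mem_singleton, inv_inj]
      constructor
      · intro h
        exact (hinj h).symm
      · rintro rfl
        rfl
    rw [h1, Finset.card_singleton] at hc
    have hpos : 0 < (Finset.univ.filter fun j => (α i ^ 2)⁻¹ = (α j ^ 4)⁻¹).card := by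
      omega
    obtain ⟨j, hj⟩ := Finset.card_pos.mp hpos
    simp only [Finset.mem_filter, Finset.mem_univ, true_and, inv_inj] at hj
    exact ⟨j, hj.symm⟩
  choose j hj using hex
  have hjinj : Function.Injective j := by
    intro i i' h
    apply hinj
    simp only
    rw [← hj i, ← hj i', h]
  have hsurj := Finite.surjective_of_injective hjinj
  obtain ⟨i1, hi1⟩ := hbig
  have : Nonempty ι := ⟨i1⟩
  obtain ⟨i0, hi0⟩ := Finite.exists_max (fun i => ‖α i‖)
  have hgt : 1 < ‖α i0‖ := lt_of_lt_of_le hi1 (hi0 i1)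
  obtain ⟨i, hi⟩ := hsurj i0
  have h := congrArg norm (hj i)
  rw [hi, norm_pow, norm_pow] at h
  have hle := hi0 i
  have hnn := norm_nonneg (α i)
  nlinarith [sq_nonneg (‖α i0‖), mul_pos (by linarith : 0 < ‖α i0‖) (by linarith : 0 < ‖α i0‖ - 1)]

end H904L2
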