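import Pool.Agent.H904L2.Defs

set_option autoImplicit false

open Polynomial
open scoped Real

namespace H904L2

namespace SumSq

theorem aux (s : Multiset ℂ) :
    ((((s.map fun a => (X - C a : ℂ[X])).prod).comp (X ^ 2)).roots.map
      fun z => (Real.posLog ‖z‖) ^ 2).sum =
      (1 / 2 : ℝ) * (s.map fun z => (Real.posLog ‖z‖) ^ 2).sum := by
  induction s using Multiset.induction_on with
  | empty => simp
  | cons a s ih =>
    obtain ⟨t, ht⟩ : ∃ t : ℂ, t ^ 2 = a := IsAlgClosed.exists_pow_nat_eq a (by norm_num)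
    have h1 : ((X - C a : ℂ[X])).comp (X ^ 2) = (X - C t) * (X - C (-t)) := by
      rw [sub_comp, X_comp, C_comp, ← ht, C_pow, C_neg]
      ring
    have hmon : (((s.map fun a => (X - C a : ℂ[X])).prod).comp (X ^ 2)).Monic := by
      refine Monic.comp (monic_multiset_prod_of_monic _ _ fun b _ => monic_X_sub_C b)
        (monic_X_pow 2) ?_
      simp
    rw [Multiset.map_cons, Multiset.prod_cons, mul_comp, h1, roots_mul, roots_mul,
      roots_X_sub_C, roots_X_sub_C, Multiset.map_add, Multiset.map_add, Multiset.sum_add,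
      Multiset.sum_add, ih, Multiset.map_cons, Multiset.sum_cons]
    · have h2 : Real.posLog ‖a‖ = 2 * Real.posLog ‖t‖ := by
        rw [← ht, norm_pow, Real.posLog_pow]
        norm_num
      rw [Multiset.map_singleton, Multiset.map_singleton, Multiset.sum_singleton,
        Multiset.sum_singleton, norm_neg, h2]
      ring
    · exact mul_ne_zero (X_sub_C_ne_zero _) (X_sub_C_ne_zero _)
    · exact mul_ne_zero (mul_ne_zero (X_sub_C_ne_zero _) (X_sub_C_ne_zero _)) hmon.ne_zero

end SumSq

theorem sum_comp_sq (f g : ℤ[X]) (hg : g.Monic) (h : f = g.comp (X ^ 2)) :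
    ((f.map (Int.castRingHom ℂ)).roots.map fun z => (Real.posLog ‖z‖) ^ 2).sum =
      (1 / 2 : ℝ) * ((g.map (Int.castRingHom ℂ)).roots.map fun z => (Real.posLog ‖z‖) ^ 2).sum := by
  have h1 : (g.map (Int.castRingHom ℂ)).Monic := hg.map _
  have h2 : ((g.map (Int.castRingHom ℂ)).roots.map fun a => (X - C a : ℂ[X])).prod =
      g.map (Int.castRingHom ℂ) :=
    (IsAlgClosed.splits (g.map (Int.castRingHom ℂ))).eq_prod_roots_of_monic h1 |>.symm
  have h3 : f.map (Int.castRingHom ℂ) = (g.map (Int.castRingHom ℂ)).comp (X ^ 2) := by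
    rw [h, Polynomial.map_comp, Polynomial.map_pow, map_X]
  have h4 := SumSq.aux (g.map (Int.castRingHom ℂ)).roots
  rw [h2] at h4
  rw [h3, h4]

end H904L2
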