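import Pool.Agent.H904L2.IntCoeffs
import Pool.Agent.H904L2.Graeffe
import Pool.Agent.H904L2.EvenPoly
import Pool.Agent.H904L2.SumSq
import Pool.Agent.H904L2.NotSquare
import Pool.Agent.H904L2.Coeffs
import Pool.Agent.H904L2.AT2

/-! F1: number-theoretic assembly. -/

open Polynomial
open scoped Real

namespace H904L2

namespace Main1

/-- the complex roots of a monic irreducible integer polynomial are simple -/
theorem nodup_roots (f : ℤ[X]) (hm : f.Monic) (hi : Irreducible f) :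
    (f.map (Int.castRingHom ℂ)).roots.Nodup := by
  have h1 : Irreducible (f.map (algebraMap ℤ ℚ)) :=
    (hm.irreducible_iff_irreducible_map_fraction_map).mp hi
  have h2 : (f.map (algebraMap ℤ ℚ)).Separable := h1.separable
  have h3 : f.map (Int.castRingHom ℂ) = (f.map (algebraMap ℤ ℚ)).map (algebraMap ℚ ℂ) := by
    rw [Polynomial.map_map]
    congr 1
  rw [h3]
  exact Polynomial.nodup_roots h2.map

theorem coeff_zero_ne (f : ℤ[X]) (hi : Irreducible f)
    (hbig : ∃ x : ℂ, aeval x f = 0 ∧ 1 < ‖x‖) : f.coeff 0 ≠ 0 := by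
  intro h0
  obtain ⟨x, hx, hx1⟩ := hbig
  obtain ⟨g, hg⟩ := Polynomial.X_dvd_iff.mpr h0
  rcases hi.isUnit_or_isUnit hg with h | h
  · exact Polynomial.not_isUnit_X h
  · obtain ⟨u, hu, rfl⟩ := Polynomial.isUnit_iff.mp h
    have hu0 : (u : ℂ) ≠ 0 := by
      rcases Int.isUnit_iff.mp hu with h | h <;> rw [h] <;> norm_num
    rw [hg, map_mul, aeval_X, aeval_C] at hx
    have : x = 0 := by
      rcases mul_eq_zero.mp hx with h | h
      · exact h
      · exact absurd h (by simpa using hu0)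
    rw [this, norm_zero] at hx1
    linarith

theorem reverse_prod {κ : Type} (s : Finset κ) (α : κ → ℂ) :
    (∏ i ∈ s, (X - C (α i))).reverse = ∏ i ∈ s, (1 - C (α i) * X) := by
  classical
  induction s using Finset.induction_on with
  | empty => rw [Finset.prod_empty, Finset.prod_empty, ← C_1, reverse_C]
  | insert i s hi ih =>
    rw [Finset.prod_insert hi, Finset.prod_insert hi, reverse_mul_of_domain, ih]
    congr 1
    have h1 : (X - C (α i)).natDegree = 1 := natDegree_X_sub_C _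
    rw [reverse, h1]
    have h2 : (X - C (α i) : ℂ[X]) = X + C (-α i) := by rw [C_neg, sub_eq_add_neg]
    rw [h2, reflect_add, reflect_C, reflect_one_X, pow_one, C_neg]
    ring

/-- the main step, no two distinct roots with the same square -/
theorem injective_case (f : ℤ[X]) (hm : f.Monic) (hi : Irreducible f)
    (hbig : ∃ x : ℂ, aeval x f = 0 ∧ 1 < ‖x‖)
    (hinj : ∀ x y : ℂ, aeval x f = 0 → aeval y f = 0 → x ^ 2 = y ^ 2 → x = y) :
    1 / (640 * (f.natDegree : ℝ)) ≤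
      ((f.map (Int.castRingHom ℂ)).roots.map fun z => (Real.posLog ‖z‖) ^ 2).sum := by
  classical
  have h0 := coeff_zero_ne f hi hbig
  have hnd := nodup_roots f hm hi
  have hmC : (f.map (Int.castRingHom ℂ)).Monic := hm.map _
  have hne : f.map (Int.castRingHom ℂ) ≠ 0 := hmC.ne_zero
  have hroot : ∀ x : ℂ, x ∈ (f.map (Int.castRingHom ℂ)).roots ↔ aeval x f = 0 := by
    intro x
    rw [mem_roots hne, IsRoot.def, eval_map]
    rfl
  obtain ⟨s, hs⟩ : ∃ s : Finset ℂ, s = (f.map (Int.castRingHom ℂ)).roots.toFinset := ⟨_, rfl⟩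
  have hsmem : ∀ x : ℂ, x ∈ s ↔ aeval x f = 0 := by
    intro x; rw [hs, Multiset.mem_toFinset, hroot]
  have hsval : s.val = (f.map (Int.castRingHom ℂ)).roots := by
    rw [hs, Multiset.toFinset_val, Multiset.dedup_eq_self.mpr hnd]
  have hsum : ((f.map (Int.castRingHom ℂ)).roots.map fun z => (Real.posLog ‖z‖) ^ 2).sum =
      ∑ i : {x // x ∈ s}, (Real.posLog ‖(i : ℂ)‖) ^ 2 := by
    rw [← hsval]
    exact (Finset.sum_coe_sort s (fun z => (Real.posLog ‖z‖) ^ 2)).symm
  have hprod : f.map (Int.castRingHom ℂ) = ∏ i : {x // x ∈ s}, (X - C (i : ℂ)) := by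
    have h1 := (IsAlgClosed.splits (f.map (Int.castRingHom ℂ))).eq_prod_roots_of_monic hmC
    rw [← hsval] at h1
    rw [Finset.prod_coe_sort s (fun z => (X - C z : ℂ[X]))]
    exact h1
  have hcard : Fintype.card {x // x ∈ s} = f.natDegree := by
    have h1 : (f.map (Int.castRingHom ℂ)).natDegree = f.natDegree := hm.natDegree_map _
    rw [← h1, hprod, natDegree_prod_of_monic _ _ (fun i _ => monic_X_sub_C _)]
    simp
  obtain ⟨x0, hx0, hx01⟩ := hbig
  have hx0s : x0 ∈ s := (hsmem x0).mpr hx0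
  have : Nonempty {x // x ∈ s} := ⟨⟨x0, hx0s⟩⟩
  have hdpos : 0 < f.natDegree := by rw [← hcard]; exact Fintype.card_pos
  by_contra hcon
  push Not at hcon
  rw [hsum] at hcon
  obtain ⟨Sg, hSg⟩ : ∃ Sg : ℝ, Sg = ∑ i : {x // x ∈ s}, (Real.posLog ‖(i : ℂ)‖) ^ 2 := ⟨_, rfl⟩
  rw [← hSg] at hcon
  -- the reversed polynomial and its Graeffe transforms
  have hR : (f.reverse).map (Int.castRingHom ℂ) =
      ∏ i : {x // x ∈ s}, (1 - C (i : ℂ) * X) := by
    have h1 : (f.reverse).map (Int.castRingHom ℂ) = (f.map (Int.castRingHom ℂ)).reverse := by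
      rw [reverse, reverse, hm.natDegree_map, reflect_map]
    rw [h1, hprod, reverse_prod]
  obtain ⟨R2, hR2⟩ := exists_graeffe f.reverse
  obtain ⟨R4, hR4⟩ := exists_graeffe R2
  obtain ⟨U, hU⟩ := graeffe_congr _ _ _ hR2 hR4
  have hR2m := graeffe_prod (fun i : {x // x ∈ s} => (i : ℂ)) f.reverse R2 hR hR2
  have hR4m := graeffe_prod (fun i : {x // x ∈ s} => (i : ℂ) ^ 2) R2 R4 hR2m hR4
  have hR4m' : R4.map (Int.castRingHom ℂ) = ∏ i : {x // x ∈ s}, (1 - C ((i : ℂ) ^ 4) * X) := by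
    rw [hR4m]
    refine Finset.prod_congr rfl fun i _ => ?_
    rw [← pow_mul]
  have hcoef : ∀ b : {x // x ∈ s} → ℂ, (∏ i, (1 - C (b i) * X) : ℂ[X]).coeff 0 = 1 := by
    intro b
    rw [coeff_zero_eq_eval_zero, eval_prod]
    simp
  have hR20 : R2.coeff 0 = 1 := by
    have h1 : (R2.map (Int.castRingHom ℂ)).coeff 0 = 1 := by rw [hR2m]; exact hcoef _
    rw [coeff_map] at h1
    exact_mod_cast (by simpa using h1 : ((R2.coeff 0 : ℤ) : ℂ) = 1)
  have hR40 : R4.coeff 0 = 1 := by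
    have h1 : (R4.map (Int.castRingHom ℂ)).coeff 0 = 1 := by rw [hR4m']; exact hcoef _
    rw [coeff_map] at h1
    exact_mod_cast (by simpa using h1 : ((R4.coeff 0 : ℤ) : ℂ) = 1)
  obtain ⟨a, ha⟩ : ∃ a : {x // x ∈ s} ⊕ {x // x ∈ s} → ℂ,
      a = Sum.elim (fun i : {x // x ∈ s} => (i : ℂ) ^ 2)
        (fun i : {x // x ∈ s} => (i : ℂ) ^ 4) := ⟨_, rfl⟩
  have haprod : (∏ i, (1 - C (a i) * X) : ℂ[X]) =
      (∏ i : {x // x ∈ s}, (1 - C ((i : ℂ) ^ 2) * X)) *
        ∏ i : {x // x ∈ s}, (1 - C ((i : ℂ) ^ 4) * X) := by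
    rw [Fintype.prod_sum_type, ha]
    simp only [Sum.elim_inl, Sum.elim_inr]
  have hmapprod : (R2 * R4).map (Int.castRingHom ℂ) = (∏ i, (1 - C (a i) * X) : ℂ[X]) := by
    rw [Polynomial.map_mul, hR2m, hR4m', haprod]
  obtain ⟨c', hc'0, hc'2, -⟩ := exists_coeffs a
  have hcc : PowerSeries.constantCoeff (PowerSeries.mk c') = (1 : ℂ) := by
    rw [← PowerSeries.coeff_zero_eq_constantCoeff_apply, PowerSeries.coeff_mk, hc'0]
  obtain ⟨c, hc⟩ := int_coeffs R2 R4 U hR20 hR40 hU (PowerSeries.mk c') hcc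
    (by rw [hc'2, hmapprod])
  have hc0 : c 0 = 1 := by
    have h1 := congrArg (PowerSeries.coeff 0) hc
    rw [PowerSeries.coeff_mk, PowerSeries.coeff_mk, hc'0] at h1
    exact_mod_cast h1.symm
  have hane : ∀ i : {x // x ∈ s}, (i : ℂ) ≠ 0 := by
    intro i hi0
    have h1 := (hsmem i).mp i.2
    rw [hi0] at h1
    apply h0
    rw [← coeff_zero_eq_aeval_zero'] at h1
    simpa using h1
  have ha0 : ∀ i, a i ≠ 0 := by
    intro i
    rw [ha]
    rcases i with i | i
    · exact pow_ne_zero _ (hane i)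
    · exact pow_ne_zero _ (hane i)
  have hsq : (Fintype.card ({x // x ∈ s} ⊕ {x // x ∈ s}) : ℝ) *
      ∑ i, (Real.posLog ‖a i‖) ^ 2 < 1 / 16 := by
    rw [Fintype.card_sum, hcard, Fintype.sum_sum_type, ha]
    simp only [Sum.elim_inl, Sum.elim_inr, norm_pow, Real.posLog_pow]
    have h1 : ∑ i : {x // x ∈ s}, (((2 : ℕ) : ℝ) * Real.posLog ‖(i : ℂ)‖) ^ 2 = 4 * Sg := by
      rw [hSg, Finset.mul_sum]
      refine Finset.sum_congr rfl fun i _ => ?_
      push_cast; ring
    have h2 : ∑ i : {x // x ∈ s}, (((4 : ℕ) : ℝ) * Real.posLog ‖(i : ℂ)‖) ^ 2 = 16 * Sg := by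
      rw [hSg, Finset.mul_sum]
      refine Finset.sum_congr rfl fun i _ => ?_
      push_cast; ring
    rw [h1, h2]
    have hd : (0 : ℝ) < f.natDegree := by exact_mod_cast hdpos
    rw [lt_div_iff₀ (by positivity)] at hcon
    push_cast
    nlinarith
  obtain ⟨P, Q, hQ, hPQ⟩ := AT2 a ha0 c hc0 (by rw [← hc]; exact hc'2) hsq
  rw [haprod] at hPQ
  refine not_square (fun i : {x // x ∈ s} => (i : ℂ)) hane ?_ ⟨⟨x0, hx0s⟩, hx01⟩ P Q hQ hPQ
  intro i j hij
  exact Subtype.ext (hinj i j ((hsmem i).mp i.2) ((hsmem j).mp j.2) hij)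

end Main1

/-! F1 -/
theorem main_irred (f : ℤ[X]) (hm : f.Monic) (hi : Irreducible f)
    (hbig : ∃ x : ℂ, aeval x f = 0 ∧ 1 < ‖x‖) :
    1 / (640 * (f.natDegree : ℝ)) ≤
      ((f.map (Int.castRingHom ℂ)).roots.map fun z => (Real.posLog ‖z‖) ^ 2).sum := by
  obtain ⟨n, hn⟩ : ∃ n, n = f.natDegree := ⟨_, rfl⟩
  induction n using Nat.strong_induction_on generalizing f with
  | _ n ih =>
    by_cases hinj : ∀ x y : ℂ, aeval x f = 0 → aeval y f = 0 → x ^ 2 = y ^ 2 → x = y
    · exact Main1.injective_case f hm hi hbig hinj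
    · push Not at hinj
      obtain ⟨x, y, hx, hy, hxy, hne⟩ := hinj
      obtain ⟨g, hgm, hgi, -, hfg⟩ := even_of_neg_root f hm hi
        (Main1.coeff_zero_ne f hi hbig) x y hx hy hne hxy
      obtain ⟨x0, hx0, hx01⟩ := hbig
      have hgroot : aeval (x0 ^ 2) g = 0 := by
        rw [hfg, aeval_comp] at hx0
        simpa using hx0
      have hg1 : 1 < ‖x0 ^ 2‖ := by
        rw [norm_pow]
        exact one_lt_pow₀ hx01 (by norm_num)
      have hdeg : f.natDegree = g.natDegree * 2 := by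
        rw [hfg, natDegree_comp, natDegree_X_pow]
      have hgpos : 0 < g.natDegree := by
        rcases Nat.eq_zero_or_pos g.natDegree with h | h
        · exfalso
          have h1 : g = 1 := hgm.natDegree_eq_zero.mp h
          rw [h1] at hgi
          exact not_irreducible_one hgi
        · exact h
      have hlt : g.natDegree < n := by omega
      have h1 := ih g.natDegree hlt g hgm hgi ⟨x0 ^ 2, hgroot, hg1⟩ rfl
      rw [sum_comp_sq f g hgm hfg, hdeg]
      have h2 : 1 / (640 * ((g.natDegree * 2 : ℕ) : ℝ)) =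
          1 / 2 * (1 / (640 * (g.natDegree : ℝ))) := by
        push_cast
        have : (g.natDegree : ℝ) ≠ 0 := by positivity
        field_simp
      rw [h2]
      linarith

end H904L2

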