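import Pool.Agent.H904L2.Defs

open Polynomial
open scoped Real

namespace H904L2

namespace Radial

open MeasureTheory Set

/-- the polar integrand -/
noncomputable def HH (G : ℂ → ℂ →L[ℝ] ℝ) (a : ℂ) (p : ℝ × ℝ) : ℝ :=
  G (a + p.1 * Complex.exp (p.2 * Complex.I)) (Complex.exp (p.2 * Complex.I))

theorem measurable_HH (G : ℂ → ℂ →L[ℝ] ℝ) (hG : Measurable G) (a : ℂ) : Measurable (HH G a) := by
  unfold HH
  have h1 : Measurable fun p : ℝ × ℝ => Complex.exp (p.2 * Complex.I) := by fun_prop
  have h2 : Measurable fun p : ℝ × ℝ => a + p.1 * Complex.exp (p.2 * Complex.I) := by fun_prop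
  exact ContinuousLinearMap.measurable_apply₂.comp ((hG.comp h2).prodMk h1)

theorem bound_HH (G : ℂ → ℂ →L[ℝ] ℝ) (a : ℂ) (M : ℝ) (hGM : ∀ z, ‖G z‖ ≤ M) (p : ℝ × ℝ) :
    ‖HH G a p‖ ≤ M := by
  unfold HH
  refine (ContinuousLinearMap.le_opNorm _ _).trans ?_
  rw [Complex.norm_exp_ofReal_mul_I, mul_one]
  exact hGM _

theorem vf_polar (a : ℂ) (ρ R r θ : ℝ) (hr : 0 < r) :
    vf a ρ R (a + r * Complex.exp (θ * Complex.I)) =
      if ρ < r ∧ r < R then ((r⁻¹ : ℝ) : ℂ) * Complex.exp (θ * Complex.I) else 0 := by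
  unfold vf
  have hn : ‖a + r * Complex.exp (θ * Complex.I) - a‖ = r := by
    rw [add_sub_cancel_left, norm_mul, Complex.norm_exp_ofReal_mul_I, mul_one, Complex.norm_real,
      Real.norm_eq_abs, abs_of_pos hr]
  rw [hn]
  split_ifs with h
  · rw [add_sub_cancel_left]
    have : (r : ℂ) ≠ 0 := by exact_mod_cast hr.ne'
    push_cast
    field_simp
  · rfl

end Radial

open MeasureTheory Set in
theorem radial (W : ℂ → ℝ) (hW : Continuous W) (G : ℂ → ℂ →L[ℝ] ℝ) (hG : Measurable G) (M : ℝ)
    (hGM : ∀ z, ‖G z‖ ≤ M) (S : Set ℂ) (hS : ∀ z ∉ S, HasFDerivAt W (G z) z) (a : ℂ) (ρ R : ℝ)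
    (hρ : 0 < ρ) (hR : ρ < R)
    (hSc : ∀ θ : ℝ, {r : ℝ | a + r * Complex.exp (θ * Complex.I) ∈ S}.Countable) :
    ∫ z, G z (vf a ρ R z) = 2 * π * (Real.circleAverage W a R - Real.circleAverage W a ρ) := by
  have hπ : 0 < π := Real.pi_pos
  -- translation and polar coordinates
  have h1 : ∫ z, G z (vf a ρ R z) = ∫ z, G (a + z) (vf a ρ R (a + z)) :=
    (integral_add_left_eq_self (μ := volume) (fun z => G z (vf a ρ R z)) a).symm
  rw [h1, ← Complex.integral_comp_polarCoord_symm, polarCoord_target]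
  -- restrict to the annulus
  have hsub : (Ioo ρ R ×ˢ Ioo (-π) π : Set (ℝ × ℝ)) ⊆ Ioi (0 : ℝ) ×ˢ Ioo (-π) π := by
    rintro ⟨r, θ⟩ ⟨h, h'⟩
    exact ⟨lt_trans hρ h.1, h'⟩
  have hval : ∀ p ∈ Ioi (0 : ℝ) ×ˢ Ioo (-π) π,
      p.1 • G (a + Complex.polarCoord.symm p) (vf a ρ R (a + Complex.polarCoord.symm p)) =
        if ρ < p.1 ∧ p.1 < R then Radial.HH G a p else 0 := by
    rintro ⟨r, θ⟩ ⟨hr, -⟩
    have hr' : 0 < r := hr
    have he : Complex.polarCoord.symm (r, θ) = r * Complex.exp (θ * Complex.I) := by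
      rw [Complex.polarCoord_symm_apply, Complex.exp_mul_I]
      push_cast
      ring
    rw [he, Radial.vf_polar a ρ R r θ hr']
    split_ifs with h
    · have : ((r⁻¹ : ℝ) : ℂ) * Complex.exp (θ * Complex.I) =
          (r⁻¹ : ℝ) • Complex.exp (θ * Complex.I) := by
        rw [Complex.real_smul]
      rw [this, map_smul, smul_smul, mul_inv_cancel₀ hr'.ne', one_smul]
      rfl
    · simp
  rw [setIntegral_eq_of_subset_of_forall_sdiff_eq_zero (measurableSet_Ioi.prod measurableSet_Ioo)
    hsub (by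
      rintro p ⟨hp, hp'⟩
      rw [hval p hp, if_neg]
      intro h
      exact hp' ⟨h, hp.2⟩)]
  rw [setIntegral_congr_fun (measurableSet_Ioo.prod measurableSet_Ioo)
    (g := Radial.HH G a) (by
      intro p hp
      beta_reduce
      rw [hval p (hsub hp), if_pos (show ρ < p.1 ∧ p.1 < R from hp.1)])]
  -- Fubini
  have hint : IntegrableOn (Radial.HH G a) (Ioo ρ R ×ˢ Ioo (-π) π) (volume.prod volume) := by
    refine Measure.integrableOn_of_bounded (M := M) ?_
      (Radial.measurable_HH G hG a).aestronglyMeasurable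
      (Filter.Eventually.of_forall fun p => Radial.bound_HH G a M hGM p)
    rw [Measure.prod_prod]
    exact (ENNReal.mul_lt_top (by simp) (by simp)).ne
  have hfub : ∫ p in Ioo ρ R ×ˢ Ioo (-π) π, Radial.HH G a p =
      ∫ θ in Ioo (-π) π, ∫ r in Ioo ρ R, Radial.HH G a (r, θ) := by
    rw [Measure.volume_eq_prod, ← setIntegral_prod_swap, setIntegral_prod]
    · rfl
    · exact hint.swap
  rw [hfub]
  -- inner integral
  have hinner : ∀ θ : ℝ, ∫ r in Ioo ρ R, Radial.HH G a (r, θ) =
      W (circleMap a R θ) - W (circleMap a ρ θ) := by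
    intro θ
    rw [← integral_Ioc_eq_integral_Ioo, ← intervalIntegral.integral_of_le hR.le]
    have := integral_eq_of_hasDerivAt_off_countable
      (fun r : ℝ => W (a + r * Complex.exp (θ * Complex.I)))
      (fun r : ℝ => Radial.HH G a (r, θ)) (a := ρ) (b := R) (hSc θ)
      (by fun_prop) ?_ ?_
    · rw [this]
      rfl
    · rintro r ⟨-, hr⟩
      have hr' : a + r * Complex.exp (θ * Complex.I) ∉ S := hr
      have hd := hS _ hr'
      have hg : HasDerivAt (fun r : ℝ => a + r * Complex.exp (θ * Complex.I))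
          (Complex.exp (θ * Complex.I)) r := by
        have h0 : HasDerivAt (fun r : ℝ => (r : ℂ)) 1 r := Complex.ofRealCLM.hasDerivAt
        have := (h0.mul_const (Complex.exp (θ * Complex.I))).const_add a
        simpa using this
      exact hd.comp_hasDerivAt r hg
    · refine (intervalIntegrable_iff_integrableOn_Ioc_of_le hR.le).2 ?_
      refine Measure.integrableOn_of_bounded (M := M) (by simp) ?_
        (Filter.Eventually.of_forall fun r => Radial.bound_HH G a M hGM (r, θ))
      exact ((Radial.measurable_HH G hG a).comp measurable_prodMk_right).aestronglyMeasurable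
  simp only [hinner]
  rw [← integral_Ioc_eq_integral_Ioo, ← intervalIntegral.integral_of_le (by linarith)]
  have hc : ∀ r : ℝ, Continuous fun θ : ℝ => W (circleMap a r θ) := fun r =>
    hW.comp (continuous_circleMap a r)
  rw [intervalIntegral.integral_sub ((hc R).intervalIntegrable _ _)
    ((hc ρ).intervalIntegrable _ _)]
  have hper : ∀ r : ℝ, ∫ θ in (-π)..π, W (circleMap a r θ) =
      ∫ θ in (0 : ℝ)..(2 * π), W (circleMap a r θ) := by
    intro r
    have hp : Function.Periodic (fun θ : ℝ => W (circleMap a r θ)) (2 * π) := by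
      intro θ
      simp only [periodic_circleMap a r θ]
    have := hp.intervalIntegral_add_eq (-π) 0
    have e1 : -π + 2 * π = π := by ring
    rw [e1, zero_add] at this
    exact this
  rw [hper, hper, Real.circleAverage_def, Real.circleAverage_def, smul_eq_mul, smul_eq_mul]
  field_simp

end H904L2
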