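import Pool.Agent.H904L2.Defs
import Pool.Agent.H904L2.Radial

open Polynomial
open scoped Real

namespace H904L2
namespace Pair

lemma measurable_vf (a : ℂ) (ρ R : ℝ) : Measurable (vf a ρ R) := by
  unfold vf
  refine Measurable.ite ?_ ?_ measurable_const
  · have hm : Measurable fun z : ℂ => ‖z - a‖ := (by fun_prop : Continuous fun z : ℂ =>
      ‖z - a‖).measurable
    exact MeasurableSet.inter (measurableSet_lt measurable_const hm)
      (measurableSet_lt hm measurable_const)
  · fun_prop

lemma norm_vf_le (a : ℂ) (ρ R : ℝ) (hρ : 0 < ρ) (z : ℂ) : ‖vf a ρ R z‖ ≤ 1 / ρ := by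
  unfold vf
  split_ifs with h
  · have h0 : 0 < ‖z - a‖ := hρ.trans h.1
    rw [norm_div, Complex.norm_real, Real.norm_of_nonneg (by positivity)]
    have : ‖z - a‖ / ‖z - a‖ ^ 2 = 1 / ‖z - a‖ := by field_simp
    rw [this]
    exact one_div_le_one_div_of_le hρ h.1.le
  · rw [norm_zero]; positivity

lemma continuous_wl (b : ℂ) (ρ R : ℝ) (hρ : 0 < ρ) (hR : ρ < R) : Continuous (wl b ρ R) := by
  unfold wl
  refine Continuous.log (by fun_prop) fun z => ?_
  have : 0 < min (max ‖z - b‖ ρ) R := lt_min (lt_max_of_lt_right hρ) (hρ.trans hR)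
  exact this.ne'

lemma hasFDerivAt_wl (b : ℂ) (ρ R : ℝ) (hρ : 0 < ρ) (hR : ρ < R) (z : ℂ)
    (hz : z ∉ Metric.sphere b ρ ∪ Metric.sphere b R) :
    HasFDerivAt (wl b ρ R) (innerSL ℝ (vf b ρ R z)) z := by
  simp only [Set.mem_union, mem_sphere_iff_norm, not_or] at hz
  obtain ⟨h1, h2⟩ := hz
  have hcont : Continuous fun x : ℂ => ‖x - b‖ := by fun_prop
  rcases lt_or_gt_of_ne h1 with h | h
  · have hv : vf b ρ R z = 0 := by
      unfold vf
      rw [if_neg]
      rintro ⟨h3, -⟩
      exact lt_asymm h h3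
    rw [hv, map_zero]
    refine (hasFDerivAt_const (Real.log (min ρ R)) z).congr_of_eventuallyEq ?_
    filter_upwards [(isOpen_lt hcont continuous_const).mem_nhds h] with x hx
    unfold wl
    rw [max_eq_right (le_of_lt hx)]
  · rcases lt_or_gt_of_ne h2 with h' | h'
    · have h0 : 0 < ‖z - b‖ := hρ.trans h
      have hv : vf b ρ R z = (‖z - b‖ ^ 2)⁻¹ • (z - b) := by
        unfold vf
        rw [if_pos ⟨h, h'⟩, Complex.real_smul, div_eq_inv_mul, Complex.ofReal_inv]
      have hd : HasFDerivAt (fun x : ℂ => (1 / 2 : ℝ) * Real.log (‖x - b‖ ^ 2))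
          ((1 / 2 : ℝ) • ((‖z - b‖ ^ 2)⁻¹ • (2 • (innerSL ℝ (z - b)).comp
            (ContinuousLinearMap.id ℝ ℂ)))) z := by
        refine HasFDerivAt.const_mul ?_ _
        refine HasFDerivAt.log ?_ (by positivity)
        exact ((hasFDerivAt_id z).sub_const b).norm_sq
      have he : innerSL ℝ (vf b ρ R z) = ((1 / 2 : ℝ) • ((‖z - b‖ ^ 2)⁻¹ •
          (2 • (innerSL ℝ (z - b)).comp (ContinuousLinearMap.id ℝ ℂ)))) := by
        rw [hv]
        ext h
        simp only [ContinuousLinearMap.smul_apply, ContinuousLinearMap.comp_apply,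
          ContinuousLinearMap.id_apply, innerSL_apply_apply, real_inner_smul_left, smul_eq_mul,
          nsmul_eq_mul]
        push_cast
        ring
      rw [he]
      refine hd.congr_of_eventuallyEq ?_
      filter_upwards [(isOpen_lt hcont continuous_const).mem_nhds h',
        (isOpen_lt continuous_const hcont).mem_nhds h] with x hx hx'
      unfold wl
      rw [max_eq_left (le_of_lt hx'), min_eq_left (le_of_lt hx), Real.log_pow]
      push_cast
      ring
    · have hv : vf b ρ R z = 0 := by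
        unfold vf
        rw [if_neg]
        rintro ⟨-, h3⟩
        exact lt_asymm h' h3
      rw [hv, map_zero]
      refine (hasFDerivAt_const (Real.log R) z).congr_of_eventuallyEq ?_
      filter_upwards [(isOpen_lt continuous_const hcont).mem_nhds h'] with x hx
      unfold wl
      rw [max_eq_left (hR.le.trans (le_of_lt hx)), min_eq_right (le_of_lt hx)]

lemma ray (a b : ℂ) (c θ : ℝ) :
    {r : ℝ | a + r * Complex.exp (θ * Complex.I) ∈ Metric.sphere b c}.Countable := by
  set e : ℂ := Complex.exp (θ * Complex.I) with he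
  have hn : ‖e‖ = 1 := Complex.norm_exp_ofReal_mul_I θ
  have key : ∀ r : ℝ, a + r * e ∈ Metric.sphere b c →
      r ^ 2 + 2 * inner ℝ (a - b) e * r + (‖a - b‖ ^ 2 - c ^ 2) = 0 := by
    intro r hr
    rw [mem_sphere_iff_norm] at hr
    have h1 : a + r * e - b = (a - b) + r • e := by
      rw [Complex.real_smul]; ring
    have h2 := norm_add_sq_real (a - b) (r • e)
    rw [← h1, hr, real_inner_smul_right, norm_smul, hn, mul_one, Real.norm_eq_abs, sq_abs] at h2
    linarith
  by_cases hne : ∃ r₀ : ℝ, a + r₀ * e ∈ Metric.sphere b c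
  · obtain ⟨r₀, hr₀⟩ := hne
    have h0 := key r₀ hr₀
    refine Set.Countable.mono (s₂ := {r₀, -(2 * inner ℝ (a - b) e) - r₀}) ?_
      (Set.toFinite _).countable
    intro r hr
    have h1 := key r hr
    have h2 : (r - r₀) * (r + r₀ + 2 * inner ℝ (a - b) e) = 0 := by
      linear_combination h1 - h0
    rcases mul_eq_zero.1 h2 with h | h
    · left; linarith
    · right
      rw [Set.mem_singleton_iff]; linarith
  · have : {r : ℝ | a + r * e ∈ Metric.sphere b c} = ∅ := by
      ext r
      simp only [Set.mem_ofPred_eq, Set.mem_empty_iff_false, iff_false]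
      exact fun h => hne ⟨r, h⟩
    rw [this]
    exact Set.countable_empty

end Pair

open Pair in
theorem pair_energy (a b : ℂ) (ρ ρ' R : ℝ) (hρ : 0 < ρ) (hρ' : 0 < ρ') (hR : ρ < R)
    (hR' : ρ' < R) :
    ∫ z, (vf b ρ' R z * (starRingEnd ℂ) (vf a ρ R z)).re =
      2 * π * (Real.circleAverage (wl b ρ' R) a R - Real.circleAverage (wl b ρ' R) a ρ) := by
  rw [← radial (wl b ρ' R) (continuous_wl b ρ' R hρ' hR') (fun z => innerSL ℝ (vf b ρ' R z))
    ((innerSL ℝ).continuous.measurable.comp (measurable_vf b ρ' R)) (1 / ρ')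
    (fun z => by rw [innerSL_apply_norm]; exact norm_vf_le b ρ' R hρ' z)
    (Metric.sphere b ρ' ∪ Metric.sphere b R) (fun z hz => hasFDerivAt_wl b ρ' R hρ' hR' z hz)
    a ρ R hρ hR ?_]
  · congr 1
    funext z
    rw [innerSL_apply_apply, real_inner_comm, Complex.inner]
  · intro θ
    have : {r : ℝ | a + r * Complex.exp (θ * Complex.I) ∈
        Metric.sphere b ρ' ∪ Metric.sphere b R} =
        {r : ℝ | a + r * Complex.exp (θ * Complex.I) ∈ Metric.sphere b ρ'} ∪
        {r : ℝ | a + r * Complex.exp (θ * Complex.I) ∈ Metric.sphere b R} := rfl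
    rw [this]
    exact (ray a b ρ' θ).union (ray a b R θ)

open Pair in
theorem phi_energy (φ : ℂ → ℝ) (hφ : ContDiff ℝ 1 φ) (hc : HasCompactSupport φ) (a : ℂ)
    (ρ R : ℝ) (hρ : 0 < ρ) (hR : ρ < R) (hsupp : ∀ z, R ≤ ‖z - a‖ → φ z = 0) :
    ∫ z, fderiv ℝ φ z (vf a ρ R z) = - (2 * π * Real.circleAverage φ a ρ) := by
  have hcont : Continuous (fderiv ℝ φ) := hφ.continuous_fderiv one_ne_zero
  obtain ⟨M, hM⟩ := hcont.bounded_above_of_compact_support (hc.fderiv ℝ)
  rw [radial φ hφ.continuous (fderiv ℝ φ) hcont.measurable M hM ∅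
    (fun z _ => (hφ.differentiable one_ne_zero z).hasFDerivAt) a ρ R hρ hR
    (fun θ => by simp)]
  have h0 : Real.circleAverage φ a R = 0 := by
    have : Real.circleAverage φ a R = Real.circleAverage (fun _ => (0 : ℝ)) a R := by
      refine Real.circleAverage_congr_sphere fun z hz => ?_
      rw [mem_sphere_iff_norm, abs_of_pos (hρ.trans hR)] at hz
      exact hsupp z hz.ge
    rw [this, Real.circleAverage_const]
  rw [h0]
  ring

end H904L2
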