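import Pool.Agent.H904L2.Defs

open Polynomial
open scoped Real

namespace H904L2

/-! A1 -/
theorem int_coeffs (R2 R4 U : ℤ[X]) (h2 : R2.coeff 0 = 1) (h4 : R4.coeff 0 = 1)
    (h : R4 = R2 + 4 * U) (f : PowerSeries ℂ) (hf0 : PowerSeries.constantCoeff f = 1)
    (hf : f ^ 2 = (((R2 * R4).map (Int.castRingHom ℂ) : ℂ[X]) : PowerSeries ℂ)) :
    ∃ c : ℕ → ℤ, f = PowerSeries.mk fun n => (c n : ℂ) := sorry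

/-! A2 -/
theorem exists_graeffe (R : ℤ[X]) : ∃ R2 : ℤ[X], R2.comp (X ^ 2) = R * R.comp (-X) := sorry

theorem graeffe_congr (R R2 R4 : ℤ[X]) (h2 : R2.comp (X ^ 2) = R * R.comp (-X))
    (h4 : R4.comp (X ^ 2) = R2 * R2.comp (-X)) : ∃ U : ℤ[X], R4 = R2 + 4 * U := sorry

theorem graeffe_prod {ι : Type} [Fintype ι] (a : ι → ℂ) (R R2 : ℤ[X])
    (hR : R.map (Int.castRingHom ℂ) = ∏ i, (1 - C (a i) * X))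
    (h2 : R2.comp (X ^ 2) = R * R.comp (-X)) :
    R2.map (Int.castRingHom ℂ) = ∏ i, (1 - C (a i ^ 2) * X) := sorry

/-! B1 -/
theorem even_of_neg_root (f : ℤ[X]) (hm : f.Monic) (hi : Irreducible f) (h0 : f.coeff 0 ≠ 0)
    (x y : ℂ) (hx : aeval x f = 0) (hy : aeval y f = 0) (hxy : x ≠ y) (hsq : x ^ 2 = y ^ 2) :
    ∃ g : ℤ[X], g.Monic ∧ Irreducible g ∧ g.coeff 0 ≠ 0 ∧ f = g.comp (X ^ 2) := sorry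

/-! B2 -/
theorem sum_comp_sq (f g : ℤ[X]) (hg : g.Monic) (h : f = g.comp (X ^ 2)) :
    ((f.map (Int.castRingHom ℂ)).roots.map fun z => (Real.posLog ‖z‖) ^ 2).sum =
      (1 / 2 : ℝ) * ((g.map (Int.castRingHom ℂ)).roots.map fun z => (Real.posLog ‖z‖) ^ 2).sum :=
  sorry

/-! B3 -/
theorem not_square {ι : Type} [Fintype ι] (α : ι → ℂ) (h0 : ∀ i, α i ≠ 0)
    (hinj : Function.Injective fun i => α i ^ 2) (hbig : ∃ i, 1 < ‖α i‖) (P Q : ℂ[X])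
    (hQ : Q ≠ 0) :
    Q ^ 2 * ((∏ i, (1 - C (α i ^ 2) * X)) * ∏ i, (1 - C (α i ^ 4) * X)) ≠ P ^ 2 := sorry

/-! C -/
theorem kronecker (c : ℕ → ℂ) (N0 : ℕ)
    (h : ∀ N, N0 ≤ N → (Matrix.of fun i j : Fin N => c ((i : ℕ) + (j : ℕ))).det = 0) :
    ∃ P Q : ℂ[X], Q ≠ 0 ∧ (Q : PowerSeries ℂ) * PowerSeries.mk c = (P : PowerSeries ℂ) := sorry

/-! D -/
theorem det_lt_one (L : ℂ[X] →ₗ[ℂ] ℂ) (K : Set ℂ) (hK : IsCompact K) (hKi : K.Infinite) (C : ℝ)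
    (hC : 0 ≤ C)
    (hL : ∀ p : ℂ[X], ∀ B : ℝ, (∀ z ∈ K, ‖p.eval z‖ ≤ B) → ‖L p‖ ≤ C * B)
    (b δ : ℝ) (hδ : 0 < δ)
    (hE : ∀ N : ℕ, 0 < N → ∀ z : Fin N → ℂ, Function.Injective z → (∀ i, z i ∈ K) →
      ∑ i, ∑ j ∈ Finset.univ.erase i, Real.log ‖z i - z j‖ ≤ N * b - (N : ℝ) ^ 2 * δ) :
    ∃ N0 : ℕ, ∀ N, N0 ≤ N →
      ‖(Matrix.of fun i j : Fin N => L (X ^ ((i : ℕ) + (j : ℕ)))).det‖ < 1 := sorry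

/-! E1 -/
theorem exists_coeffs {ι : Type} [Fintype ι] (a : ι → ℂ) :
    ∃ c : ℕ → ℂ, c 0 = 1 ∧
      (PowerSeries.mk c) ^ 2 = ((∏ i, (1 - C (a i) * X) : ℂ[X]) : PowerSeries ℂ) ∧
      ∀ R : ℝ, 0 < R → (∀ i, ‖a i‖ < R) → ∀ n : ℕ,
        Real.circleAverage (fun z => Fsq a z * z ^ n) 0 R = c n := sorry

/-! E2 -/
theorem contour_bound {ι : Type} [Fintype ι] (a : ι → ℂ) (ha : ∀ i, a i ≠ 0) (T δ R : ℝ)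
    (hδ : 0 < δ) (hR : ∀ i, ‖a i‖ < R) (hRT : Real.exp (-T) < R) :
    ∃ C : ℝ, 0 ≤ C ∧ ∀ p : ℂ[X], ∀ B : ℝ, (∀ z ∈ Kset a T δ, ‖p.eval z‖ ≤ B) →
      ‖Real.circleAverage (fun z => Fsq a z * p.eval z) 0 R‖ ≤ C * B := sorry

/-! T1 -/
theorem radial (W : ℂ → ℝ) (hW : Continuous W) (G : ℂ → ℂ →L[ℝ] ℝ) (hG : Measurable G) (M : ℝ)
    (hGM : ∀ z, ‖G z‖ ≤ M) (S : Set ℂ) (hS : ∀ z ∉ S, HasFDerivAt W (G z) z) (a : ℂ) (ρ R : ℝ)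
    (hρ : 0 < ρ) (hR : ρ < R)
    (hSc : ∀ θ : ℝ, {r : ℝ | a + r * Complex.exp (θ * Complex.I) ∈ S}.Countable) :
    ∫ z, G z (vf a ρ R z) = 2 * π * (Real.circleAverage W a R - Real.circleAverage W a ρ) :=
  sorry

/-! T2 -/
theorem pair_energy (a b : ℂ) (ρ ρ' R : ℝ) (hρ : 0 < ρ) (hρ' : 0 < ρ') (hR : ρ < R)
    (hR' : ρ' < R) :
    ∫ z, (vf b ρ' R z * (starRingEnd ℂ) (vf a ρ R z)).re =
      2 * π * (Real.circleAverage (wl b ρ' R) a R - Real.circleAverage (wl b ρ' R) a ρ) := sorry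

theorem phi_energy (φ : ℂ → ℝ) (hφ : ContDiff ℝ 1 φ) (hc : HasCompactSupport φ) (a : ℂ)
    (ρ R : ℝ) (hρ : 0 < ρ) (hR : ρ < R) (hsupp : ∀ z, R ≤ ‖z - a‖ → φ z = 0) :
    ∫ z, fderiv ℝ φ z (vf a ρ R z) = - (2 * π * Real.circleAverage φ a ρ) := sorry

/-! T3 -/
theorem wl_average_big (a b : ℂ) (ρ R : ℝ) (hρ : 0 < ρ) (hR : ‖a - b‖ + ρ < R) :
    Real.circleAverage (wl b ρ R) a R ≤ Real.log R ∧
      Real.log (R - ‖a - b‖) ≤ Real.circleAverage (wl b ρ R) a R := sorry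

theorem wl_average_small (a b : ℂ) (hab : a ≠ b) (ρ R : ℝ) (hρ : 0 < ρ)
    (hR : ‖a - b‖ + ρ < R) :
    Real.log ‖a - b‖ ≤ Real.circleAverage (wl b ρ R) a ρ := sorry

theorem wl_average_self (a : ℂ) (ρ R : ℝ) (hρ : 0 < ρ) (hR : ρ < R) :
    Real.circleAverage (wl a ρ R) a ρ = Real.log ρ := sorry

theorem wl_average_posLog (a : ℂ) (ρ R : ℝ) (hρ : 0 < ρ) (hR : ‖a‖ + ρ < R) (hR1 : 1 < R) :
    Real.circleAverage (wl 0 1 R) a ρ = Real.circleAverage (fun z => Real.posLog ‖z‖) a ρ :=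
  sorry

/-! T4 -/
theorem energy_bound (φ : ℂ → ℝ) (hφ : ContDiff ℝ 1 φ) (hc : HasCompactSupport φ) {N : ℕ}
    (hN : 0 < N) (z : Fin N → ℂ) (hz : Function.Injective z) {ρ : ℝ} (hρ : 0 < ρ) :
    ∑ i, ∑ j ∈ Finset.univ.erase i, Real.log ‖z i - z j‖ ≤
      N * Real.log (1 / ρ) +
        (N : ℝ) ^ 2 * ((2 * π)⁻¹ * (∫ w, dirE φ w) + 2 * Real.circleAverage φ 0 1) +
        2 * N * ∑ i, Real.circleAverage (fun w => Real.posLog ‖w‖ - φ w) (z i) ρ := sorry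

/-! K -/
theorem Kset_isCompact {ι : Type} [Fintype ι] (a : ι → ℂ) (T δ : ℝ) :
    IsCompact (Kset a T δ) := sorry

theorem Kset_infinite {ι : Type} [Fintype ι] (a : ι → ℂ) (T δ : ℝ) :
    (Kset a T δ).Infinite := sorry

theorem Kset_close {ι : Type} [Fintype ι] (a : ι → ℂ) (T : ℝ) (h : ℂ → ℝ) (hc : Continuous h)
    (η η' : ℝ) (hη : η < η') (h1 : ∀ z, ‖z‖ = Real.exp (-T) → h z ≤ η)
    (h2 : ∀ i, ∀ t : ℝ, -T ≤ t → t ≤ Real.log ‖a i‖ →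
      h (Complex.exp (t + (a i).arg * Complex.I)) ≤ η) :
    ∃ δ ρ : ℝ, 0 < δ ∧ 0 < ρ ∧ ∀ z ∈ Kset a T δ, Real.circleAverage h z ρ ≤ η' := sorry

/-! X -/
theorem exists_phi (Ψ : ℂ → ℝ) (hΨ : ContDiff ℝ 1 Ψ)
    (hper : ∀ w, Ψ (w + 2 * π * Complex.I) = Ψ w) (T : ℝ) (hT : 0 < T)
    (hsupp : ∀ w : ℂ, T ≤ |w.re| → Ψ w = 0) :
    ∃ φ : ℂ → ℝ, ContDiff ℝ 1 φ ∧ HasCompactSupport φ ∧ (∀ w, φ (Complex.exp w) = Ψ w) ∧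
      (∀ z, ‖z‖ ≤ Real.exp (-T) → φ z = 0) ∧
      (∫ z, dirE φ z = ∫ w in strip, dirE Ψ w) ∧
      Real.circleAverage φ 0 1 = (2 * π)⁻¹ * ∫ x in (-π)..π, Ψ (x * Complex.I) := sorry

/-! G1 -/
theorem steklov (u : ℝ → ℝ) (hu : LipschitzWith 1 u) (hper : Function.Periodic u (2 * π))
    (ε : ℝ) (hε : 0 < ε) :
    ∃ S : ℝ → ℝ, ContDiff ℝ 1 S ∧ Function.Periodic S (2 * π) ∧ (∀ x, |deriv S x| ≤ 1) ∧
      ∀ x, u x < S x ∧ S x ≤ u x + ε := sorry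

theorem exists_envelope {ι : Type} [Fintype ι] [Nonempty ι] (θ ℓ : ι → ℝ)
    (hℓ : ∀ i, 0 ≤ ℓ i) (ε : ℝ) (hε : 0 < ε) :
    ∃ S : ℝ → ℝ, ContDiff ℝ 1 S ∧ Function.Periodic S (2 * π) ∧ (∀ x, |deriv S x| ≤ 1) ∧
      (∀ x, 0 < S x) ∧ (∀ i, ℓ i ≤ S (θ i)) ∧
      ∫ x in (-π)..π, S x ≤ (∑ i, ℓ i ^ 2) + ε := sorry

theorem exists_gap {ι : Type} [Fintype ι] [Nonempty ι] (θ : ι → ℝ) (ε : ℝ) (hε : 0 < ε) :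
    ∃ S : ℝ → ℝ, ContDiff ℝ 1 S ∧ Function.Periodic S (2 * π) ∧ (∀ x, |deriv S x| ≤ 1) ∧
      (∀ x, 0 < S x) ∧ (∀ i, S (θ i) ≤ ε) ∧
      π ^ 2 / Fintype.card ι ≤ ∫ x in (-π)..π, S x := sorry

/-! G2 -/
theorem prof_contDiff (B S : ℝ → ℝ) (hB : ContDiff ℝ 1 B) (hS : ContDiff ℝ 1 S)
    (hpos : ∀ x, 0 < S x) : ContDiff ℝ 1 (prof B S) := sorry

theorem prof_integral (B S : ℝ → ℝ) (hB : ContDiff ℝ 1 B) (m : ℝ)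
    (hBm : ∀ x, m ≤ |x| → B x = 0) (hS : ContDiff ℝ 1 S) (hpos : ∀ x, 0 < S x)
    (hder : ∀ x, |deriv S x| ≤ 1) :
    MeasureTheory.IntegrableOn (dirE (prof B S)) strip ∧
    ∫ w in strip, dirE (prof B S) w ≤
      (∫ x in (-m)..m, ((deriv B x) ^ 2 + (B x - x * deriv B x) ^ 2)) * ∫ x in (-π)..π, S x :=
  sorry

/-! G3 -/
theorem Apr_contDiff : ContDiff ℝ 1 Apr := sorry

theorem Apr_integral :
    ∫ x in (-1 : ℝ)..1, ((deriv Apr x) ^ 2 + (Apr x - x * deriv Apr x) ^ 2) = 512 / 105 := sorry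

theorem Bpr_integral :
    ∫ x in (-3 : ℝ)..3, ((deriv Bpr x) ^ 2 + (Bpr x - x * deriv Bpr x) ^ 2) = 256 / 35 := sorry

/-! G4 -/
theorem exists_Psi {ι : Type} [Fintype ι] [Nonempty ι] (θ ℓ : ι → ℝ) (hℓ : ∀ i, 0 ≤ ℓ i)
    (hs : (Fintype.card ι : ℝ) * ∑ i, ℓ i ^ 2 < 1 / 16) :
    ∃ (Ψ : ℂ → ℝ) (T ε : ℝ), 0 < T ∧ ContDiff ℝ 1 Ψ ∧
      (∀ w, Ψ (w + 2 * π * Complex.I) = Ψ w) ∧ (∀ w : ℂ, T ≤ |w.re| → Ψ w = 0) ∧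
      (∀ i, ∀ t : ℝ, t ≤ ℓ i → max t 0 - Ψ (t + θ i * Complex.I) ≤ ε) ∧
      (2 * π)⁻¹ * (∫ w in strip, dirE Ψ w) +
        2 * ((2 * π)⁻¹ * ∫ x in (-π)..π, Ψ (x * Complex.I)) + 2 * ε < 0 := sorry

/-! AT1 -/
theorem AT1 {ι : Type} [Fintype ι] [Nonempty ι] (a : ι → ℂ) (ha : ∀ i, a i ≠ 0) (c : ℕ → ℤ)
    (hc0 : c 0 = 1)
    (hc : (PowerSeries.mk fun n => (c n : ℂ)) ^ 2 =
      ((∏ i, (1 - C (a i) * X) : ℂ[X]) : PowerSeries ℂ))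
    (φ : ℂ → ℝ) (hφ : ContDiff ℝ 1 φ) (hφc : HasCompactSupport φ) (T : ℝ) (hT : 0 < T)
    (hφT : ∀ z, ‖z‖ ≤ Real.exp (-T) → φ z = 0) (ε : ℝ)
    (hφK : ∀ i, ∀ t : ℝ, t ≤ Real.log ‖a i‖ →
      max t 0 - φ (Complex.exp (t + (a i).arg * Complex.I)) ≤ ε)
    (hF : (2 * π)⁻¹ * (∫ z, dirE φ z) + 2 * Real.circleAverage φ 0 1 + 2 * ε < 0) :
    ∃ P Q : ℂ[X], Q ≠ 0 ∧
      (Q : PowerSeries ℂ) * PowerSeries.mk (fun n => (c n : ℂ)) = (P : PowerSeries ℂ) := sorry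

/-! AT2 -/
theorem AT2 {ι : Type} [Fintype ι] [Nonempty ι] (a : ι → ℂ) (ha : ∀ i, a i ≠ 0) (c : ℕ → ℤ)
    (hc0 : c 0 = 1)
    (hc : (PowerSeries.mk fun n => (c n : ℂ)) ^ 2 =
      ((∏ i, (1 - C (a i) * X) : ℂ[X]) : PowerSeries ℂ))
    (hs : (Fintype.card ι : ℝ) * ∑ i, (Real.posLog ‖a i‖) ^ 2 < 1 / 16) :
    ∃ P Q : ℂ[X], Q ≠ 0 ∧ Q ^ 2 * ∏ i, (1 - C (a i) * X) = P ^ 2 := sorry

/-! F1 -/
theorem main_irred (f : ℤ[X]) (hm : f.Monic) (hi : Irreducible f)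
    (hbig : ∃ x : ℂ, aeval x f = 0 ∧ 1 < ‖x‖) :
    1 / (640 * (f.natDegree : ℝ)) ≤
      ((f.map (Int.castRingHom ℂ)).roots.map fun z => (Real.posLog ‖z‖) ^ 2).sum := sorry

/-! F2 -/
theorem main (f : ℤ[X]) (hm : f.Monic) (hbig : 1 < (f.map (Int.castRingHom ℂ)).mahlerMeasure) :
    1 / (640 * (f.natDegree : ℝ)) ≤
      ((f.map (Int.castRingHom ℂ)).roots.map fun z => (Real.posLog ‖z‖) ^ 2).sum := sorry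

end H904L2
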